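import Pool.Agent.R217.TF.Pt

set_option autoImplicit false

namespace Pool.Agent.R217.TF

open MeasureTheory Set Filter Topology Function

variable {n δ T : ℝ} {s : ℝ → ℝ} {h : ℝ → ℝ → ℝ} {d : ℕ → ℝ → ℝ → ℝ} {ht : ℝ → ℝ → ℝ}
variable {S0 S1 t1 t2 : ℝ}

/-- lower bound for the change of the functional -/
theorem low (C : Classical n δ T s h d ht) (hδ : 0 < δ) (R : Rect s δ T S0 S1 t1 t2)
    (hsS : ∀ t ∈ Icc t1 t2, s t < S1) {M : ℝ} (hM0 : 0 ≤ M)
    (hM : ∀ t ∈ Icc t1 t2, ∀ x ∈ Icc S0 S1, Hx s h x t ≤ M) {τ1 τ2 : ℝ} (h1 : τ1 ∈ Icc t1 t2)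
    (h2 : τ2 ∈ Icc t1 t2) (h12 : s τ1 < s τ2) :
    ∃ Cl ε1 : ℝ, 0 < ε1 ∧ ∀ (a ε c : ℝ) (Θ Θ' Λ : ℝ → ℝ), 0 < a → a < 1 → 0 < ε → ε < ε1 →
      Cut ε c Θ Θ' Λ → 3 / 4 * (s τ2 - s τ1) * Real.log (1 / a) - Cl ≤
      (∫ x in S0..S1, Real.log (mss s h Λ S0 x τ1 + a)) -
        ∫ x in S0..S1, Real.log (mss s h Λ S0 x τ2 + a) := by
  obtain ⟨len, hlen⟩ : ∃ len, len = S1 - S0 := ⟨_, rfl⟩
  have hl1 := R.left τ1 h1
  have hl2 := R.left τ2 h2
  have hr1 := hsS τ1 h1
  have hr2 := hsS τ2 h2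
  have hlen0 : 0 < len := by linarith
  obtain ⟨x0, hx0⟩ : ∃ x0, x0 = s τ1 + (s τ2 - s τ1) / 4 := ⟨_, rfl⟩
  have hx01 : s τ1 < x0 := by linarith
  have hx02 : x0 < s τ2 := by linarith
  have cH := Hx_contOn C hδ R h1
  have hsub : Icc (s τ1) x0 ⊆ Icc S0 S1 := Icc_subset_Icc hl1.le (by linarith)
  have hpos : 0 < ∫ y in (s τ1)..x0, Hx s h y τ1 := by
    apply intervalIntegral.intervalIntegral_pos_of_pos_on
    · apply ContinuousOn.intervalIntegrable
      rw [uIcc_of_le hx01.le]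
      exact cH.mono hsub
    · intro x hx
      rw [Hx_of_lt hx.1]
      exact C.pos x τ1 ⟨R.pos τ1 h1, R.lt τ1 h1, hx.1, by
        have := R.right τ1 h1
        linarith [hx.2]⟩
    · exact hx01
  obtain ⟨c1, hc1⟩ : ∃ c1, c1 = (∫ y in (s τ1)..x0, Hx s h y τ1) / 2 := ⟨_, rfl⟩
  have hc10 : 0 < c1 := by rw [hc1]; positivity
  obtain ⟨K1, hK1⟩ : ∃ K1, K1 = |Real.log c1| + |Real.log (M * len + 1)| := ⟨_, rfl⟩
  have hK10 : 0 ≤ K1 := by rw [hK1]; positivity
  refine ⟨K1 * len, c1 / len, by positivity, ?_⟩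
  intro a ε c Θ Θ' Λ ha ha1 hε hε1 K
  rw [lt_div_iff₀ hlen0] at hε1
  obtain ⟨L, hL⟩ : ∃ L, L = Real.log (1 / a) := ⟨_, rfl⟩
  have hLa : L = - Real.log a := by rw [hL, one_div, Real.log_inv]
  rw [← hL]
  obtain ⟨cm1, -⟩ := log_mass C hδ ha K R h1
  obtain ⟨cm2, -⟩ := log_mass C hδ ha K R h2
  have hm1 : ∀ x ∈ Icc S0 S1, 0 ≤ mss s h Λ S0 x τ1 := fun x hx => mss_nonneg K hx.1
  have hm2 : ∀ x ∈ Icc S0 S1, 0 ≤ mss s h Λ S0 x τ2 := fun x hx => mss_nonneg K hx.1
  have cl1 : ContinuousOn (fun x => Real.log (mss s h Λ S0 x τ1 + a)) (Icc S0 S1) :=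
    ContinuousOn.log (cm1.add continuousOn_const) (fun x hx => by
      have := hm1 x hx
      positivity)
  have cl2 : ContinuousOn (fun x => Real.log (mss s h Λ S0 x τ2 + a)) (Icc S0 S1) :=
    ContinuousOn.log (cm2.add continuousOn_const) (fun x hx => by
      have := hm2 x hx
      positivity)
  have hui : uIcc S0 S1 = Icc S0 S1 := uIcc_of_le R.hS
  have il1 : IntervalIntegrable (fun x => Real.log (mss s h Λ S0 x τ1 + a)) volume S0 S1 := by
    apply ContinuousOn.intervalIntegrable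
    rwa [hui]
  have il2 : IntervalIntegrable (fun x => Real.log (mss s h Λ S0 x τ2 + a)) volume S0 S1 := by
    apply ContinuousOn.intervalIntegrable
    rwa [hui]
  rw [← intervalIntegral.integral_sub il1 il2]
  obtain ⟨g, hg⟩ : ∃ g : ℝ → ℝ, g = fun x => Real.log (mss s h Λ S0 x τ1 + a) -
    Real.log (mss s h Λ S0 x τ2 + a) := ⟨_, rfl⟩
  rw [← hg]
  have cg : ContinuousOn g (Icc S0 S1) := by rw [hg]; exact cl1.sub cl2
  -- pointwise bounds
  have hbig : ∀ x ∈ Icc x0 S1, c1 ≤ mss s h Λ S0 x τ1 := by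
    intro x hx
    have hmc := mass_cmp C hδ hε K R h1 (x := x) ⟨by linarith [hx.1], hx.2⟩
    have hmono : ∫ y in (s τ1)..x0, Hx s h y τ1 ≤ ∫ y in (s τ1)..x, Hx s h y τ1 := by
      apply intervalIntegral.integral_mono_interval (le_refl _) hx01.le hx.1
      · refine (ae_restrict_iff' measurableSet_Ioc).2 (Eventually.of_forall fun y hy => ?_)
        exact Hx_nonneg C (R.mem ⟨by linarith [hy.1], by linarith [hy.2, hx.2]⟩ h1)
      · apply ContinuousOn.intervalIntegrable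
        rw [uIcc_of_le (by linarith [hx.1])]
        exact cH.mono (Icc_subset_Icc hl1.le hx.2)
    have : ε * (S1 - S0) < c1 := by rw [← hlen]; exact hε1
    linarith
  have hzero : ∀ x ∈ Icc S0 (s τ2), mss s h Λ S0 x τ2 = 0 := by
    intro x hx
    unfold mss
    have : EqOn (fun y => Λ (Hx s h y τ2)) (fun _ => 0) (uIcc S0 x) := by
      intro y hy
      rw [uIcc_of_le hx.1] at hy
      simp only
      rw [Hx_of_le C (R.pos τ2 h2) (R.lt τ2 h2) (hy.2.trans hx.2)]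
      exact K.zΛ 0 (by positivity)
    rw [intervalIntegral.integral_congr this]
    simp
  have g1 : ∀ x ∈ Icc S0 x0, -K1 ≤ g x := by
    intro x hx
    rw [hg]
    simp only
    rw [hzero x ⟨hx.1, by linarith [hx.2]⟩, zero_add]
    have := hm1 x ⟨hx.1, by linarith [hx.2]⟩
    have := Real.log_le_log ha (by linarith : a ≤ mss s h Λ S0 x τ1 + a)
    linarith
  have g2 : ∀ x ∈ Icc x0 (s τ2), L - K1 ≤ g x := by
    intro x hx
    rw [hg]
    simp only
    rw [hzero x ⟨by linarith [hx.1], hx.2⟩, zero_add]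
    have := hbig x ⟨hx.1, by linarith [hx.2]⟩
    have := Real.log_le_log hc10 (by linarith : c1 ≤ mss s h Λ S0 x τ1 + a)
    have h3 := neg_abs_le (Real.log c1)
    have h4 := abs_nonneg (Real.log (M * len + 1))
    linarith
  have g3 : ∀ x ∈ Icc (s τ2) S1, -K1 ≤ g x := by
    intro x hx
    rw [hg]
    simp only
    have := hbig x ⟨by linarith [hx.1], hx.2⟩
    have h5 := Real.log_le_log hc10 (by linarith : c1 ≤ mss s h Λ S0 x τ1 + a)
    have h3 := neg_abs_le (Real.log c1)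
    have h4 := le_abs_self (Real.log (M * len + 1))
    have hxI : x ∈ Icc S0 S1 := ⟨by linarith [hx.1], hx.2⟩
    have h6 : mss s h Λ S0 x τ2 ≤ M * len := by
      have hcΛ : Continuous Λ := continuous_iff_continuousAt.2 fun r => (K.dΛ r).continuousAt
      have e1 : mss s h Λ S0 x τ2 ≤ ∫ _ in S0..x, M := by
        unfold mss
        apply intervalIntegral.integral_mono_on hxI.1
        · apply ContinuousOn.intervalIntegrable
          rw [uIcc_of_le hxI.1]
          exact hcΛ.comp_continuousOn ((Hx_contOn C hδ R h2).mono (Icc_subset_Icc_right hxI.2))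
        · exact intervalIntegrable_const
        · intro y hy
          have hyI : y ∈ Icc S0 S1 := ⟨hy.1, hy.2.trans hxI.2⟩
          exact (K.uΛ _ (Hx_nonneg C (R.mem hyI h2))).trans (hM τ2 h2 y hyI)
      rw [intervalIntegral.integral_const, smul_eq_mul] at e1
      have : (x - S0) * M ≤ len * M := mul_le_mul_of_nonneg_right (by linarith [hxI.2]) hM0
      linarith
    have h7 := hm2 x hxI
    have h8 := Real.log_le_log (by linarith : 0 < mss s h Λ S0 x τ2 + a)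
      (by linarith : mss s h Λ S0 x τ2 + a ≤ M * len + 1)
    linarith
  have ig1 : IntervalIntegrable g volume S0 x0 := by
    apply ContinuousOn.intervalIntegrable
    rw [uIcc_of_le (by linarith)]
    exact cg.mono (Icc_subset_Icc_right (by linarith))
  have ig2 : IntervalIntegrable g volume x0 (s τ2) := by
    apply ContinuousOn.intervalIntegrable
    rw [uIcc_of_le (by linarith)]
    exact cg.mono (Icc_subset_Icc (by linarith) (by linarith))
  have ig3 : IntervalIntegrable g volume (s τ2) S1 := by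
    apply ContinuousOn.intervalIntegrable
    rw [uIcc_of_le (by linarith)]
    exact cg.mono (Icc_subset_Icc_left (by linarith))
  have e1 : ∫ x in S0..S1, g x = (∫ x in S0..x0, g x) + (∫ x in x0..(s τ2), g x) +
      ∫ x in (s τ2)..S1, g x := by
    rw [intervalIntegral.integral_add_adjacent_intervals ig1 ig2,
      intervalIntegral.integral_add_adjacent_intervals (ig1.trans ig2) ig3]
  have b1 := intervalIntegral.integral_mono_on (by linarith : S0 ≤ x0)
    (intervalIntegrable_const (c := -K1)) ig1 g1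
  have b2 := intervalIntegral.integral_mono_on (by linarith : x0 ≤ s τ2)
    (intervalIntegrable_const (c := L - K1)) ig2 g2
  have b3 := intervalIntegral.integral_mono_on (by linarith : s τ2 ≤ S1)
    (intervalIntegrable_const (c := -K1)) ig3 g3
  rw [intervalIntegral.integral_const, smul_eq_mul] at b1 b2 b3
  rw [e1]
  have e2 : (x0 - S0) * -K1 + (s τ2 - x0) * (L - K1) + (S1 - s τ2) * -K1 =
      3 / 4 * (s τ2 - s τ1) * L - K1 * len := by
    rw [hx0, hlen]
    ring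
  linarith

theorem alg1 {Δ D L : ℝ} (h : 0 < D + 1) :
    Δ / (4 * (D + 1)) * L / 2 * D = Δ * L / 8 * (D / (D + 1)) := by
  field_simp
  ring

theorem alg2 {Δ D T' L c l : ℝ} (hc : 0 < c) (hl : 0 < l) (h : 0 < D + T' + 1) :
    c / l * (Δ * l / (16 * c * (D + T' + 1)) * (L + 1) * (D + T')) =
      Δ * (L + 1) / 16 * ((D + T') / (D + T' + 1)) := by
  field_simp

theorem alg3 {len a c D : ℝ} (hl : 0 < len) (ha : 0 < a) (hc : 0 < c) (h : 0 < D + 1) :
    len / a * c * (a / (len * c * (D + 1)) / 2) * D = 1 / 2 * (D / (D + 1)) := by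
  field_simp

theorem alg4 {len a c η : ℝ} (hl : 0 < len) (ha : 0 < a) (hc : 0 < c) (hη : 0 < η) :
    len / a * c * (1 / (2 * η)) * (a * η / (len * c)) = 1 / 2 := by
  field_simp

theorem alg5 (η l D K G S c v k w : ℝ) :
    l / 2 * D + (K * (D + 1) * k + v) / l * G + S * (c * (η / 2 * D + 1 / (2 * η) * w)) =
    l / 2 * D + G / l * (K * k * (D + 1) + v) + (S * c * (η / 2) * D +
      S * c * (1 / (2 * η)) * w) := by
  ring

/-- the criterion -/
theorem core (hn : 3 ≤ n) (C : Classical n δ T s h d ht) (hδ : 0 < δ)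
    (R : Rect s δ T S0 S1 t1 t2) (hsS : ∀ t ∈ Icc t1 t2, s t < S1) {M : ℝ} (hM0 : 0 ≤ M)
    (hM : ∀ t ∈ Icc t1 t2, ∀ x ∈ Icc S0 S1, Hx s h x t ≤ M)
    (hDa : ∀ᵐ t, t ∈ Icc t1 t2 → IntegrableOn (fun x => dss n h d x t) (Ioo (s t) (s t + δ)))
    (hDt : IntervalIntegrable (Dt n δ s h d) volume t1 t2)
    (hD0 : ∀ t ∈ Icc t1 t2, 0 ≤ Dt n δ s h d t)
    (hK : ∀ ρ : ℝ, 0 < ρ → ∃ c0 : ℝ → ℝ, IntervalIntegrable c0 volume t1 t2 ∧
      (∀ t ∈ Icc t1 t2, 0 ≤ c0 t) ∧ ∀ a : ℝ, 0 < a → a < 1 → ∀ᵐ t, t ∈ Icc t1 t2 →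
        ∀ x ∈ Ioc (s t) S1, h x t ^ (n - 1) ≤
          (ρ * (Dt n δ s h d t + 1) * (Real.log (1 / a) + 1) + c0 t) *
            ((∫ y in (s t)..x, Hx s h y t) + a))
    (hR : ∀ η : ℝ, 0 < η → ∃ ε0 : ℝ, 0 < ε0 ∧
      ∀ ε : ℝ, 0 < ε → ε < ε0 → ∃ v : ℝ → ℝ, IntervalIntegrable v volume t1 t2 ∧
        ∫ t in t1..t2, v t ≤ η ∧ ∀ᵐ t, t ∈ Icc t1 t2 →
        ε ^ (n - 2) * ∫ x in lev s h S1 ε t, d 1 x t ^ 2 ≤ v t) :
    s t1 = s t2 := by
  by_contra hne
  have hT1 : t1 ∈ Icc t1 t2 := ⟨le_refl _, R.hT⟩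
  have hT2 : t2 ∈ Icc t1 t2 := ⟨R.hT, le_refl _⟩
  obtain ⟨Δ, hΔ⟩ : ∃ Δ, Δ = |s t2 - s t1| := ⟨_, rfl⟩
  have hΔ0 : 0 < Δ := by rw [hΔ]; exact abs_pos.2 (sub_ne_zero.2 (Ne.symm hne))
  -- lower bound, in both cases
  have hlow : ∃ Cl ε1 : ℝ, 0 < ε1 ∧ ∀ (a ε c : ℝ) (Θ Θ' Λ : ℝ → ℝ), 0 < a → a < 1 → 0 < ε →
      ε < ε1 → Cut ε c Θ Θ' Λ → 3 / 4 * Δ * Real.log (1 / a) - Cl ≤
      |(∫ x in S0..S1, Real.log (mss s h Λ S0 x t2 + a)) -
        ∫ x in S0..S1, Real.log (mss s h Λ S0 x t1 + a)| := by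
    rcases lt_or_gt_of_ne hne with h12 | h12
    · obtain ⟨Cl, ε1, h1, h2⟩ := low C hδ R hsS hM0 hM hT1 hT2 h12
      refine ⟨Cl, ε1, h1, fun a ε c Θ Θ' Λ ha ha1 hε hε1 K => ?_⟩
      have := h2 a ε c Θ Θ' Λ ha ha1 hε hε1 K
      rw [hΔ, abs_of_pos (by linarith : 0 < s t2 - s t1), abs_sub_comm]
      exact this.trans (le_abs_self _)
    · obtain ⟨Cl, ε1, h1, h2⟩ := low C hδ R hsS hM0 hM hT2 hT1 h12
      refine ⟨Cl, ε1, h1, fun a ε c Θ Θ' Λ ha ha1 hε hε1 K => ?_⟩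
      have := h2 a ε c Θ Θ' Λ ha ha1 hε hε1 K
      rw [hΔ, abs_of_neg (by linarith : s t2 - s t1 < 0)]
      have e : -(s t2 - s t1) = s t1 - s t2 := by ring
      rw [e]
      exact this.trans (le_abs_self _)
  obtain ⟨Cl, ε1, hε10, hlow⟩ := hlow
  obtain ⟨Dtot, hDtot⟩ : ∃ Dtot, Dtot = ∫ t in t1..t2, Dt n δ s h d t := ⟨_, rfl⟩
  have hDtot0 : 0 ≤ Dtot := by rw [hDtot]; exact intervalIntegral.integral_nonneg R.hT hD0
  obtain ⟨Tt, hTt⟩ : ∃ Tt, Tt = t2 - t1 := ⟨_, rfl⟩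
  have hTt0 : 0 ≤ Tt := by rw [hTt]; linarith [R.hT]
  obtain ⟨len, hlen⟩ : ∃ len, len = S1 - S0 := ⟨_, rfl⟩
  have hlen0 : 0 < len := by
    have := R.left t1 hT1
    have := hsS t1 hT1
    linarith
  obtain ⟨lam0, hlam0⟩ : ∃ l0, l0 = Δ / (4 * (Dtot + 1)) := ⟨_, rfl⟩
  have hlam00 : 0 < lam0 := by rw [hlam0]; positivity
  obtain ⟨cM, hcM⟩ : ∃ cM, cM = Real.log (M * len + 1) := ⟨_, rfl⟩
  have hcM0 : 0 ≤ cM := by
    rw [hcM]
    apply Real.log_nonneg
    have : 0 ≤ M * len := by positivity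
    linarith
  obtain ⟨c2, hc2⟩ : ∃ c2, c2 = 2 * cM + 4 := ⟨_, rfl⟩
  have hc20 : 0 < c2 := by rw [hc2]; positivity
  obtain ⟨ρ, hρ⟩ : ∃ ρ, ρ = Δ * lam0 / (16 * c2 * (Dtot + Tt + 1)) := ⟨_, rfl⟩
  have hρ0 : 0 < ρ := by rw [hρ]; positivity
  obtain ⟨c0, hc0i, hc00, hK⟩ := hK ρ hρ0
  obtain ⟨C0, hC0⟩ : ∃ C0, C0 = ∫ t in t1..t2, c0 t := ⟨_, rfl⟩
  have hC00 : 0 ≤ C0 := by rw [hC0]; exact intervalIntegral.integral_nonneg R.hT hc00
  obtain ⟨c, hc, hcut⟩ := exists_cut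
  -- choice of a
  obtain ⟨L, hL⟩ : ∃ L : ℝ, L = max 1 ((Cl + c2 / lam0 * C0 + 2) * (2 / Δ) + 1) := ⟨_, rfl⟩
  have hL1 : 1 ≤ L := by rw [hL]; exact le_max_left _ _
  have hL2 : (Cl + c2 / lam0 * C0 + 2) * (2 / Δ) + 1 ≤ L := by rw [hL]; exact le_max_right _ _
  have hLΔ : Cl + c2 / lam0 * C0 + 2 < Δ / 2 * L := by
    have h1 : (Cl + c2 / lam0 * C0 + 2) * (2 / Δ) < L := by linarith
    have h2 := mul_lt_mul_of_pos_left h1 (by positivity : 0 < Δ / 2)
    have h3 : Δ / 2 * ((Cl + c2 / lam0 * C0 + 2) * (2 / Δ)) = Cl + c2 / lam0 * C0 + 2 := by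
      field_simp
    linarith
  obtain ⟨a, ha⟩ : ∃ a, a = Real.exp (-L) := ⟨_, rfl⟩
  have ha0 : 0 < a := by rw [ha]; exact Real.exp_pos _
  have ha1 : a < 1 := by
    rw [ha, ← Real.exp_zero]
    exact Real.exp_lt_exp.2 (by linarith)
  have hlga : Real.log (1 / a) = L := by
    rw [one_div, Real.log_inv, ha, Real.log_exp]
    ring
  -- choice of η and η'
  obtain ⟨η, hη⟩ : ∃ η, η = a / (len * c * (Dtot + 1)) := ⟨_, rfl⟩
  have hη0 : 0 < η := by rw [hη]; positivity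
  obtain ⟨η', hη'⟩ : ∃ η', η' = a * η / (len * c) := ⟨_, rfl⟩
  have hη'0 : 0 < η' := by rw [hη']; positivity
  obtain ⟨ε0, hε00, hR⟩ := hR η' hη'0
  obtain ⟨ε, hεd⟩ : ∃ ε, ε = min (min (ε0 / 2) (ε1 / 2)) (a / len) := ⟨_, rfl⟩
  have hε : 0 < ε := by
    rw [hεd]
    apply lt_min (lt_min (by positivity) (by positivity)) (by positivity)
  have hεε0 : ε < ε0 := by
    have : ε ≤ ε0 / 2 := by rw [hεd]; exact (min_le_left _ _).trans (min_le_left _ _)
    linarith
  have hεε1 : ε < ε1 := by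
    have : ε ≤ ε1 / 2 := by rw [hεd]; exact (min_le_left _ _).trans (min_le_right _ _)
    linarith
  have hεa : ε * (S1 - S0) ≤ a := by
    have : ε ≤ a / len := by rw [hεd]; exact min_le_right _ _
    rw [le_div_iff₀ hlen0] at this
    rw [← hlen]
    exact this
  obtain ⟨v, hvi, hvη, hR⟩ := hR ε hε hεε0
  obtain ⟨Θ, Θ', Λ, K⟩ := hcut ε hε
  have hlo := hlow a ε c Θ Θ' Λ ha0 ha1 hε hεε1 K
  rw [hlga] at hlo
  obtain ⟨Lg, hLg⟩ : ∃ Lg, Lg = Real.log ((M * (S1 - S0) + a) / a) := ⟨_, rfl⟩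
  have hLgb : 2 * Lg + 2 ≤ c2 * L := by
    have h1 : Lg ≤ cM + L := by
      rw [hLg, ← hlen, Real.log_div (by positivity) ha0.ne', hcM, ← hlga, one_div, Real.log_inv]
      have := Real.log_le_log (by positivity : 0 < M * len + a)
        (by linarith : M * len + a ≤ M * len + 1)
      linarith
    rw [hc2]
    nlinarith
  have hLg0 : 0 ≤ 2 * Lg + 2 := by
    have : 0 ≤ Lg := by
      rw [hLg]
      apply Real.log_nonneg
      rw [le_div_iff₀ ha0]
      rw [← hlen]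
      have : 0 ≤ M * len := by positivity
      linarith
    linarith
  have hlamp : 0 < lam0 * L := by positivity
  -- upper bound
  have hup := evo (by linarith : 0 < n) C hδ hε ha0 K R
    (B := fun t => lam0 * L / 2 * Dt n δ s h d t +
      (2 * Lg + 2) / (lam0 * L) * (ρ * (L + 1) * (Dt n δ s h d t + 1) + c0 t) +
      ((S1 - S0) / a * c * (η / 2) * Dt n δ s h d t +
        (S1 - S0) / a * c * (1 / (2 * η)) * v t)) ?_ ?_
  · rw [intervalIntegral.integral_add, intervalIntegral.integral_add,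
      intervalIntegral.integral_const_mul, intervalIntegral.integral_const_mul,
      intervalIntegral.integral_add, intervalIntegral.integral_const_mul,
      intervalIntegral.integral_add hDt intervalIntegrable_const,
      intervalIntegral.integral_add, intervalIntegral.integral_const_mul,
      intervalIntegral.integral_const_mul, intervalIntegral.integral_const, ← hDtot, ← hC0,
      smul_eq_mul, mul_one, ← hTt, ← hlen] at hup
    · have u1 : lam0 * L / 2 * Dtot ≤ Δ * L / 8 := by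
        rw [hlam0, alg1 (by positivity)]
        have h2 : Dtot / (Dtot + 1) ≤ 1 := by rw [div_le_one (by positivity)]; linarith
        have := mul_le_mul_of_nonneg_left h2 (by positivity : 0 ≤ Δ * L / 8)
        linarith
      have u2 : (2 * Lg + 2) / (lam0 * L) * (ρ * (L + 1) * (Dtot + Tt) + C0) ≤
          Δ * L / 8 + c2 / lam0 * C0 := by
        have h1 : (2 * Lg + 2) / (lam0 * L) ≤ c2 / lam0 := by
          rw [div_le_div_iff₀ hlamp hlam00]
          have := mul_le_mul_of_nonneg_right hLgb hlam00.le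
          linarith
        have h2 : 0 ≤ ρ * (L + 1) * (Dtot + Tt) + C0 := by positivity
        refine (mul_le_mul_of_nonneg_right h1 h2).trans ?_
        have h3 : c2 / lam0 * (ρ * (L + 1) * (Dtot + Tt)) ≤ Δ * L / 8 := by
          rw [hρ]
          rw [alg2 hc20 hlam00 (by positivity)]
          have h4 : (Dtot + Tt) / (Dtot + Tt + 1) ≤ 1 := by
            rw [div_le_one (by positivity)]
            linarith
          have h5 := mul_le_mul_of_nonneg_left h4 (by positivity : 0 ≤ Δ * (L + 1) / 16)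
          have h6 : Δ * (L + 1) / 16 ≤ Δ * L / 8 := by nlinarith
          linarith
        rw [mul_add]
        linarith
      have u3 : len / a * c * (η / 2) * Dtot ≤ 1 / 2 := by
        rw [hη]
        rw [alg3 hlen0 ha0 hc (by positivity)]
        have h2 : Dtot / (Dtot + 1) ≤ 1 := by rw [div_le_one (by positivity)]; linarith
        linarith
      have u4 : len / a * c * (1 / (2 * η)) * (∫ t in t1..t2, v t) ≤ 1 / 2 := by
        have h1 : len / a * c * (1 / (2 * η)) * (∫ t in t1..t2, v t) ≤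
            len / a * c * (1 / (2 * η)) * η' :=
          mul_le_mul_of_nonneg_left hvη (by positivity)
        refine h1.trans (le_of_eq ?_)
        rw [hη', alg4 hlen0 ha0 hc hη0]
      linarith
    · exact hDt.const_mul _
    · exact hvi.const_mul _
    · exact (hDt.add intervalIntegrable_const).const_mul _
    · exact hc0i
    · exact hDt.const_mul _
    · exact (((hDt.add intervalIntegrable_const).const_mul _).add hc0i).const_mul _
    · exact (hDt.const_mul _).add ((((hDt.add intervalIntegrable_const).const_mul _).add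
        hc0i).const_mul _)
    · exact (hDt.const_mul _).add (hvi.const_mul _)
  · exact ((hDt.const_mul _).add ((((hDt.add intervalIntegrable_const).const_mul _).add
      hc0i).const_mul _)).add ((hDt.const_mul _).add (hvi.const_mul _))
  · filter_upwards [hDa, hK a ha0 ha1, hR] with t k1 k2 k3 hti
    have hD := hD0 t hti
    have hc := hc00 t hti
    have k2' := k2 hti
    rw [hlga] at k2'
    have hKt0 : 0 ≤ ρ * (Dt n δ s h d t + 1) * (L + 1) + c0 t := by positivity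
    have := pt_est hn C hδ hε ha0 ‹0 < c› K R hti (hsS t hti) (k1 hti) hKt0 k2' (k3 hti) hεa
      (hM t hti) hlamp hη0
    refine this.trans (le_of_eq ?_)
    rw [← hLg]
    exact alg5 _ _ _ _ _ _ _ _ _ _

end Pool.Agent.R217.TF
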