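import Mathlib

set_option autoImplicit false

namespace Pool.Agent.R217.TF

open MeasureTheory Set Filter Topology

/-- smooth cut-off at height `ε` -/
structure Cut (ε c : ℝ) (Θ Θ' Λ : ℝ → ℝ) : Prop where
  dΘ : ∀ r, HasDerivAt Θ (Θ' r) r
  cΘ' : Continuous Θ'
  dΛ : ∀ r, HasDerivAt Λ (Θ r) r
  zΘ : ∀ r, r ≤ ε / 2 → Θ r = 0
  oΘ : ∀ r, ε ≤ r → Θ r = 1
  nΘ : ∀ r, 0 ≤ Θ r
  lΘ : ∀ r, Θ r ≤ 1
  zΘ' : ∀ r, r < ε / 2 → Θ' r = 0
  oΘ' : ∀ r, ε < r → Θ' r = 0
  bΘ' : ∀ r, |Θ' r| ≤ c / ε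
  zΛ : ∀ r, r ≤ ε / 2 → Λ r = 0
  lΛ : ∀ r, 0 ≤ r → r - ε ≤ Λ r
  uΛ : ∀ r, 0 ≤ r → Λ r ≤ r
  nΛ : ∀ r, 0 ≤ Λ r

theorem exists_base : ∃ c : ℝ, 0 < c ∧ ∀ u : ℝ, |deriv Real.smoothTransition u| ≤ c := by
  have hc : Continuous (deriv Real.smoothTransition) :=
    (Real.smoothTransition.contDiff (n := 1)).continuous_deriv (le_refl _)
  obtain ⟨C, hC⟩ := (isCompact_Icc (a := (0 : ℝ)) (b := 1)).exists_bound_of_continuousOn
    hc.continuousOn
  refine ⟨max C 1, by positivity, fun u => ?_⟩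
  by_cases hu : u ∈ Icc (0 : ℝ) 1
  · exact (hC u hu).trans (le_max_left _ _)
  · have : deriv Real.smoothTransition u = 0 := by
      rw [mem_Icc, not_and_or, not_le, not_le] at hu
      rcases hu with hu | hu
      · have h1 : Real.smoothTransition =ᶠ[𝓝 u] fun _ => 0 := by
          filter_upwards [gt_mem_nhds hu] with v hv
          exact Real.smoothTransition.zero_of_nonpos (le_of_lt hv)
        rw [h1.deriv_eq]
        simp
      · have h1 : Real.smoothTransition =ᶠ[𝓝 u] fun _ => 1 := by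
          filter_upwards [lt_mem_nhds hu] with v hv
          exact Real.smoothTransition.one_of_one_le (le_of_lt hv)
        rw [h1.deriv_eq]
        simp
    rw [this]
    simp

theorem exists_cut : ∃ c : ℝ, 0 < c ∧ ∀ ε : ℝ, 0 < ε → ∃ Θ Θ' Λ : ℝ → ℝ, Cut ε c Θ Θ' Λ := by
  obtain ⟨c, hc0, hc⟩ := exists_base
  refine ⟨2 * c, by positivity, fun ε hε => ?_⟩
  obtain ⟨Θ, hΘ⟩ : ∃ Θ : ℝ → ℝ, Θ = fun r => Real.smoothTransition (2 * r / ε - 1) := ⟨_, rfl⟩
  have cc : Continuous (deriv Real.smoothTransition) :=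
    (Real.smoothTransition.contDiff (n := 1)).continuous_deriv (le_refl _)
  have hlin : ∀ r : ℝ, HasDerivAt (fun r : ℝ => 2 * r / ε - 1) (2 / ε) r := by
    intro r
    have := (((hasDerivAt_id r).const_mul 2).div_const ε).sub_const 1
    simpa using this
  have hst : Differentiable ℝ Real.smoothTransition :=
    (Real.smoothTransition.contDiff (n := 1)).differentiable (by norm_num)
  have hd : ∀ r, HasDerivAt Θ (deriv Real.smoothTransition (2 * r / ε - 1) * (2 / ε)) r := by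
    intro r
    rw [hΘ]
    exact (hst _).hasDerivAt.comp r (hlin r)
  have hΘc : Continuous Θ := by
    rw [hΘ]
    exact Real.smoothTransition.continuous.comp (by fun_prop)
  have hΛ : ∀ r, HasDerivAt (fun r => ∫ u in (0:ℝ)..r, Θ u) (Θ r) r := fun r =>
    intervalIntegral.integral_hasDerivAt_right (hΘc.intervalIntegrable _ _)
      (hΘc.stronglyMeasurableAtFilter _ _) hΘc.continuousAt
  have zΘ : ∀ r, r ≤ ε / 2 → Θ r = 0 := by
    intro r hr
    rw [hΘ]
    apply Real.smoothTransition.zero_of_nonpos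
    have : 2 * r / ε ≤ 1 := by rw [div_le_one hε]; linarith
    linarith
  have oΘ : ∀ r, ε ≤ r → Θ r = 1 := by
    intro r hr
    rw [hΘ]
    apply Real.smoothTransition.one_of_one_le
    have : 2 ≤ 2 * r / ε := by rw [le_div_iff₀ hε]; linarith
    linarith
  have nΘ : ∀ r, 0 ≤ Θ r := fun r => by rw [hΘ]; exact Real.smoothTransition.nonneg _
  have lΘ : ∀ r, Θ r ≤ 1 := fun r => by rw [hΘ]; exact Real.smoothTransition.le_one _
  have hint : ∀ u v : ℝ, IntervalIntegrable Θ volume u v := fun u v =>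
    hΘc.intervalIntegrable _ _
  have zΛ : ∀ r, r ≤ ε / 2 → ∫ u in (0:ℝ)..r, Θ u = 0 := by
    intro r hr
    have : EqOn Θ (fun _ => 0) (uIcc 0 r) := by
      intro u hu
      apply zΘ
      rcases le_total 0 r with h | h
      · rw [uIcc_of_le h] at hu
        linarith [hu.2]
      · rw [uIcc_of_ge h] at hu
        linarith [hu.2]
    rw [intervalIntegral.integral_congr this]
    simp
  have nΛ : ∀ r, 0 ≤ ∫ u in (0:ℝ)..r, Θ u := by
    intro r
    rcases le_total 0 r with h | h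
    · exact intervalIntegral.integral_nonneg h (fun u _ => nΘ u)
    · rw [zΛ r (by linarith)]
  refine ⟨Θ, fun r => deriv Real.smoothTransition (2 * r / ε - 1) * (2 / ε),
    fun r => ∫ u in (0:ℝ)..r, Θ u, hd, (cc.comp (by fun_prop)).mul continuous_const, hΛ, zΘ, oΘ,
    nΘ, lΘ, ?_, ?_, ?_, zΛ, ?_, ?_, nΛ⟩
  · intro r hr
    have h1 : Θ =ᶠ[𝓝 r] fun _ => 0 := by
      filter_upwards [gt_mem_nhds hr] with v hv
      exact zΘ v (le_of_lt hv)
    have := (hd r).deriv
    rw [h1.deriv_eq] at this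
    rw [← this]
    simp
  · intro r hr
    have h1 : Θ =ᶠ[𝓝 r] fun _ => 1 := by
      filter_upwards [lt_mem_nhds hr] with v hv
      exact oΘ v (le_of_lt hv)
    have := (hd r).deriv
    rw [h1.deriv_eq] at this
    rw [← this]
    simp
  · intro r
    have h2 : (0 : ℝ) ≤ 2 / ε := by positivity
    rw [abs_mul, abs_of_nonneg h2]
    have := mul_le_mul_of_nonneg_right (hc (2 * r / ε - 1)) h2
    calc _ ≤ c * (2 / ε) := this
      _ = 2 * c / ε := by ring
  · intro r hr
    rcases le_total r ε with h | h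
    · have := nΛ r
      linarith
    · have e1 : ∫ u in (0:ℝ)..r, Θ u = (∫ u in (0:ℝ)..ε, Θ u) + ∫ u in ε..r, Θ u :=
        (intervalIntegral.integral_add_adjacent_intervals (hint _ _) (hint _ _)).symm
      have e2 : ∫ u in ε..r, Θ u = ∫ u in ε..r, (1 : ℝ) := by
        apply intervalIntegral.integral_congr
        intro u hu
        rw [uIcc_of_le h] at hu
        exact oΘ u hu.1
      have e3 := nΛ ε
      rw [intervalIntegral.integral_const, smul_eq_mul, mul_one] at e2
      show r - ε ≤ ∫ u in (0:ℝ)..r, Θ u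
      linarith
  · intro r hr
    have := intervalIntegral.integral_mono_on hr (hint 0 r) (intervalIntegrable_const (c := (1 : ℝ)))
      (fun u _ => lΘ u)
    rw [intervalIntegral.integral_const, smul_eq_mul, mul_one, sub_zero] at this
    exact this

end Pool.Agent.R217.TF
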