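import Mathlib

set_option autoImplicit false

namespace Pool.Agent.R217.TF

open MeasureTheory Set Filter Topology

/-- The domain `D = {(x, t) : s(t) < x < s(t) + δ, 0 < t < T}`. -/
def Dom (s : ℝ → ℝ) (δ T : ℝ) : Set (ℝ × ℝ) :=
  {q | 0 < q.2 ∧ q.2 < T ∧ s q.2 < q.1 ∧ q.1 < s q.2 + δ}

/-- `(h, s)` is a classical solution of `h_t + (h^n h_xxx)_x = 0`, positive in `D`, with
`h = 0` on `x = s(t)`; `d k` is the `k`-th derivative of `h` in `x` (`k ≤ 4`) and `ht` the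
derivative in `t`. -/
structure Classical (n δ T : ℝ) (s : ℝ → ℝ) (h : ℝ → ℝ → ℝ) (d : ℕ → ℝ → ℝ → ℝ)
    (ht : ℝ → ℝ → ℝ) : Prop where
  s_cont : ContinuousOn s (Ioo 0 T)
  h_cont : ContinuousOn (fun q : ℝ × ℝ => h q.1 q.2) (closure (Dom s δ T))
  pos : ∀ x t, (x, t) ∈ Dom s δ T → 0 < h x t
  zero : ∀ t, 0 < t → t < T → h (s t) t = 0
  d_zero : ∀ x t, (x, t) ∈ Dom s δ T → d 0 x t = h x t
  d_succ : ∀ k, k < 4 → ∀ x t, (x, t) ∈ Dom s δ T →
    HasDerivAt (fun y => d k y t) (d (k + 1) x t) x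
  d_cont : ∀ k, k ≤ 4 → ContinuousOn (fun q : ℝ × ℝ => d k q.1 q.2) (Dom s δ T)
  ht_deriv : ∀ x t, (x, t) ∈ Dom s δ T → HasDerivAt (fun τ => h x τ) (ht x t) t
  ht_cont : ContinuousOn (fun q : ℝ × ℝ => ht q.1 q.2) (Dom s δ T)
  pde : ∀ x t, (x, t) ∈ Dom s δ T →
    HasDerivAt (fun y => h y t ^ n * d 3 y t) (-ht x t) x

/-- the region to the left of the right end -/
def Reg (s : ℝ → ℝ) (δ T : ℝ) : Set (ℝ × ℝ) :=
  {q | 0 < q.2 ∧ q.2 < T ∧ q.1 < s q.2 + δ}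

/-- the function extended by zero -/
noncomputable def Hx (s : ℝ → ℝ) (h : ℝ → ℝ → ℝ) (x t : ℝ) : ℝ := h (max x (s t)) t

section

variable {n δ T : ℝ} {s : ℝ → ℝ} {h : ℝ → ℝ → ℝ} {d : ℕ → ℝ → ℝ → ℝ} {ht : ℝ → ℝ → ℝ}

theorem contAt_s (hs : ContinuousOn s (Ioo 0 T)) {t : ℝ} (h0 : 0 < t) (h1 : t < T) :
    ContinuousAt s t := hs.continuousAt (isOpen_Ioo.mem_nhds ⟨h0, h1⟩)

theorem ev_t {t : ℝ × ℝ} (h0 : 0 < t.2) (h1 : t.2 < T) :
    ∀ᶠ q : ℝ × ℝ in 𝓝 t, 0 < q.2 ∧ q.2 < T :=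
  (continuousAt_snd.eventually (lt_mem_nhds h0)).and (continuousAt_snd.eventually (gt_mem_nhds h1))

theorem contAt_s2 (hs : ContinuousOn s (Ioo 0 T)) {q : ℝ × ℝ} (h0 : 0 < q.2) (h1 : q.2 < T) :
    ContinuousAt (fun p : ℝ × ℝ => s p.2) q :=
  (contAt_s hs h0 h1).comp_of_eq continuousAt_snd rfl

theorem isOpen_Reg (hs : ContinuousOn s (Ioo 0 T)) : IsOpen (Reg s δ T) := by
  rw [isOpen_iff_mem_nhds]
  rintro q ⟨h0, h1, h2⟩
  have hc := (contAt_s2 hs h0 h1).add_const δ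
  have := (continuousAt_fst (p := q)).eventually_lt hc h2
  filter_upwards [ev_t h0 h1, this] with p hp hp2
  exact ⟨hp.1, hp.2, hp2⟩

theorem isOpen_Dom (hs : ContinuousOn s (Ioo 0 T)) : IsOpen (Dom s δ T) := by
  rw [isOpen_iff_mem_nhds]
  rintro q ⟨h0, h1, h3, h2⟩
  have hc := (contAt_s2 hs h0 h1).add_const δ
  have := (continuousAt_fst (p := q)).eventually_lt hc h2
  have h' := (contAt_s2 hs h0 h1).eventually_lt (continuousAt_fst (p := q)) h3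
  filter_upwards [ev_t h0 h1, this, h'] with p hp hp2 hp3
  exact ⟨hp.1, hp.2, hp3, hp2⟩

theorem mem_closure_Dom (hδ : 0 < δ) {t : ℝ} (h0 : 0 < t) (h1 : t < T) :
    (s t, t) ∈ closure (Dom s δ T) := by
  have h2 : s t ∈ closure (Ioo (s t) (s t + δ)) := by
    rw [closure_Ioo (by linarith)]
    exact ⟨le_refl _, by linarith⟩
  have hc : Continuous fun y : ℝ => (y, t) := by fun_prop
  exact map_mem_closure (f := fun y : ℝ => (y, t)) hc h2 (fun y hy => ⟨h0, h1, hy.1, hy.2⟩)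

theorem Hx_cont (C : Classical n δ T s h d ht) (hδ : 0 < δ) {q : ℝ × ℝ} (hq : q ∈ Reg s δ T) :
    ContinuousAt (fun p : ℝ × ℝ => Hx s h p.1 p.2) q := by
  have hopen := isOpen_Reg (δ := δ) C.s_cont
  have h1 : ContinuousOn (fun p : ℝ × ℝ => ((max p.1 (s p.2), p.2) : ℝ × ℝ)) (Reg s δ T) := by
    intro p hp
    apply ContinuousAt.continuousWithinAt
    have a1 : ContinuousAt (fun p : ℝ × ℝ => max p.1 (s p.2)) p :=
      Filter.Tendsto.max continuousAt_fst (contAt_s2 C.s_cont hp.1 hp.2.1)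
    exact a1.prodMk continuousAt_snd
  have h2 : MapsTo (fun p : ℝ × ℝ => ((max p.1 (s p.2), p.2) : ℝ × ℝ)) (Reg s δ T)
      (closure (Dom s δ T)) := by
    rintro p ⟨a, b, c⟩
    rcases le_or_gt p.1 (s p.2) with h | h
    · simp only [max_eq_right h]
      exact mem_closure_Dom hδ a b
    · simp only [max_eq_left h.le]
      exact subset_closure ⟨a, b, h, c⟩
  exact (C.h_cont.comp h1 h2).continuousAt (hopen.mem_nhds hq)

theorem Hx_of_lt {x t : ℝ} (hx : s t < x) : Hx s h x t = h x t := by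
  simp [Hx, max_eq_left hx.le]

theorem Hx_of_le (C : Classical n δ T s h d ht) {x t : ℝ} (h0 : 0 < t) (h1 : t < T)
    (hx : x ≤ s t) : Hx s h x t = 0 := by
  simp [Hx, max_eq_right hx, C.zero t h0 h1]

/-- extension of `χ(h) w` by zero -/
noncomputable def ext (s : ℝ → ℝ) (h : ℝ → ℝ → ℝ) (χ : ℝ → ℝ) (w : ℝ → ℝ → ℝ) (x t : ℝ) : ℝ :=
  if s t < x then χ (h x t) * w x t else 0

theorem ext_cont (C : Classical n δ T s h d ht) (hδ : 0 < δ) {ε : ℝ} (hε : 0 < ε) {χ : ℝ → ℝ}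
    (hχ : Continuous χ) (hz : ∀ r, r < ε → χ r = 0) {w : ℝ → ℝ → ℝ}
    (hw : ContinuousOn (fun q : ℝ × ℝ => w q.1 q.2) (Dom s δ T)) {q : ℝ × ℝ}
    (hq : q ∈ Reg s δ T) : ContinuousAt (fun p : ℝ × ℝ => ext s h χ w p.1 p.2) q := by
  rcases le_or_gt q.1 (s q.2) with h1 | h1
  · have h2 := (Hx_cont C hδ hq)
    have h3 : Hx s h q.1 q.2 < ε := by rw [Hx_of_le C hq.1 hq.2.1 h1]; exact hε
    have h4 := h2.eventually (gt_mem_nhds h3)
    have h5 : (fun p : ℝ × ℝ => ext s h χ w p.1 p.2) =ᶠ[𝓝 q] fun _ => 0 := by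
      filter_upwards [h4] with p hp
      unfold ext
      split_ifs with h6
      · rw [Hx_of_lt h6] at hp
        rw [hz _ hp, zero_mul]
      · rfl
    exact (continuousAt_const).congr h5.symm
  · have hqD : q ∈ Dom s δ T := ⟨hq.1, hq.2.1, h1, hq.2.2⟩
    have hD := (isOpen_Dom (δ := δ) C.s_cont).mem_nhds hqD
    have hh : ContinuousAt (fun p : ℝ × ℝ => h p.1 p.2) q := by
      apply (Hx_cont C hδ hq).congr
      filter_upwards [hD] with p hp
      exact Hx_of_lt hp.2.2.1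
    have h5 : (fun p : ℝ × ℝ => χ (h p.1 p.2) * w p.1 p.2) =ᶠ[𝓝 q]
        fun p : ℝ × ℝ => ext s h χ w p.1 p.2 := by
      filter_upwards [hD] with p hp
      simp [ext, hp.2.2.1]
    exact ((hχ.continuousAt.comp hh).mul (hw.continuousAt hD)).congr h5

theorem h_cont_x (C : Classical n δ T s h d ht) (hδ : 0 < δ) {x t : ℝ}
    (hq : (x, t) ∈ Reg s δ T) : ContinuousAt (fun y => Hx s h y t) x :=
  (Hx_cont C hδ hq).comp (f := fun y : ℝ => (y, t)) (by fun_prop)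

theorem h_cont_t (C : Classical n δ T s h d ht) (hδ : 0 < δ) {x t : ℝ}
    (hq : (x, t) ∈ Reg s δ T) : ContinuousAt (fun τ => Hx s h x τ) t :=
  (Hx_cont C hδ hq).comp (f := fun τ : ℝ => (x, τ)) (by fun_prop)

/-- time derivative of `Λ(H)` -/
theorem deriv_t (C : Classical n δ T s h d ht) (hδ : 0 < δ) {ε : ℝ} (hε : 0 < ε)
    {Λ χ : ℝ → ℝ} (hΛ : ∀ r, HasDerivAt Λ (χ r) r) (hz : ∀ r, r < ε → Λ r = 0) {x t : ℝ}
    (hq : (x, t) ∈ Reg s δ T) :
    HasDerivAt (fun τ => Λ (Hx s h x τ)) (ext s h χ ht x t) t := by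
  rcases le_or_gt x (s t) with h1 | h1
  · have h3 : Hx s h x t < ε := by rw [Hx_of_le C hq.1 hq.2.1 h1]; exact hε
    have h4 := (h_cont_t C hδ hq).eventually (gt_mem_nhds h3)
    have h5 : (fun τ => Λ (Hx s h x τ)) =ᶠ[𝓝 t] fun _ => 0 := by
      filter_upwards [h4] with τ hτ
      exact hz _ hτ
    have h6 : ext s h χ ht x t = 0 := by simp [ext, not_lt.2 h1]
    rw [h6]
    exact (hasDerivAt_const t (0 : ℝ)).congr_of_eventuallyEq h5
  · have hqD : (x, t) ∈ Dom s δ T := ⟨hq.1, hq.2.1, h1, hq.2.2⟩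
    have h6 : ext s h χ ht x t = χ (h x t) * ht x t := by simp [ext, h1]
    rw [h6]
    have h7 := (hΛ (h x t)).comp t (C.ht_deriv x t hqD)
    apply h7.congr_of_eventuallyEq
    have h8 : ∀ᶠ τ in 𝓝 t, s τ < x := (contAt_s C.s_cont hq.1 hq.2.1).eventually (gt_mem_nhds h1)
    filter_upwards [h8] with τ hτ
    simp only [Function.comp]
    rw [Hx_of_lt hτ]

/-- space derivative of `χ(h) w` -/
theorem deriv_x (C : Classical n δ T s h d ht) (hδ : 0 < δ) {ε : ℝ} (hε : 0 < ε)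
    {χ χ' : ℝ → ℝ} (hχ : ∀ r, HasDerivAt χ (χ' r) r) (hz : ∀ r, r < ε → χ r = 0)
    {w w' : ℝ → ℝ → ℝ} (hw : ∀ x t, (x, t) ∈ Dom s δ T → HasDerivAt (fun y => w y t) (w' x t) x)
    {x t : ℝ} (hq : (x, t) ∈ Reg s δ T) :
    HasDerivAt (fun y => ext s h χ w y t)
      (ext s h χ' (fun y τ => d 1 y τ * w y τ) x t + ext s h χ w' x t) x := by
  rcases le_or_gt x (s t) with h1 | h1
  · have h3 : Hx s h x t < ε := by rw [Hx_of_le C hq.1 hq.2.1 h1]; exact hε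
    have h4 := (h_cont_x C hδ hq).eventually (gt_mem_nhds h3)
    have h5 : (fun y => ext s h χ w y t) =ᶠ[𝓝 x] fun _ => 0 := by
      filter_upwards [h4] with y hy
      unfold ext
      split_ifs with h6
      · rw [Hx_of_lt h6] at hy
        rw [hz _ hy, zero_mul]
      · rfl
    have h6 : ext s h χ' (fun y τ => d 1 y τ * w y τ) x t + ext s h χ w' x t = 0 := by
      simp [ext, not_lt.2 h1]
    rw [h6]
    exact (hasDerivAt_const x (0 : ℝ)).congr_of_eventuallyEq h5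
  · have hqD : (x, t) ∈ Dom s δ T := ⟨hq.1, hq.2.1, h1, hq.2.2⟩
    have hh : HasDerivAt (fun y => h y t) (d 1 x t) x := by
      apply (C.d_succ 0 (by norm_num) x t hqD).congr_of_eventuallyEq
      have h8 : ∀ᶠ y in 𝓝 x, s t < y := lt_mem_nhds h1
      have h9 : ∀ᶠ y in 𝓝 x, y < s t + δ := gt_mem_nhds hq.2.2
      filter_upwards [h8, h9] with y hy hy2
      exact (C.d_zero y t ⟨hq.1, hq.2.1, hy, hy2⟩).symm
    have h7 := ((hχ (h x t)).comp x hh).mul (hw x t hqD)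
    have h6 : ext s h χ' (fun y τ => d 1 y τ * w y τ) x t + ext s h χ w' x t
        = χ' (h x t) * d 1 x t * w x t + χ (h x t) * w' x t := by
      simp [ext, h1]
      ring
    rw [h6]
    apply h7.congr_of_eventuallyEq
    have h8 : ∀ᶠ y in 𝓝 x, s t < y := lt_mem_nhds h1
    filter_upwards [h8] with y hy
    simp [ext, hy]

end

end Pool.Agent.R217.TF
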