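import Pool.Agent.R217.TF.Defs
import Pool.Agent.R217.TF.Cut

set_option autoImplicit false

namespace Pool.Agent.R217.TF

open MeasureTheory Set Filter Topology Function

theorem swap_int {G : ℝ → ℝ → ℝ} (hG : Continuous (uncurry G)) {a b c d : ℝ} (hab : a ≤ b)
    (hcd : c ≤ d) :
    ∫ x in a..b, ∫ t in c..d, G x t = ∫ t in c..d, ∫ x in a..b, G x t := by
  simp only [intervalIntegral.integral_of_le hab, intervalIntegral.integral_of_le hcd]
  apply integral_integral_swap
  rw [Measure.prod_restrict]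
  have h1 : IntegrableOn (uncurry G) (Icc a b ×ˢ Icc c d) (volume.prod volume) :=
    (hG.continuousOn).integrableOn_compact (isCompact_Icc.prod isCompact_Icc)
  exact h1.mono_set (prod_mono Ioc_subset_Icc_self Ioc_subset_Icc_self)

/-- the clamp -/
noncomputable def clp (a b x : ℝ) : ℝ := max a (min x b)

theorem clp_cont (a b : ℝ) : Continuous (clp a b) := by unfold clp; fun_prop

theorem clp_mem {a b : ℝ} (hab : a ≤ b) (x : ℝ) : clp a b x ∈ Icc a b :=
  ⟨le_max_left _ _, max_le hab (min_le_right _ _)⟩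

theorem clp_of_mem {a b x : ℝ} (hx : x ∈ Icc a b) : clp a b x = x := by
  unfold clp
  rw [min_eq_left hx.2, max_eq_right hx.1]

theorem cl_cont {S0 S1 t1 t2 : ℝ} (hS : S0 ≤ S1) (hT : t1 ≤ t2) {A : ℝ → ℝ → ℝ}
    (hA : ∀ x ∈ Icc S0 S1, ∀ t ∈ Icc t1 t2, ContinuousAt (fun p : ℝ × ℝ => A p.1 p.2) (x, t)) :
    Continuous (fun p : ℝ × ℝ => A (clp S0 S1 p.1) (clp t1 t2 p.2)) := by
  rw [continuous_iff_continuousAt]
  intro p
  have h1 := hA _ (clp_mem hS p.1) _ (clp_mem hT p.2)
  have h2 : ContinuousAt (fun p : ℝ × ℝ => ((clp S0 S1 p.1, clp t1 t2 p.2) : ℝ × ℝ)) p := by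
    apply Continuous.continuousAt
    exact ((clp_cont _ _).comp continuous_fst).prodMk ((clp_cont _ _).comp continuous_snd)
  exact ContinuousAt.comp (f := fun p : ℝ × ℝ => ((clp S0 S1 p.1, clp t1 t2 p.2) : ℝ × ℝ))
    (g := fun p : ℝ × ℝ => A p.1 p.2) h1 h2

section

variable {n δ T : ℝ} {s : ℝ → ℝ} {h : ℝ → ℝ → ℝ} {d : ℕ → ℝ → ℝ → ℝ} {ht : ℝ → ℝ → ℝ}

/-- the flux -/
noncomputable def flx (n : ℝ) (h : ℝ → ℝ → ℝ) (d : ℕ → ℝ → ℝ → ℝ) (x t : ℝ) : ℝ :=
  h x t ^ n * d 3 x t

/-- the truncated mass -/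
noncomputable def mss (s : ℝ → ℝ) (h : ℝ → ℝ → ℝ) (Λ : ℝ → ℝ) (S0 x t : ℝ) : ℝ :=
  ∫ y in S0..x, Λ (Hx s h y t)

/-- hypotheses on the rectangle -/
structure Rect (s : ℝ → ℝ) (δ T S0 S1 t1 t2 : ℝ) : Prop where
  hS : S0 ≤ S1
  hT : t1 ≤ t2
  pos : ∀ t ∈ Icc t1 t2, 0 < t
  lt : ∀ t ∈ Icc t1 t2, t < T
  left : ∀ t ∈ Icc t1 t2, S0 < s t
  right : ∀ t ∈ Icc t1 t2, S1 < s t + δ

theorem Rect.mem {S0 S1 t1 t2 : ℝ} (R : Rect s δ T S0 S1 t1 t2) {x t : ℝ} (hx : x ∈ Icc S0 S1)
    (ht' : t ∈ Icc t1 t2) : (x, t) ∈ Reg s δ T :=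
  ⟨R.pos t ht', R.lt t ht', lt_of_le_of_lt hx.2 (R.right t ht')⟩

theorem h_contOn (C : Classical n δ T s h d ht) :
    ContinuousOn (fun q : ℝ × ℝ => h q.1 q.2) (Dom s δ T) := C.h_cont.mono subset_closure

theorem flx_cont (hn : 0 < n) (C : Classical n δ T s h d ht) :
    ContinuousOn (fun q : ℝ × ℝ => flx n h d q.1 q.2) (Dom s δ T) := by
  unfold flx
  apply ContinuousOn.mul
  · apply ContinuousOn.rpow_const (h_contOn C)
    intro q hq
    exact Or.inr hn.le
  · exact C.d_cont 3 (by norm_num)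

theorem dfl_cont (hn : 0 < n) (C : Classical n δ T s h d ht) :
    ContinuousOn (fun q : ℝ × ℝ => (fun y τ => d 1 y τ * flx n h d y τ) q.1 q.2) (Dom s δ T) :=
  (C.d_cont 1 (by norm_num)).mul (flx_cont hn C)

/-- spatial identity -/
theorem space_id (hn : 0 < n) (C : Classical n δ T s h d ht) (hδ : 0 < δ) {ε c : ℝ} (hε : 0 < ε)
    {Θ Θ' Λ : ℝ → ℝ} (K : Cut ε c Θ Θ' Λ) {S0 S1 t1 t2 : ℝ} (R : Rect s δ T S0 S1 t1 t2)
    {x t : ℝ} (hx : x ∈ Icc S0 S1) (hti : t ∈ Icc t1 t2) :
    ∫ y in S0..x, ext s h Θ ht y t = - ext s h Θ (flx n h d) x t +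
      ∫ y in S0..x, ext s h Θ' (fun y τ => d 1 y τ * flx n h d y τ) y t := by
  have hε2 : 0 < ε / 2 := by positivity
  have hsub : Icc S0 x ⊆ Icc S0 S1 := Icc_subset_Icc_right hx.2
  have hcΘ : Continuous Θ := continuous_iff_continuousAt.2 fun r => (K.dΘ r).continuousAt
  have c1 : ContinuousOn (fun y => ext s h Θ ht y t) (Icc S0 x) := by
    intro y hy
    apply ContinuousAt.continuousWithinAt
    exact (ext_cont C hδ hε2 hcΘ (fun r hr => K.zΘ r hr.le) C.ht_cont
      (R.mem (hsub hy) hti)).comp (f := fun y : ℝ => (y, t)) (by fun_prop)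
  have c2 : ContinuousOn (fun y => ext s h Θ' (fun y τ => d 1 y τ * flx n h d y τ) y t)
      (Icc S0 x) := by
    intro y hy
    apply ContinuousAt.continuousWithinAt
    exact (ext_cont (w := fun y τ => d 1 y τ * flx n h d y τ) C hδ hε2 K.cΘ' K.zΘ' (dfl_cont hn C)
      (R.mem (hsub hy) hti)).comp (f := fun y : ℝ => (y, t)) (by fun_prop)
  have hui : uIcc S0 x = Icc S0 x := uIcc_of_le hx.1
  have i1 : IntervalIntegrable (fun y => ext s h Θ ht y t) volume S0 x := by
    apply ContinuousOn.intervalIntegrable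
    rwa [hui]
  have i2 : IntervalIntegrable (fun y => ext s h Θ' (fun y τ => d 1 y τ * flx n h d y τ) y t)
      volume S0 x := by
    apply ContinuousOn.intervalIntegrable
    rwa [hui]
  have hder : ∀ y ∈ uIcc S0 x, HasDerivAt (fun y => ext s h Θ (flx n h d) y t)
      (ext s h Θ' (fun y τ => d 1 y τ * flx n h d y τ) y t - ext s h Θ ht y t) y := by
    intro y hy
    rw [hui] at hy
    have := deriv_x C hδ hε2 K.dΘ (fun r hr => K.zΘ r hr.le) (w := flx n h d)
      (w' := fun x t => - ht x t) C.pde (R.mem (hsub hy) hti)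
    refine this.congr_deriv ?_
    unfold ext
    split_ifs <;> ring
  have e := intervalIntegral.integral_eq_sub_of_hasDerivAt hder (i2.sub i1)
  rw [intervalIntegral.integral_sub i2 i1] at e
  have e0 : ext s h Θ (flx n h d) S0 t = 0 := by
    unfold ext
    rw [if_neg (not_lt.2 (R.left t hti).le)]
  rw [e0] at e
  linarith

theorem mss_nonneg {ε c : ℝ} {Θ Θ' Λ : ℝ → ℝ} (K : Cut ε c Θ Θ' Λ) {S0 x t : ℝ} (hx : S0 ≤ x) :
    0 ≤ mss s h Λ S0 x t :=
  intervalIntegral.integral_nonneg hx (fun _ _ => K.nΛ _)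

/-- the evolution of the logarithmic functional -/
theorem evo (hn : 0 < n) (C : Classical n δ T s h d ht) (hδ : 0 < δ) {ε c a : ℝ} (hε : 0 < ε)
    (ha : 0 < a) {Θ Θ' Λ : ℝ → ℝ} (K : Cut ε c Θ Θ' Λ) {S0 S1 t1 t2 : ℝ}
    (R : Rect s δ T S0 S1 t1 t2) {B : ℝ → ℝ} (hB : IntervalIntegrable B volume t1 t2)
    (hb : ∀ᵐ t, t ∈ Icc t1 t2 → ∫ x in S0..S1, (|ext s h Θ (flx n h d) x t| +
      ∫ y in S0..S1, |ext s h Θ' (fun y τ => d 1 y τ * flx n h d y τ) y t|) /
        (mss s h Λ S0 x t + a) ≤ B t) :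
    |(∫ x in S0..S1, Real.log (mss s h Λ S0 x t2 + a)) -
      ∫ x in S0..S1, Real.log (mss s h Λ S0 x t1 + a)| ≤ ∫ t in t1..t2, B t := by
  have hε2 : 0 < ε / 2 := by positivity
  have hcΘ : Continuous Θ := continuous_iff_continuousAt.2 fun r => (K.dΘ r).continuousAt
  have hcΛ : Continuous Λ := continuous_iff_continuousAt.2 fun r => (K.dΛ r).continuousAt
  -- continuity of the four fields
  have A0 : ∀ x ∈ Icc S0 S1, ∀ t ∈ Icc t1 t2,
      ContinuousAt (fun p : ℝ × ℝ => Λ (Hx s h p.1 p.2)) (x, t) := fun x hx t hti =>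
    hcΛ.continuousAt.comp (Hx_cont C hδ (R.mem hx hti))
  have A1 : ∀ x ∈ Icc S0 S1, ∀ t ∈ Icc t1 t2,
      ContinuousAt (fun p : ℝ × ℝ => ext s h Θ ht p.1 p.2) (x, t) := fun x hx t hti =>
    ext_cont C hδ hε2 hcΘ (fun r hr => K.zΘ r hr.le) C.ht_cont (R.mem hx hti)
  have A2 : ∀ x ∈ Icc S0 S1, ∀ t ∈ Icc t1 t2,
      ContinuousAt (fun p : ℝ × ℝ => ext s h Θ (flx n h d) p.1 p.2) (x, t) := fun x hx t hti =>
    ext_cont C hδ hε2 hcΘ (fun r hr => K.zΘ r hr.le) (flx_cont hn C) (R.mem hx hti)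
  have A3 : ∀ x ∈ Icc S0 S1, ∀ t ∈ Icc t1 t2,
      ContinuousAt (fun p : ℝ × ℝ => ext s h Θ' (fun y τ => d 1 y τ * flx n h d y τ) p.1 p.2)
        (x, t) := fun x hx t hti =>
    ext_cont (w := fun y τ => d 1 y τ * flx n h d y τ) C hδ hε2 K.cΘ' K.zΘ' (dfl_cont hn C) (R.mem hx hti)
  have B0 := cl_cont (A := fun x t => Λ (Hx s h x t)) R.hS R.hT A0
  have B1 := cl_cont (A := fun x t => ext s h Θ ht x t) R.hS R.hT A1
  have B2 := cl_cont (A := fun x t => ext s h Θ (flx n h d) x t) R.hS R.hT A2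
  have B3 := cl_cont (A := fun x t => ext s h Θ' (fun y τ => d 1 y τ * flx n h d y τ) x t)
    R.hS R.hT A3
  obtain ⟨cx, hcx⟩ : ∃ cx, cx = clp S0 S1 := ⟨_, rfl⟩
  obtain ⟨ct, hct⟩ : ∃ ct, ct = clp t1 t2 := ⟨_, rfl⟩
  rw [← hcx, ← hct] at B0 B1 B2 B3
  have hctm : ∀ t, ct t ∈ Icc t1 t2 := fun t => by rw [hct]; exact clp_mem R.hT t
  have hctc : Continuous ct := by rw [hct]; exact clp_cont _ _
  -- clamped mass
  obtain ⟨mc, hmc⟩ : ∃ mc : ℝ → ℝ → ℝ, mc = fun x t => ∫ y in S0..x, Λ (Hx s h (cx y) (ct t)) :=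
    ⟨_, rfl⟩
  have hmcc : Continuous (uncurry mc) := by
    rw [hmc]
    have : Continuous (uncurry fun (p : ℝ × ℝ) (y : ℝ) => Λ (Hx s h (cx y) (ct p.2))) := by
      exact B0.comp (f := fun p : (ℝ × ℝ) × ℝ => ((p.2, p.1.2) : ℝ × ℝ)) (by fun_prop)
    exact intervalIntegral.continuous_parametric_intervalIntegral_of_continuous this continuous_fst
  have hmce : ∀ x ∈ Icc S0 S1, ∀ t, mc x t = mss s h Λ S0 x (ct t) := by
    intro x hx t
    rw [hmc]
    unfold mss
    apply intervalIntegral.integral_congr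
    intro y hy
    rw [uIcc_of_le hx.1] at hy
    simp only [hcx, clp_of_mem (⟨hy.1, hy.2.trans hx.2⟩ : y ∈ Icc S0 S1)]
  have hmc0 : ∀ x ∈ Icc S0 S1, ∀ t, 0 ≤ mc x t := fun x hx t => by
    rw [hmce x hx]
    exact mss_nonneg K hx.1
  obtain ⟨qc, hqc⟩ : ∃ qc : ℝ → ℝ → ℝ, qc = fun x t => - ext s h Θ (flx n h d) (cx x) (ct t) +
      ∫ y in S0..x, ext s h Θ' (fun y τ => d 1 y τ * flx n h d y τ) (cx y) (ct t) := ⟨_, rfl⟩
  have hqcc : Continuous (uncurry qc) := by
    rw [hqc]
    have : Continuous (uncurry fun (p : ℝ × ℝ) (y : ℝ) =>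
        ext s h Θ' (fun y τ => d 1 y τ * flx n h d y τ) (cx y) (ct p.2)) := by
      exact B3.comp (f := fun p : (ℝ × ℝ) × ℝ => ((p.2, p.1.2) : ℝ × ℝ)) (by fun_prop)
    have h2 := intervalIntegral.continuous_parametric_intervalIntegral_of_continuous (a₀ := S0)
      (μ := volume) this continuous_fst
    exact B2.neg.add h2
  have hqce : ∀ x ∈ Icc S0 S1, ∀ t, qc x t = ∫ y in S0..x, ext s h Θ ht y (ct t) := by
    intro x hx t
    rw [space_id hn C hδ hε K R hx (hctm t), hqc]
    show - ext s h Θ (flx n h d) (cx x) (ct t) + _ = _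
    rw [hcx, clp_of_mem hx]
    congr 1
    apply intervalIntegral.integral_congr
    intro y hy
    rw [uIcc_of_le hx.1] at hy
    simp only [clp_of_mem (⟨hy.1, hy.2.trans hx.2⟩ : y ∈ Icc S0 S1)]
  -- a bound for the time derivative
  obtain ⟨M, hM⟩ : ∃ M, ∀ x ∈ Icc S0 S1, ∀ t ∈ Icc t1 t2, |ext s h Θ ht x t| ≤ M := by
    have hk := (isCompact_Icc (a := S0) (b := S1)).prod (isCompact_Icc (a := t1) (b := t2))
    obtain ⟨M, hM⟩ := hk.exists_bound_of_continuousOn
      (f := fun p : ℝ × ℝ => ext s h Θ ht p.1 p.2)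
      (fun p hp => (A1 p.1 hp.1 p.2 hp.2).continuousWithinAt)
    exact ⟨M, fun x hx t hti => hM (x, t) ⟨hx, hti⟩⟩
  -- time derivative of the mass
  have hmd : ∀ x ∈ Icc S0 S1, ∀ t ∈ Ioo t1 t2, HasDerivAt (mc x) (qc x t) t := by
    intro x hx t hti
    have hsub : Icc S0 x ⊆ Icc S0 S1 := Icc_subset_Icc_right hx.2
    have hctt : ct t = t := by rw [hct]; exact clp_of_mem ⟨hti.1.le, hti.2.le⟩
    rw [hqce x hx, hctt]
    have hnb : Ioo t1 t2 ∈ 𝓝 t := isOpen_Ioo.mem_nhds hti
    have key := (intervalIntegral.hasDerivAt_integral_of_dominated_loc_of_deriv_le (𝕜 := ℝ)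
      (μ := volume) (a := S0) (b := x) (F := fun τ y => Λ (Hx s h y τ))
      (F' := fun τ y => ext s h Θ ht y τ) (x₀ := t) (s := Ioo t1 t2) (bound := fun _ => M)
      hnb ?_ ?_ ?_ ?_ (intervalIntegrable_const) ?_).2
    · apply key.congr_of_eventuallyEq
      filter_upwards [hnb] with τ hτ
      rw [hmce x hx]
      have : ct τ = τ := by rw [hct]; exact clp_of_mem ⟨hτ.1.le, hτ.2.le⟩
      rw [this]
      rfl
    · filter_upwards [hnb] with τ hτ
      have : ContinuousOn (fun y => Λ (Hx s h y τ)) (Icc S0 x) := by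
        intro y hy
        exact ((A0 y (hsub hy) τ ⟨hτ.1.le, hτ.2.le⟩).comp (f := fun y : ℝ => (y, τ))
          (by fun_prop)).continuousWithinAt
      rw [uIoc_of_le hx.1]
      exact (this.mono Ioc_subset_Icc_self).aestronglyMeasurable measurableSet_Ioc
    · apply ContinuousOn.intervalIntegrable
      rw [uIcc_of_le hx.1]
      intro y hy
      exact ((A0 y (hsub hy) t ⟨hti.1.le, hti.2.le⟩).comp (f := fun y : ℝ => (y, t))
          (by fun_prop)).continuousWithinAt
    · have : ContinuousOn (fun y => ext s h Θ ht y t) (Icc S0 x) := by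
        intro y hy
        exact ((A1 y (hsub hy) t ⟨hti.1.le, hti.2.le⟩).comp (f := fun y : ℝ => (y, t))
          (by fun_prop)).continuousWithinAt
      rw [uIoc_of_le hx.1]
      exact (this.mono Ioc_subset_Icc_self).aestronglyMeasurable measurableSet_Ioc
    · refine Eventually.of_forall fun y hy τ hτ => ?_
      rw [uIoc_of_le hx.1] at hy
      exact hM y (hsub ⟨hy.1.le, hy.2⟩) τ ⟨hτ.1.le, hτ.2.le⟩
    · refine Eventually.of_forall fun y hy τ hτ => ?_
      rw [uIoc_of_le hx.1] at hy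
      exact deriv_t C hδ hε2 K.dΛ (fun r hr => K.zΛ r hr.le)
        (R.mem (hsub ⟨hy.1.le, hy.2⟩) ⟨hτ.1.le, hτ.2.le⟩)
  -- the quotient, made globally continuous
  have hdenc : Continuous (uncurry fun x t => mc (cx x) t + a) := by
    have hcxc : Continuous cx := by rw [hcx]; exact clp_cont _ _
    exact (hmcc.comp (f := fun p : ℝ × ℝ => ((cx p.1, p.2) : ℝ × ℝ)) (by fun_prop)).add
      continuous_const
  have hcxm : ∀ x, cx x ∈ Icc S0 S1 := fun x => by rw [hcx]; exact clp_mem R.hS x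
  have hdenp : ∀ x t, 0 < mc (cx x) t + a := fun x t => by
    have := hmc0 (cx x) (hcxm x) t
    linarith
  have hGc : Continuous (uncurry fun x t => qc x t / (mc (cx x) t + a)) :=
    hqcc.div hdenc (fun p => (hdenp p.1 p.2).ne')
  have hlog : ∀ x ∈ Icc S0 S1, Real.log (mss s h Λ S0 x t2 + a) - Real.log (mss s h Λ S0 x t1 + a)
      = ∫ t in t1..t2, qc x t / (mc (cx x) t + a) := by
    intro x hx
    have hcxx : cx x = x := by rw [hcx]; exact clp_of_mem hx
    have e1 : ∀ t ∈ Icc t1 t2, mc x t = mss s h Λ S0 x t := fun t hti => by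
      rw [hmce x hx, hct, clp_of_mem hti]
    rw [← e1 t2 ⟨R.hT, le_refl _⟩, ← e1 t1 ⟨le_refl _, R.hT⟩]
    have hmx : Continuous (mc x) := hmcc.comp (f := fun t : ℝ => ((x, t) : ℝ × ℝ)) (by fun_prop)
    have hpos : ∀ t, 0 < mc x t + a := fun t => by
      have := hmc0 x hx t
      linarith
    symm
    rw [intervalIntegral.integral_eq_sub_of_hasDerivAt_of_le (f := fun t => Real.log (mc x t + a))
      R.hT]
    · exact (Continuous.log (hmx.add continuous_const) (fun t => (hpos t).ne')).continuousOn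
    · intro t hti
      rw [hcxx]
      exact ((hmd x hx t hti).add_const a).log (hpos t).ne'
    · apply Continuous.intervalIntegrable
      exact hGc.comp (f := fun t : ℝ => ((x, t) : ℝ × ℝ)) (by fun_prop)
  have hlogi : ∀ t ∈ Icc t1 t2, IntervalIntegrable (fun x => Real.log (mss s h Λ S0 x t + a))
      volume S0 S1 := by
    intro t hti
    have e1 : ∀ x ∈ Icc S0 S1, mc x t = mss s h Λ S0 x t := fun x hx => by
      rw [hmce x hx, hct, clp_of_mem hti]
    have c1 : ContinuousOn (fun x => Real.log (mss s h Λ S0 x t + a)) (Icc S0 S1) := by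
      have c2 : ContinuousOn (fun x => Real.log (mc x t + a)) (Icc S0 S1) := by
        apply ContinuousOn.log
        · exact ((hmcc.comp (f := fun x : ℝ => ((x, t) : ℝ × ℝ)) (by fun_prop)).add
            continuous_const).continuousOn
        · intro x hx
          have := hmc0 x hx t
          positivity
      exact c2.congr (fun x hx => by simp only [e1 x hx])
    apply ContinuousOn.intervalIntegrable
    rwa [uIcc_of_le R.hS]
  rw [← intervalIntegral.integral_sub (hlogi t2 ⟨R.hT, le_refl _⟩) (hlogi t1 ⟨le_refl _, R.hT⟩)]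
  have e2 : ∫ x in S0..S1, (Real.log (mss s h Λ S0 x t2 + a) - Real.log (mss s h Λ S0 x t1 + a)) =
      ∫ x in S0..S1, ∫ t in t1..t2, qc x t / (mc (cx x) t + a) := by
    apply intervalIntegral.integral_congr
    intro x hx
    rw [uIcc_of_le R.hS] at hx
    exact hlog x hx
  rw [e2, swap_int hGc R.hS R.hT]
  refine (intervalIntegral.abs_integral_le_integral_abs R.hT).trans ?_
  have hIc : Continuous fun t => ∫ x in S0..S1, qc x t / (mc (cx x) t + a) := by
    apply intervalIntegral.continuous_parametric_intervalIntegral_of_continuous'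
    exact hGc.comp (f := fun p : ℝ × ℝ => ((p.2, p.1) : ℝ × ℝ)) (by fun_prop)
  have hle := intervalIntegral.integral_mono_ae_restrict R.hT
    (f := fun t => |∫ x in S0..S1, qc x t / (mc (cx x) t + a)|) (g := B)
    (hIc.abs.intervalIntegrable _ _) hB ?_
  · exact hle
  · have hb' := (ae_restrict_iff' (μ := volume) (measurableSet_Icc (a := t1) (b := t2))).2 hb
    filter_upwards [hb', ae_restrict_mem measurableSet_Icc] with t h1 hti
    have hctt : ct t = t := by rw [hct]; exact clp_of_mem hti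
    refine le_trans ?_ h1
    refine (intervalIntegral.abs_integral_le_integral_abs R.hS).trans ?_
    have c3 : ContinuousOn (fun y => ext s h Θ' (fun y τ => d 1 y τ * flx n h d y τ) y t)
        (Icc S0 S1) := by
      intro y hy
      exact ((A3 y hy t hti).comp (f := fun y : ℝ => (y, t)) (by fun_prop)).continuousWithinAt
    have c2 : ContinuousOn (fun y => ext s h Θ (flx n h d) y t) (Icc S0 S1) := by
      intro y hy
      exact ((A2 y hy t hti).comp (f := fun y : ℝ => (y, t)) (by fun_prop)).continuousWithinAt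
    have cm : ContinuousOn (fun x => mss s h Λ S0 x t + a) (Icc S0 S1) := by
      have c4 : ContinuousOn (fun x => mc x t + a) (Icc S0 S1) :=
        ((hmcc.comp (f := fun x : ℝ => ((x, t) : ℝ × ℝ)) (by fun_prop)).add
            continuous_const).continuousOn
      exact c4.congr (fun x hx => by simp only [hmce x hx, hctt])
    apply intervalIntegral.integral_mono_on R.hS
    · apply Continuous.intervalIntegrable
      exact (hGc.comp (f := fun x : ℝ => ((x, t) : ℝ × ℝ)) (by fun_prop)).abs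
    · apply ContinuousOn.intervalIntegrable
      rw [uIcc_of_le R.hS]
      apply ContinuousOn.div (c2.abs.add continuousOn_const) cm
      intro x hx
      have : 0 ≤ mss s h Λ S0 x t := mss_nonneg K hx.1
      positivity
    · intro x hx
      have hcxx : cx x = x := by rw [hcx]; exact clp_of_mem hx
      have hm0 : 0 ≤ mss s h Λ S0 x t := mss_nonneg K hx.1
      rw [hcxx, hmce x hx, hctt, abs_div, abs_of_pos (by positivity : 0 < mss s h Λ S0 x t + a)]
      apply div_le_div_of_nonneg_right _ (by positivity)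
      have hsub : Icc S0 x ⊆ Icc S0 S1 := Icc_subset_Icc_right hx.2
      rw [hqc]
      show |- ext s h Θ (flx n h d) (cx x) (ct t) + _| ≤ _
      rw [hcxx, hctt]
      refine (abs_add_le _ _).trans ?_
      rw [abs_neg]
      apply add_le_add_right
      have e5 : ∫ y in S0..x, ext s h Θ' (fun y τ => d 1 y τ * flx n h d y τ) (cx y) t =
          ∫ y in S0..x, ext s h Θ' (fun y τ => d 1 y τ * flx n h d y τ) y t := by
        apply intervalIntegral.integral_congr
        intro y hy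
        rw [uIcc_of_le hx.1] at hy
        simp only [hcx, clp_of_mem (hsub hy)]
      rw [e5]
      refine (intervalIntegral.abs_integral_le_integral_abs hx.1).trans ?_
      apply intervalIntegral.integral_mono_interval (le_refl _) hx.1 hx.2
      · exact Eventually.of_forall fun y => abs_nonneg _
      · apply ContinuousOn.intervalIntegrable
        rw [uIcc_of_le R.hS]
        exact c3.abs

end

end Pool.Agent.R217.TF
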