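import Mathlib

set_option autoImplicit false

namespace Pool.Agent.R217.TF

open MeasureTheory Set Filter Topology

theorem slope_core {n M D Cq : ℝ} {g g1 g2 g3 : ℝ → ℝ} {y R : ℝ} (hn : 3 ≤ n) (hR : 0 < R)
    (h0 : ∀ r ∈ Icc y (y + R), HasDerivAt g (g1 r) r)
    (h1 : ∀ r ∈ Icc y (y + R), HasDerivAt g1 (g2 r) r)
    (h2 : ∀ r ∈ Icc y (y + R), HasDerivAt g2 (g3 r) r)
    (h3 : ContinuousOn g3 (Icc y (y + R)))
    (hpos : ∀ r ∈ Icc y (y + R), 0 < g r) (hM : ∀ r ∈ Icc y (y + R), g r ≤ M)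
    (hCq : 1 ≤ Cq) (hq : ∀ r ∈ Icc y (y + R), ∀ r' ∈ Icc y (y + R), r ≤ r' → g r ≤ Cq * g r')
    (hD0 : 0 < D) (hD : ∫ r in y..(y + R), g r ^ n * g3 r ^ 2 ≤ D)
    (hS : 24 * Cq * M / R < |g1 y|) :
    |g1 y| ^ 5 ≤ 8 * (24 * Cq) ^ 3 * D * (g y / Cq) ^ (3 - n) * Real.log (1 + Cq * M / g y) := by
  obtain ⟨S, hSd⟩ : ∃ S, S = |g1 y| := ⟨_, rfl⟩
  obtain ⟨κ, hκ⟩ : ∃ κ, κ = 1 / (24 * Cq) := ⟨_, rfl⟩
  have hCq0 : 0 < Cq := by linarith
  have hκ0 : 0 < κ := by rw [hκ]; positivity
  have hyI : y ∈ Icc y (y + R) := ⟨le_refl _, by linarith⟩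
  have hyR : y + R ∈ Icc y (y + R) := ⟨by linarith, le_refl _⟩
  have hH : 0 < g y := hpos y hyI
  have hM0 : 0 < M := lt_of_lt_of_le hH (hM y hyI)
  rw [← hSd] at hS ⊢
  have hS0 : 0 < S := lt_of_le_of_lt (by positivity) hS
  have hκS : M < κ * S * R := by
    rw [hκ]
    rw [div_lt_iff₀ hR] at hS
    have : 1 / (24 * Cq) * S * R = (S * R) / (24 * Cq) := by ring
    rw [this, lt_div_iff₀ (by positivity)]
    linarith
  -- continuity
  have cg : ContinuousOn g (Icc y (y + R)) := fun r hr => (h0 r hr).continuousAt.continuousWithinAt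
  have cg1 : ContinuousOn g1 (Icc y (y + R)) := fun r hr =>
    (h1 r hr).continuousAt.continuousWithinAt
  have cg2 : ContinuousOn g2 (Icc y (y + R)) := fun r hr =>
    (h2 r hr).continuousAt.continuousWithinAt
  -- first crossing
  have hAc : ContinuousOn (fun r => g r - κ * S * (r - y)) (Icc y (y + R)) := by fun_prop
  have hZc : IsCompact (Icc y (y + R) ∩ (fun r => g r - κ * S * (r - y)) ⁻¹' Iic 0) :=
    isCompact_Icc.of_isClosed_subset (hAc.preimage_isClosed_of_isClosed isClosed_Icc isClosed_Iic)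
      inter_subset_left
  have hZn : (Icc y (y + R) ∩ (fun r => g r - κ * S * (r - y)) ⁻¹' Iic 0).Nonempty := by
    refine ⟨y + R, hyR, ?_⟩
    show g (y + R) - κ * S * (y + R - y) ≤ 0
    have := hM _ hyR
    have e : y + R - y = R := by ring
    rw [e]
    linarith
  obtain ⟨z, hz, hzl⟩ := hZc.exists_isLeast hZn
  have hzI := hz.1
  have hz0 : g z - κ * S * (z - y) ≤ 0 := hz.2
  have hyz : y < z := by
    rcases hzI.1.eq_or_lt with h | h
    · exfalso
      rw [← h] at hz0
      simp only [sub_self, mul_zero, sub_zero] at hz0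
      linarith
    · exact h
  have hsub : Icc y z ⊆ Icc y (y + R) := Icc_subset_Icc_right hzI.2
  have hlow : ∀ r ∈ Icc y z, κ * S * (r - y) ≤ g r := by
    intro r hr
    rcases hr.2.eq_or_lt with h | h
    · -- equality at z
      have hiv := intermediate_value_Icc' hyz.le (hAc.mono hsub)
      have hmem : (0 : ℝ) ∈ Icc (g z - κ * S * (z - y)) (g y - κ * S * (y - y)) := by
        constructor
        · exact hz0
        · simp [hH.le]
      obtain ⟨c, hc, hc0⟩ := hiv hmem
      have hcz : z ≤ c := hzl ⟨hsub hc, by show g c - κ * S * (c - y) ≤ 0; exact hc0.le⟩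
      have : c = z := le_antisymm hc.2 hcz
      rw [this] at hc0
      rw [h]
      have hc1 : g z - κ * S * (z - y) = 0 := hc0
      linarith
    · by_contra hcon
      push Not at hcon
      have : z ≤ r := hzl ⟨hsub hr, by show g r - κ * S * (r - y) ≤ 0; linarith⟩
      linarith
  have hzz : g z = κ * S * (z - y) := le_antisymm (by linarith) (hlow z ⟨hyz.le, le_refl _⟩)
  obtain ⟨ℓ, hℓ⟩ : ∃ ℓ, ℓ = z - y := ⟨_, rfl⟩
  have hℓ0 : 0 < ℓ := by rw [hℓ]; linarith
  rw [← hℓ] at hzz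
  have hzM : z ∈ Icc y z := ⟨hyz.le, le_refl _⟩
  -- the identity
  have hui : uIcc y z = Icc y z := uIcc_of_le hyz.le
  have hF : ∀ r ∈ uIcc y z, HasDerivAt (fun r => g2 r * ((r - y) * (z - r) ^ 2) -
      g1 r * ((z - r) ^ 2 - 2 * (r - y) * (z - r)) + g r * (-4 * (z - r) + 2 * (r - y)))
      (g3 r * ((r - y) * (z - r) ^ 2) + 6 * g r) r := by
    intro r hr
    rw [hui] at hr
    have a0 := h0 r (hsub hr)
    have a1 := h1 r (hsub hr)
    have a2 := h2 r (hsub hr)
    have b1 : HasDerivAt (fun r => r - y) 1 r := (hasDerivAt_id r).sub_const y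
    have b2 : HasDerivAt (fun r => z - r) (-1) r := (hasDerivAt_id r).const_sub z
    have b3 := b2.pow 2
    have c1 := a2.mul (b1.mul b3)
    have c2 := a1.mul (b3.sub ((b1.const_mul 2).mul b2))
    have c3 := a0.mul ((b2.const_mul (-4)).add (b1.const_mul 2))
    have c4 := (c1.sub c2).add c3
    refine c4.congr_deriv ?_
    have e21 : (2 - 1 : ℕ) = 1 := rfl
    simp only [Pi.mul_apply, Pi.pow_apply, Pi.sub_apply, Pi.add_apply, Nat.cast_ofNat, e21,
      pow_one]
    ring
  have cz : ContinuousOn g (Icc y z) := cg.mono hsub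
  have cz3 : ContinuousOn g3 (Icc y z) := h3.mono hsub
  have hi1 : IntervalIntegrable (fun r => g3 r * ((r - y) * (z - r) ^ 2)) volume y z := by
    apply ContinuousOn.intervalIntegrable
    rw [hui]
    fun_prop
  have hi2 : IntervalIntegrable (fun r => 6 * g r) volume y z := by
    apply ContinuousOn.intervalIntegrable
    rw [hui]
    fun_prop
  have hi2' : IntervalIntegrable g volume y z := by
    apply ContinuousOn.intervalIntegrable
    rw [hui]
    exact cz
  have hid := intervalIntegral.integral_eq_sub_of_hasDerivAt hF (hi1.add hi2)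
  rw [intervalIntegral.integral_add hi1 hi2, intervalIntegral.integral_const_mul] at hid
  have hid2 : (∫ r in y..z, g3 r * ((r - y) * (z - r) ^ 2)) = 2 * ℓ * g z + g1 y * ℓ ^ 2 +
      4 * ℓ * g y - 6 * ∫ r in y..z, g r := by
    rw [hℓ]
    linarith [hid]
  -- upper bound for the integral of g
  have hgint0 : 0 ≤ ∫ r in y..z, g r :=
    intervalIntegral.integral_nonneg hyz.le (fun r hr => (hpos r (hsub hr)).le)
  have hgint : ∫ r in y..z, g r ≤ ℓ * (Cq * g z) := by
    have := intervalIntegral.integral_mono_on hyz.le hi2' (intervalIntegrable_const (c := Cq * g z))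
      (fun r hr => hq r (hsub hr) z (hsub hzM) hr.2)
    rw [intervalIntegral.integral_const, smul_eq_mul, ← hℓ] at this
    exact this
  have hgy : g y ≤ Cq * g z := hq y hyI z (hsub hzM) hyz.le
  have hgz : 0 < g z := hpos z (hsub hzM)
  have hbig : S * ℓ ^ 2 / 2 ≤ |∫ r in y..z, g3 r * ((r - y) * (z - r) ^ 2)| := by
    have e1 : |g1 y * ℓ ^ 2| = S * ℓ ^ 2 := by
      rw [abs_mul, ← hSd, abs_of_nonneg (by positivity : (0 : ℝ) ≤ ℓ ^ 2)]
    have e2 : |2 * ℓ * g z + 4 * ℓ * g y - 6 * ∫ r in y..z, g r| ≤ S * ℓ ^ 2 / 2 := by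
      have k1 : 2 * ℓ * g z + 4 * ℓ * g y + 6 * (ℓ * (Cq * g z)) ≤ S * ℓ ^ 2 / 2 := by
        have k2 : 4 * ℓ * g y ≤ 4 * ℓ * (Cq * g z) := by
          apply mul_le_mul_of_nonneg_left hgy (by positivity)
        have k3 : 2 * ℓ * g z ≤ 2 * ℓ * (Cq * g z) := by
          apply mul_le_mul_of_nonneg_left _ (by positivity)
          nlinarith
        have k4 : 12 * (ℓ * (Cq * g z)) = S * ℓ ^ 2 / 2 := by
          rw [hzz, hκ]
          field_simp
          ring
        linarith
      have k5 : 0 ≤ 2 * ℓ * g z := by positivity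
      have k6 : 0 ≤ 4 * ℓ * g y := by positivity
      rw [abs_le]
      constructor
      · linarith
      · linarith
    have e3 : g1 y * ℓ ^ 2 = (∫ r in y..z, g3 r * ((r - y) * (z - r) ^ 2)) -
        (2 * ℓ * g z + 4 * ℓ * g y - 6 * ∫ r in y..z, g r) := by rw [hid2]; ring
    have e4 := abs_sub (∫ r in y..z, g3 r * ((r - y) * (z - r) ^ 2))
        (2 * ℓ * g z + 4 * ℓ * g y - 6 * ∫ r in y..z, g r)
    rw [← e3, e1] at e4
    linarith
  -- weights
  obtain ⟨b, hb⟩ : ∃ b, b = g y / Cq := ⟨_, rfl⟩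
  have hb0 : 0 < b := by rw [hb]; positivity
  have hlow2 : ∀ r ∈ Icc y z, b ≤ g r := by
    intro r hr
    rw [hb, div_le_iff₀ hCq0]
    have := hq y hyI r (hsub hr) hr.1
    linarith
  obtain ⟨μ, hμ⟩ : ∃ μ, μ = S / (2 * D) := ⟨_, rfl⟩
  have hμ0 : 0 < μ := by rw [hμ]; positivity
  have hcp : ContinuousOn (fun r => g r ^ n) (Icc y (y + R)) := by
    apply ContinuousOn.rpow_const cg
    intro r hr
    exact Or.inl (hpos r hr).ne'
  have hi3 : IntervalIntegrable (fun r => g r ^ n * g3 r ^ 2) volume y z := by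
    apply ContinuousOn.intervalIntegrable
    rw [hui]
    exact (hcp.mono hsub).mul (cz3.pow 2)
  have hi4 : IntervalIntegrable (fun r => g r ^ n * g3 r ^ 2) volume y (y + R) := by
    apply ContinuousOn.intervalIntegrable
    rw [uIcc_of_le (by linarith)]
    exact hcp.mul (h3.pow 2)
  have hDz : ∫ r in y..z, g r ^ n * g3 r ^ 2 ≤ D := by
    refine le_trans ?_ hD
    apply intervalIntegral.integral_mono_interval (le_refl _) hyz.le hzI.2 _ hi4
    refine (ae_restrict_iff' measurableSet_Ioc).2 (Eventually.of_forall fun r hr => ?_)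
    have := hpos r ⟨hr.1.le, hr.2⟩
    show 0 ≤ g r ^ n * g3 r ^ 2
    positivity
  have hcden : ContinuousOn (fun r => 2 / (b + κ * S * (r - y))) (Icc y z) := by
    apply ContinuousOn.div continuousOn_const (by fun_prop)
    intro r hr
    have : 0 ≤ κ * S * (r - y) := mul_nonneg (by positivity) (by linarith [hr.1])
    positivity
  have hi5 : IntervalIntegrable (fun r => 2 / (b + κ * S * (r - y))) volume y z := by
    apply ContinuousOn.intervalIntegrable
    rw [hui]
    exact hcden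
  have hlog : ∫ r in y..z, 2 / (b + κ * S * (r - y)) ≤
      2 / (κ * S) * Real.log (1 + Cq * M / g y) := by
    have hder : ∀ r ∈ uIcc y z, HasDerivAt (fun r => 2 / (κ * S) * Real.log (b + κ * S * (r - y)))
        (2 / (b + κ * S * (r - y))) r := by
      intro r hr
      rw [hui] at hr
      have hp : 0 ≤ κ * S * (r - y) := mul_nonneg (by positivity) (by linarith [hr.1])
      have hp2 : b + κ * S * (r - y) ≠ 0 := by positivity
      have b1 : HasDerivAt (fun r => b + κ * S * (r - y)) (κ * S) r := by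
        have := (((hasDerivAt_id r).sub_const y).const_mul (κ * S)).const_add b
        simpa using this
      have := (b1.log hp2).const_mul (2 / (κ * S))
      refine this.congr_deriv ?_
      have h9 : κ * S ≠ 0 := by positivity
      rw [div_mul_div_comm, mul_comm 2 (κ * S), mul_div_mul_left _ _ h9]
    rw [intervalIntegral.integral_eq_sub_of_hasDerivAt hder hi5]
    have e1 : b + κ * S * (y - y) = b := by ring
    rw [e1, ← hℓ, ← mul_sub, ← Real.log_div (by positivity) hb0.ne']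
    apply mul_le_mul_of_nonneg_left _ (by positivity)
    apply Real.log_le_log
    · positivity
    · rw [← hzz, add_div, div_self hb0.ne', hb]
      have : g z / (g y / Cq) = Cq * g z / g y := by field_simp
      rw [this]
      have h5 : Cq * g z ≤ Cq * M := mul_le_mul_of_nonneg_left (hM z hzI) hCq0.le
      have := div_le_div_of_nonneg_right h5 hH.le
      linarith
  -- pointwise estimate
  have hpt : ∀ r ∈ Icc y z, |g3 r| * (r - y) ≤ μ / 2 * (g r ^ n * g3 r ^ 2) +
      1 / (2 * μ) * (b ^ (3 - n) * (1 / (κ * S) ^ 2) * (2 / (b + κ * S * (r - y)))) := by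
    intro r hr
    have hg := hpos r (hsub hr)
    have hry : 0 ≤ r - y := by linarith [hr.1]
    have hgn : 0 < g r ^ n := Real.rpow_pos_of_pos hg n
    have am : |g3 r| * (r - y) ≤ μ / 2 * (g r ^ n * g3 r ^ 2) +
        1 / (2 * μ) * ((r - y) ^ 2 / g r ^ n) := by
      have hs := sq_nonneg (μ * g r ^ n * |g3 r| - (r - y))
      have e : μ / 2 * (g r ^ n * g3 r ^ 2) + 1 / (2 * μ) * ((r - y) ^ 2 / g r ^ n) -
          |g3 r| * (r - y) = (μ * g r ^ n * |g3 r| - (r - y)) ^ 2 / (2 * μ * g r ^ n) := by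
        rw [← sq_abs (g3 r)]
        field_simp
        ring
      have := div_nonneg hs (by positivity : 0 ≤ 2 * μ * g r ^ n)
      linarith
    refine am.trans ?_
    have w1 : (r - y) ^ 2 / g r ^ n ≤ b ^ (3 - n) * (1 / (κ * S) ^ 2) *
        (2 / (b + κ * S * (r - y))) := by
      have q1 : g r ^ n = g r ^ (n - 3) * g r ^ 3 := by
        rw [← Real.rpow_natCast (g r) 3, ← Real.rpow_add hg]
        congr 1
        push_cast
        ring
      have q2 : b ^ (3 - n) = (b ^ (n - 3))⁻¹ := by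
        rw [← Real.rpow_neg hb0.le]
        congr 1
        ring
      have q3 : b ^ (n - 3) ≤ g r ^ (n - 3) :=
        Real.rpow_le_rpow hb0.le (hlow2 r hr) (by linarith)
      have q4 : 0 < b ^ (n - 3) := Real.rpow_pos_of_pos hb0 _
      have q5 : (r - y) ^ 2 / g r ^ 3 ≤ (1 / (κ * S) ^ 2) * (2 / (b + κ * S * (r - y))) := by
        have p1 : 0 ≤ κ * S * (r - y) := by positivity
        have p2 : (κ * S * (r - y)) ^ 2 ≤ g r ^ 2 := pow_le_pow_left₀ p1 (hlow r hr) 2
        have p3 : (b + κ * S * (r - y)) ≤ 2 * g r := by linarith [hlow r hr, hlow2 r hr]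
        have p4 : 0 < b + κ * S * (r - y) := by positivity
        rw [div_mul_div_comm, div_le_div_iff₀ (by positivity) (by positivity)]
        calc (r - y) ^ 2 * ((κ * S) ^ 2 * (b + κ * S * (r - y)))
            = (κ * S * (r - y)) ^ 2 * (b + κ * S * (r - y)) := by ring
          _ ≤ g r ^ 2 * (2 * g r) := mul_le_mul p2 p3 p4.le (by positivity)
          _ = 1 * 2 * g r ^ 3 := by ring
      rw [q1, q2]
      calc (r - y) ^ 2 / (g r ^ (n - 3) * g r ^ 3)
          = (g r ^ (n - 3))⁻¹ * ((r - y) ^ 2 / g r ^ 3) := by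
            have : g r ^ (n - 3) ≠ 0 := (Real.rpow_pos_of_pos hg _).ne'
            field_simp
        _ ≤ (b ^ (n - 3))⁻¹ * ((1 / (κ * S) ^ 2) * (2 / (b + κ * S * (r - y)))) := by
            apply mul_le_mul (inv_anti₀ q4 q3) q5 (by positivity) (by positivity)
        _ = _ := by ring
    have := mul_le_mul_of_nonneg_left w1 (by positivity : 0 ≤ 1 / (2 * μ))
    linarith
  have hi6 : IntervalIntegrable (fun r => |g3 r| * (r - y)) volume y z := by
    apply ContinuousOn.intervalIntegrable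
    rw [hui]
    fun_prop
  have hstep1 : S / 2 ≤ ∫ r in y..z, |g3 r| * (r - y) := by
    have e1 : |∫ r in y..z, g3 r * ((r - y) * (z - r) ^ 2)| ≤
        ∫ r in y..z, |g3 r * ((r - y) * (z - r) ^ 2)| :=
      intervalIntegral.abs_integral_le_integral_abs hyz.le
    have e2 : ∫ r in y..z, |g3 r * ((r - y) * (z - r) ^ 2)| ≤
        ∫ r in y..z, (|g3 r| * (r - y)) * ℓ ^ 2 := by
      apply intervalIntegral.integral_mono_on hyz.le hi1.abs (hi6.mul_const _)
      intro r hr
      have p1 : 0 ≤ r - y := by linarith [hr.1]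
      have p2 : 0 ≤ z - r := by linarith [hr.2]
      have p3 : z - r ≤ ℓ := by linarith
      rw [abs_mul, abs_mul, abs_of_nonneg p1, abs_of_nonneg (by positivity : 0 ≤ (z - r) ^ 2)]
      have p4 : (z - r) ^ 2 ≤ ℓ ^ 2 := pow_le_pow_left₀ p2 p3 2
      calc |g3 r| * ((r - y) * (z - r) ^ 2) = (|g3 r| * (r - y)) * (z - r) ^ 2 := by ring
        _ ≤ (|g3 r| * (r - y)) * ℓ ^ 2 := mul_le_mul_of_nonneg_left p4 (by positivity)
    rw [intervalIntegral.integral_mul_const] at e2
    have e3 : S / 2 * ℓ ^ 2 ≤ (∫ r in y..z, |g3 r| * (r - y)) * ℓ ^ 2 := by linarith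
    exact le_of_mul_le_mul_right e3 (by positivity)
  have hstep2 : ∫ r in y..z, |g3 r| * (r - y) ≤ μ / 2 * D +
      1 / (2 * μ) * (b ^ (3 - n) * (1 / (κ * S) ^ 2) *
        (2 / (κ * S) * Real.log (1 + Cq * M / g y))) := by
    have e1 := intervalIntegral.integral_mono_on hyz.le hi6
      ((hi3.const_mul (μ / 2)).add ((hi5.const_mul (b ^ (3 - n) * (1 / (κ * S) ^ 2))).const_mul
        (1 / (2 * μ)))) hpt
    rw [intervalIntegral.integral_add (hi3.const_mul (μ / 2))
      ((hi5.const_mul (b ^ (3 - n) * (1 / (κ * S) ^ 2))).const_mul (1 / (2 * μ))),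
      intervalIntegral.integral_const_mul, intervalIntegral.integral_const_mul,
      intervalIntegral.integral_const_mul] at e1
    refine e1.trans ?_
    have q4 : 0 < b ^ (3 - n) := Real.rpow_pos_of_pos hb0 _
    have e2 := mul_le_mul_of_nonneg_left hDz (by positivity : 0 ≤ μ / 2)
    have e3 := mul_le_mul_of_nonneg_left hlog
      (by positivity : 0 ≤ b ^ (3 - n) * (1 / (κ * S) ^ 2))
    have e4 := mul_le_mul_of_nonneg_left e3 (by positivity : 0 ≤ 1 / (2 * μ))
    linarith
  obtain ⟨Lg, hLg⟩ : ∃ Lg, Lg = Real.log (1 + Cq * M / g y) := ⟨_, rfl⟩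
  obtain ⟨B, hB⟩ : ∃ B, B = b ^ (3 - n) := ⟨_, rfl⟩
  rw [← hb, ← hLg, ← hB]
  rw [← hLg, ← hB] at hstep2
  have f1 : S / 2 ≤ μ / 2 * D + 1 / (2 * μ) * (B * (1 / (κ * S) ^ 2) * (2 / (κ * S) * Lg)) :=
    hstep1.trans hstep2
  have f2 : μ / 2 * D = S / 4 := by
    rw [hμ]
    field_simp
    ring
  have f3 : 1 / (2 * μ) * (B * (1 / (κ * S) ^ 2) * (2 / (κ * S) * Lg)) =
      2 * D * B * Lg / (κ ^ 3 * S ^ 4) := by
    rw [hμ]
    field_simp
  rw [f2, f3] at f1
  have f4 : S / 4 ≤ 2 * D * B * Lg / (κ ^ 3 * S ^ 4) := by linarith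
  rw [le_div_iff₀ (by positivity)] at f4
  have f5 : S ^ 5 * κ ^ 3 ≤ 8 * D * B * Lg := by nlinarith
  have f6 : (24 * Cq) ^ 3 * κ ^ 3 = 1 := by
    rw [hκ]
    field_simp
  calc S ^ 5 = (24 * Cq) ^ 3 * (S ^ 5 * κ ^ 3) := by
        rw [show (24 * Cq) ^ 3 * (S ^ 5 * κ ^ 3) = S ^ 5 * ((24 * Cq) ^ 3 * κ ^ 3) by ring, f6,
          mul_one]
    _ ≤ (24 * Cq) ^ 3 * (8 * D * B * Lg) := mul_le_mul_of_nonneg_left f5 (by positivity)
    _ = 8 * (24 * Cq) ^ 3 * D * B * Lg := by ring

end Pool.Agent.R217.TF
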