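import Pool.Agent.R217.TF.Pt
import Pool.Agent.R217.TF.Slope

set_option autoImplicit false

namespace Pool.Agent.R217.TF

open MeasureTheory Set Filter Topology Function

variable {n δ T : ℝ} {s : ℝ → ℝ} {h : ℝ → ℝ → ℝ} {d : ℕ → ℝ → ℝ → ℝ} {ht : ℝ → ℝ → ℝ}

theorem h_deriv (C : Classical n δ T s h d ht) {x t : ℝ} (hD : (x, t) ∈ Dom s δ T) :
    HasDerivAt (fun y => h y t) (d 1 x t) x := by
  apply (C.d_succ 0 (by norm_num) x t hD).congr_of_eventuallyEq
  have h8 : ∀ᶠ y in 𝓝 x, s t < y := lt_mem_nhds hD.2.2.1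
  have h9 : ∀ᶠ y in 𝓝 x, y < s t + δ := gt_mem_nhds hD.2.2.2
  filter_upwards [h8, h9] with y hy hy2
  exact (C.d_zero y t ⟨hD.1, hD.2.1, hy, hy2⟩).symm

theorem Hx_deriv (C : Classical n δ T s h d ht) {x t : ℝ} (hD : (x, t) ∈ Dom s δ T) :
    HasDerivAt (fun y => Hx s h y t) (d 1 x t) x := by
  apply (h_deriv C hD).congr_of_eventuallyEq
  have h8 : ∀ᶠ y in 𝓝 x, s t < y := lt_mem_nhds hD.2.2.1
  filter_upwards [h8] with y hy
  exact Hx_of_lt hy

/-- the half level -/
theorem half_level (C : Classical n δ T s h d ht) (hδ : 0 < δ) {x t : ℝ} (h0 : 0 < t) (h1 : t < T)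
    (hx0 : s t < x) (hx1 : x < s t + δ) :
    ∃ z, s t < z ∧ z < x ∧ h z t ≤ h x t / 2 ∧ (∀ y, z < y → y ≤ x → h x t / 2 < h y t) ∧
      h x t / 2 * (x - z) ≤ ∫ y in (s t)..x, Hx s h y t := by
  have hp : 0 < h x t := C.pos x t ⟨h0, h1, hx0, hx1⟩
  have cH : ContinuousOn (fun y => Hx s h y t) (Icc (s t) x) := fun y hy =>
    (h_cont_x C hδ (⟨h0, h1, lt_of_le_of_lt hy.2 hx1⟩ : (y, t) ∈ Reg s δ T)).continuousWithinAt
  have hZc : IsCompact (Icc (s t) x ∩ (fun y => Hx s h y t) ⁻¹' Iic (h x t / 2)) :=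
    isCompact_Icc.of_isClosed_subset (cH.preimage_isClosed_of_isClosed isClosed_Icc isClosed_Iic)
      inter_subset_left
  have hZn : (Icc (s t) x ∩ (fun y => Hx s h y t) ⁻¹' Iic (h x t / 2)).Nonempty := by
    refine ⟨s t, ⟨le_refl _, hx0.le⟩, ?_⟩
    show Hx s h (s t) t ≤ h x t / 2
    rw [Hx_of_le C h0 h1 (le_refl _)]
    positivity
  obtain ⟨z, hz, hzu⟩ := hZc.exists_isGreatest hZn
  have hzI := hz.1
  have hz2 : Hx s h z t ≤ h x t / 2 := hz.2
  have hzx : z < x := by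
    rcases hzI.2.eq_or_lt with e | e
    · exfalso
      rw [e, Hx_of_lt hx0] at hz2
      linarith
    · exact e
  have hgt : ∀ y, z < y → y ≤ x → h x t / 2 < Hx s h y t := by
    intro y hy1 hy2
    by_contra hcon
    have : y ≤ z := hzu ⟨⟨hzI.1.trans hy1.le, hy2⟩, not_lt.1 hcon⟩
    linarith
  have hzs : s t < z := by
    rcases hzI.1.eq_or_lt with e | e
    · exfalso
      have hc : ContinuousAt (fun y => Hx s h y t) z :=
        h_cont_x C hδ (⟨h0, h1, lt_of_le_of_lt hzI.2 hx1⟩ : (z, t) ∈ Reg s δ T)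
      have h2 : Hx s h z t = 0 := Hx_of_le C h0 h1 (le_of_eq e.symm)
      have h3 : ∀ᶠ y in 𝓝 z, Hx s h y t < h x t / 2 := by
        apply hc.eventually_lt_const
        show Hx s h z t < h x t / 2
        rw [h2]
        positivity
      have h4 : ∀ᶠ y in 𝓝[>] z, Hx s h y t < h x t / 2 := h3.filter_mono nhdsWithin_le_nhds
      have h5 : ∀ᶠ y in 𝓝[>] z, y ∈ Ioo z x := Ioo_mem_nhdsGT hzx
      obtain ⟨y, hy1, hy2⟩ := (h4.and h5).exists
      have := hgt y hy2.1 hy2.2.le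
      linarith
    · exact e
  refine ⟨z, hzs, hzx, ?_, ?_, ?_⟩
  · rwa [Hx_of_lt hzs] at hz2
  · intro y hy1 hy2
    have := hgt y hy1 hy2
    rwa [Hx_of_lt (hzs.trans hy1)] at this
  · have i1 : IntervalIntegrable (fun y => Hx s h y t) volume (s t) x := by
      apply ContinuousOn.intervalIntegrable
      rwa [uIcc_of_le hx0.le]
    have i2 : IntervalIntegrable (fun y => Hx s h y t) volume z x := by
      apply ContinuousOn.intervalIntegrable
      rw [uIcc_of_le hzx.le]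
      exact cH.mono (Icc_subset_Icc_left hzs.le)
    have e1 : ∫ y in z..x, h x t / 2 ≤ ∫ y in z..x, Hx s h y t := by
      apply intervalIntegral.integral_mono_on_of_le_Ioo hzx.le intervalIntegrable_const i2
      intro y hy
      exact (hgt y hy.1 hy.2.le).le
    rw [intervalIntegral.integral_const, smul_eq_mul] at e1
    have e2 : ∫ y in z..x, Hx s h y t ≤ ∫ y in (s t)..x, Hx s h y t := by
      apply intervalIntegral.integral_mono_interval hzs.le hzx.le (le_refl _) _ i1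
      refine (ae_restrict_iff' measurableSet_Ioc).2 (Eventually.of_forall fun y hy => ?_)
      exact Hx_nonneg C ⟨h0, h1, lt_of_le_of_lt hy.2 hx1⟩
    linarith

/-- steepness at the half level -/
theorem half_slope (C : Classical n δ T s h d ht) (hδ : 0 < δ) {x t : ℝ} (h0 : 0 < t) (h1 : t < T)
    (hx0 : s t < x) (hx1 : x < s t + δ) :
    ∃ c, s t < c ∧ c < x ∧ h x t / 2 < h c t ∧ 0 < d 1 c t ∧
      h x t ^ 2 ≤ 4 * d 1 c t * ∫ y in (s t)..x, Hx s h y t := by
  obtain ⟨z, hz1, hz2, hz3, hz4, hz5⟩ := half_level C hδ h0 h1 hx0 hx1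
  have hp : 0 < h x t := C.pos x t ⟨h0, h1, hx0, hx1⟩
  have hD : ∀ y ∈ Icc z x, (y, t) ∈ Dom s δ T := fun y hy =>
    ⟨h0, h1, lt_of_lt_of_le hz1 hy.1, lt_of_le_of_lt hy.2 hx1⟩
  obtain ⟨c, hc, hce⟩ := exists_hasDerivAt_eq_slope (fun y => h y t) (fun y => d 1 y t) hz2
    (fun y hy => (h_deriv C (hD y hy)).continuousAt.continuousWithinAt)
    (fun y hy => h_deriv C (hD y ⟨hy.1.le, hy.2.le⟩))
  have hxz : 0 < x - z := by linarith
  have hslope : h x t / 2 ≤ d 1 c t * (x - z) := by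
    rw [hce, div_mul_cancel₀ _ hxz.ne']
    linarith
  have hcpos : 0 < d 1 c t := by
    by_contra hcon
    have := mul_nonpos_of_nonpos_of_nonneg (not_lt.1 hcon) hxz.le
    linarith
  refine ⟨c, hz1.trans hc.1, hc.2, hz4 c hc.1 hc.2.le, hcpos, ?_⟩
  calc h x t ^ 2 = 4 * (h x t / 2) * (h x t / 2) := by ring
    _ ≤ 4 * (d 1 c t * (x - z)) * (h x t / 2) := by
        apply mul_le_mul_of_nonneg_right _ (by positivity)
        linarith
    _ = 4 * d 1 c t * (h x t / 2 * (x - z)) := by ring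
    _ ≤ _ := mul_le_mul_of_nonneg_left hz5 (by positivity)

/-- the first point at which the height of `x` is reached -/
theorem first_level (C : Classical n δ T s h d ht) (hδ : 0 < δ) {x t : ℝ} (h0 : 0 < t) (h1 : t < T)
    (hx0 : s t < x) (hx1 : x < s t + δ) :
    ∃ x', s t < x' ∧ x' ≤ x ∧ h x' t = h x t ∧ (∀ y, s t < y → y ≤ x' → h y t ≤ h x t) ∧
      ∫ y in (s t)..x', Hx s h y t ≤ ∫ y in (s t)..x, Hx s h y t := by
  have hp : 0 < h x t := C.pos x t ⟨h0, h1, hx0, hx1⟩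
  have cH : ContinuousOn (fun y => Hx s h y t) (Icc (s t) x) := fun y hy =>
    (h_cont_x C hδ (⟨h0, h1, lt_of_le_of_lt hy.2 hx1⟩ : (y, t) ∈ Reg s δ T)).continuousWithinAt
  have hZc : IsCompact (Icc (s t) x ∩ (fun y => Hx s h y t) ⁻¹' Ici (h x t)) :=
    isCompact_Icc.of_isClosed_subset (cH.preimage_isClosed_of_isClosed isClosed_Icc isClosed_Ici)
      inter_subset_left
  have hZn : (Icc (s t) x ∩ (fun y => Hx s h y t) ⁻¹' Ici (h x t)).Nonempty := by
    refine ⟨x, ⟨hx0.le, le_refl _⟩, ?_⟩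
    show h x t ≤ Hx s h x t
    rw [Hx_of_lt hx0]
  obtain ⟨z, hz, hzl⟩ := hZc.exists_isLeast hZn
  have hzI := hz.1
  have hz2 : h x t ≤ Hx s h z t := hz.2
  have hzs : s t < z := by
    by_contra hcon
    rw [Hx_of_le C h0 h1 (not_lt.1 hcon)] at hz2
    linarith
  have hlt : ∀ y ∈ Icc (s t) z, y < z → Hx s h y t < h x t := by
    intro y hy hyz
    by_contra hcon
    have : z ≤ y := hzl ⟨⟨hy.1, hyz.le.trans hzI.2⟩, not_lt.1 hcon⟩
    linarith
  have heq : h z t = h x t := by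
    rw [Hx_of_lt hzs] at hz2
    by_contra hne
    have hgt : h x t < h z t := lt_of_le_of_ne hz2 (Ne.symm hne)
    have hiv := intermediate_value_Icc hzs.le (cH.mono (Icc_subset_Icc_right hzI.2))
    have hmem : h x t ∈ Icc (Hx s h (s t) t) (Hx s h z t) := by
      constructor
      · rw [Hx_of_le C h0 h1 (le_refl _)]
        exact hp.le
      · rw [Hx_of_lt hzs]
        exact hz2
    obtain ⟨y, hy, hye⟩ := hiv hmem
    have hye' : Hx s h y t = h x t := hye
    rcases hy.2.eq_or_lt with e | e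
    · rw [e, Hx_of_lt hzs] at hye'
      linarith
    · have := hlt y hy e
      linarith
  refine ⟨z, hzs, hzI.2, heq, ?_, ?_⟩
  · intro y hy1 hy2
    rcases hy2.eq_or_lt with e | e
    · rw [e, heq]
    · have := hlt y ⟨hy1.le, hy2⟩ e
      rw [Hx_of_lt hy1] at this
      exact this.le
  · apply intervalIntegral.integral_mono_interval (le_refl _) hzs.le hzI.2
    · refine (ae_restrict_iff' measurableSet_Ioc).2 (Eventually.of_forall fun y hy => ?_)
      exact Hx_nonneg C ⟨h0, h1, lt_of_le_of_lt hy.2 hx1⟩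
    · apply ContinuousOn.intervalIntegrable
      rwa [uIcc_of_le hx0.le]

/-- energy version, first crossing -/
theorem half_energy0 (C : Classical n δ T s h d ht) (hδ : 0 < δ) {x t δ1 : ℝ} (h0 : 0 < t)
    (h1 : t < T) (hx0 : s t < x) (hx1 : x < s t + δ1) (hδ1 : δ1 ≤ δ)
    (hup : ∀ y, s t < y → y ≤ x → h y t ≤ h x t)
    (hE : IntegrableOn (fun y => h y t ^ (n - 4) * d 1 y t ^ 2) (Ioo (s t) (s t + δ1))) :
    h x t ^ (n - 1) ≤ 8 * 2 ^ |n - 4| * (∫ y in Ioo (s t) (s t + δ1), h y t ^ (n - 4) *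
      d 1 y t ^ 2) * ∫ y in (s t)..x, Hx s h y t := by
  obtain ⟨z, hz1, hz2, hz3, hz4, hz5⟩ := half_level C hδ h0 h1 hx0 (by linarith)
  have hp : 0 < h x t := C.pos x t ⟨h0, h1, hx0, by linarith⟩
  have hD : ∀ y ∈ Icc z x, (y, t) ∈ Dom s δ T := fun y hy =>
    ⟨h0, h1, lt_of_lt_of_le hz1 hy.1, lt_of_le_of_lt hy.2 (by linarith)⟩
  have hxz : 0 < x - z := by linarith
  have hc1 : ContinuousOn (fun y => d 1 y t) (Icc z x) := fun y hy =>
    (C.d_succ 1 (by norm_num) y t (hD y hy)).continuousAt.continuousWithinAt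
  have hc0 : ContinuousOn (fun y => h y t) (Icc z x) := fun y hy =>
    (h_deriv C (hD y hy)).continuousAt.continuousWithinAt
  have hui : uIcc z x = Icc z x := uIcc_of_le hz2.le
  have i1 : IntervalIntegrable (fun y => d 1 y t) volume z x := by
    apply ContinuousOn.intervalIntegrable
    rwa [hui]
  have i2 : IntervalIntegrable (fun y => d 1 y t ^ 2) volume z x := by
    apply ContinuousOn.intervalIntegrable
    rw [hui]
    exact hc1.pow 2
  have i3 : IntervalIntegrable (fun y => h y t ^ (n - 4) * d 1 y t ^ 2) volume z x := by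
    apply ContinuousOn.intervalIntegrable
    rw [hui]
    apply ContinuousOn.mul _ (hc1.pow 2)
    exact ContinuousOn.rpow_const hc0 (fun y hy => Or.inl (C.pos y t (hD y hy)).ne')
  have ftc : ∫ y in z..x, d 1 y t = h x t - h z t := by
    apply intervalIntegral.integral_eq_sub_of_hasDerivAt (f := fun y => h y t) _ i1
    intro y hy
    rw [hui] at hy
    exact h_deriv C (hD y hy)
  obtain ⟨E, hEe⟩ : ∃ E, E = ∫ y in Ioo (s t) (s t + δ1), h y t ^ (n - 4) * d 1 y t ^ 2 :=
    ⟨_, rfl⟩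
  rw [← hEe]
  obtain ⟨w, hw⟩ : ∃ w : ℝ, w = 2 ^ |n - 4| := ⟨_, rfl⟩
  have hw0 : 0 < w := by rw [hw]; positivity
  rw [← hw]
  obtain ⟨P, hP⟩ : ∃ P, P = h x t ^ (n - 4) := ⟨_, rfl⟩
  have hP0 : 0 < P := by rw [hP]; positivity
  -- the weight
  have hwt : ∀ y ∈ Ioc z x, P ≤ w * h y t ^ (n - 4) := by
    intro y hy
    have hy1 := hz4 y hy.1 hy.2
    have hy2 := hup y (hz1.trans hy.1) hy.2
    have hy0 : 0 < h y t := by linarith
    rw [hP, hw]
    rcases le_total 4 n with h4 | h4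
    · rw [abs_of_nonneg (by linarith), ← Real.mul_rpow (by norm_num) hy0.le]
      exact Real.rpow_le_rpow hp.le (by linarith) (by linarith)
    · have e1 : h x t ^ (n - 4) ≤ h y t ^ (n - 4) :=
        Real.rpow_le_rpow_of_nonpos hy0 hy2 (by linarith)
      have e2 : (1 : ℝ) ≤ 2 ^ |n - 4| := Real.one_le_rpow (by norm_num) (abs_nonneg _)
      have e3 : 0 < h y t ^ (n - 4) := by positivity
      exact e1.trans (le_mul_of_one_le_left e3.le e2)
  have hEz : P * ∫ y in z..x, d 1 y t ^ 2 ≤ w * E := by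
    have e1 : ∫ y in z..x, P * d 1 y t ^ 2 ≤ ∫ y in z..x, w * (h y t ^ (n - 4) * d 1 y t ^ 2) := by
      apply intervalIntegral.integral_mono_on_of_le_Ioo hz2.le (i2.const_mul _) (i3.const_mul _)
      intro y hy
      have := mul_le_mul_of_nonneg_right (hwt y ⟨hy.1, hy.2.le⟩) (sq_nonneg (d 1 y t))
      linarith
    rw [intervalIntegral.integral_const_mul, intervalIntegral.integral_const_mul] at e1
    refine e1.trans (mul_le_mul_of_nonneg_left ?_ hw0.le)
    rw [hEe, intervalIntegral.integral_of_le hz2.le]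
    apply setIntegral_mono_set hE
    · refine (ae_restrict_iff' measurableSet_Ioo).2 (Eventually.of_forall fun y hy => ?_)
      have := C.pos y t ⟨h0, h1, hy.1, by linarith [hy.2]⟩
      show 0 ≤ h y t ^ (n - 4) * d 1 y t ^ 2
      positivity
    · apply LE.le.eventuallyLE
      intro y hy
      exact ⟨by linarith [hy.1], by linarith [hy.2]⟩
  obtain ⟨G, hG⟩ : ∃ G, G = ∫ y in z..x, d 1 y t ^ 2 := ⟨_, rfl⟩
  rw [← hG] at hEz
  obtain ⟨θ, hθ⟩ : ∃ θ, θ = 2 * (x - z) / h x t := ⟨_, rfl⟩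
  have hθ0 : 0 < θ := by rw [hθ]; positivity
  have hpt : ∀ y ∈ Icc z x, d 1 y t ≤ θ / 2 * d 1 y t ^ 2 + 1 / (2 * θ) := by
    intro y _
    have e : θ / 2 * d 1 y t ^ 2 + 1 / (2 * θ) - d 1 y t = (θ * d 1 y t - 1) ^ 2 / (2 * θ) := by
      field_simp
      ring
    have : 0 ≤ (θ * d 1 y t - 1) ^ 2 / (2 * θ) := by positivity
    linarith
  have hmono := intervalIntegral.integral_mono_on hz2.le i1
    ((i2.const_mul (θ / 2)).add intervalIntegrable_const) hpt
  rw [intervalIntegral.integral_add (i2.const_mul (θ / 2)) intervalIntegrable_const,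
    intervalIntegral.integral_const_mul, intervalIntegral.integral_const, ftc, smul_eq_mul,
    ← hG] at hmono
  have k1 : h x t / 2 ≤ θ / 2 * G + (x - z) * (1 / (2 * θ)) := by linarith
  have k2 : (x - z) * (1 / (2 * θ)) = h x t / 4 := by
    rw [hθ]
    field_simp
    norm_num
  have k3 : θ / 2 * G = (x - z) * G / h x t := by
    rw [hθ]
    field_simp
  rw [k2, k3] at k1
  have k4 : h x t / 4 ≤ (x - z) * G / h x t := by linarith
  rw [le_div_iff₀ hp] at k4
  have k5 : h x t ^ (n - 1) = P * h x t ^ 3 := by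
    rw [hP, ← Real.rpow_natCast (h x t) 3, ← Real.rpow_add hp]
    congr 1
    push_cast
    ring
  have hE0 : 0 ≤ w * E := by
    have : 0 ≤ G := by
      rw [hG]
      exact intervalIntegral.integral_nonneg hz2.le (fun _ _ => sq_nonneg _)
    exact le_trans (by positivity) hEz
  rw [k5]
  calc P * h x t ^ 3 = 4 * (h x t / 4 * h x t) * (P * h x t) := by ring
    _ ≤ 4 * ((x - z) * G) * (P * h x t) := by
        apply mul_le_mul_of_nonneg_right _ (by positivity)
        linarith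
    _ = 8 * (P * G) * (h x t / 2 * (x - z)) := by ring
    _ ≤ 8 * (w * E) * (h x t / 2 * (x - z)) := by
        apply mul_le_mul_of_nonneg_right _ (by positivity)
        linarith
    _ ≤ 8 * (w * E) * _ := mul_le_mul_of_nonneg_left hz5 (by positivity)
    _ = _ := by ring

/-- energy version -/
theorem half_energy (C : Classical n δ T s h d ht) (hδ : 0 < δ) {x t δ1 : ℝ} (h0 : 0 < t)
    (h1 : t < T) (hx0 : s t < x) (hx1 : x < s t + δ1) (hδ1 : δ1 ≤ δ)
    (hE : IntegrableOn (fun y => h y t ^ (n - 4) * d 1 y t ^ 2) (Ioo (s t) (s t + δ1))) :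
    h x t ^ (n - 1) ≤ 8 * 2 ^ |n - 4| * (∫ y in Ioo (s t) (s t + δ1), h y t ^ (n - 4) *
      d 1 y t ^ 2) * ∫ y in (s t)..x, Hx s h y t := by
  obtain ⟨x', a1, a2, a3, a4, a5⟩ := first_level C hδ h0 h1 hx0 (by linarith)
  have := half_energy0 C hδ h0 h1 a1 (by linarith : x' < s t + δ1) hδ1
    (fun y hy1 hy2 => by rw [a3]; exact a4 y hy1 hy2) hE
  rw [a3] at this
  refine this.trans (mul_le_mul_of_nonneg_left a5 ?_)
  have : 0 ≤ ∫ y in Ioo (s t) (s t + δ1), h y t ^ (n - 4) * d 1 y t ^ 2 := by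
    apply setIntegral_nonneg measurableSet_Ioo
    intro y hy
    have := C.pos y t ⟨h0, h1, hy.1, by linarith [hy.2]⟩
    positivity
  positivity

/-- slope bound in the quasi-monotone case -/
theorem slope_C (hn : 3 ≤ n) (C : Classical n δ T s h d ht) {t : ℝ} (h0 : 0 < t) (h1 : t < T)
    {δ1 ω R M Cq : ℝ} (hR : 0 < R) (hωR : ω + R < δ1) (hδ1 : δ1 ≤ δ)
    (hM : ∀ x, s t < x → x ≤ s t + (ω + R) → h x t ≤ M) (hCq : 1 ≤ Cq)
    (hq : ∀ x y, s t < x → x ≤ y → y < s t + δ1 → h x t ≤ Cq * h y t)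
    (hDi : IntegrableOn (fun x => dss n h d x t) (Ioo (s t) (s t + δ))) {y : ℝ} (hy0 : s t < y)
    (hy1 : y ≤ s t + ω) :
    |d 1 y t| ^ 5 ≤ (24 * Cq * M / R) ^ 5 + 8 * (24 * Cq) ^ 3 * (Dt n δ s h d t + 1) *
      (h y t / Cq) ^ (3 - n) * Real.log (1 + Cq * M / h y t) := by
  have hD : ∀ r ∈ Icc y (y + R), (r, t) ∈ Dom s δ T := fun r hr =>
    ⟨h0, h1, lt_of_lt_of_le hy0 hr.1, by linarith [hr.2]⟩
  have hyI : y ∈ Icc y (y + R) := ⟨le_refl _, by linarith⟩
  have hp := C.pos y t (hD y hyI)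
  have hM0 : 0 < M := lt_of_lt_of_le hp (hM y hy0 (by linarith))
  have hDt0 : 0 ≤ Dt n δ s h d t := by
    unfold Dt
    apply setIntegral_nonneg measurableSet_Ioo
    intro x hx
    unfold dss
    have := C.pos x t ⟨h0, h1, hx.1, hx.2⟩
    positivity
  have hCq0 : 0 < Cq := by linarith
  have hlog : 0 ≤ Real.log (1 + Cq * M / h y t) := by
    apply Real.log_nonneg
    have : 0 ≤ Cq * M / h y t := by positivity
    linarith
  have hB : 0 ≤ (h y t / Cq) ^ (3 - n) := by positivity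
  rcases le_or_gt |d 1 y t| (24 * Cq * M / R) with hS | hS
  · have e1 := pow_le_pow_left₀ (abs_nonneg (d 1 y t)) hS 5
    have e2 : 0 ≤ 8 * (24 * Cq) ^ 3 * (Dt n δ s h d t + 1) * (h y t / Cq) ^ (3 - n) *
        Real.log (1 + Cq * M / h y t) := by positivity
    linarith
  · have e2 : 0 ≤ (24 * Cq * M / R) ^ 5 := by positivity
    have hcd : ContinuousOn (fun x => d 3 x t) (Icc y (y + R)) := fun r hr =>
      (C.d_succ 3 (by norm_num) r t (hD r hr)).continuousAt.continuousWithinAt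
    have := slope_core (n := n) (M := M) (D := Dt n δ s h d t + 1) (Cq := Cq)
      (g := fun x => h x t) (g1 := fun x => d 1 x t) (g2 := fun x => d 2 x t)
      (g3 := fun x => d 3 x t) (y := y) (R := R) hn hR
      (fun r hr => h_deriv C (hD r hr))
      (fun r hr => C.d_succ 1 (by norm_num) r t (hD r hr))
      (fun r hr => C.d_succ 2 (by norm_num) r t (hD r hr))
      hcd (fun r hr => C.pos r t (hD r hr))
      (fun r hr => hM r (lt_of_lt_of_le hy0 hr.1) (by linarith [hr.2])) hCq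
      (fun r hr r' hr' hrr => hq r r' (lt_of_lt_of_le hy0 hr.1) hrr (by linarith [hr'.2]))
      (by linarith) ?_ hS
    · exact this.trans (by linarith)
    · have e3 : ∫ r in y..(y + R), h r t ^ n * d 3 r t ^ 2 ≤ Dt n δ s h d t := by
        rw [intervalIntegral.integral_of_le (by linarith)]
        unfold Dt
        apply setIntegral_mono_set hDi
        · refine (ae_restrict_iff' measurableSet_Ioo).2 (Eventually.of_forall fun x hx => ?_)
          show 0 ≤ dss n h d x t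
          unfold dss
          have := C.pos x t ⟨h0, h1, hx.1, hx.2⟩
          positivity
        · apply LE.le.eventuallyLE
          intro x hx
          exact ⟨by linarith [hx.1], by linarith [hx.2]⟩
      linarith

end Pool.Agent.R217.TF
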