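import Pool.Agent.R217.TF.Height

set_option autoImplicit false

namespace Pool.Agent.R217.TF

open MeasureTheory Set Filter Topology Function

variable {n δ T : ℝ} {s : ℝ → ℝ} {h : ℝ → ℝ → ℝ} {d : ℕ → ℝ → ℝ → ℝ} {ht : ℝ → ℝ → ℝ}

/-- `K ≤ k₀ + K⁵/k₀⁴` -/
theorem fifth {K k0 B : ℝ} (hK : 0 ≤ K) (hk : 0 < k0) (hB : K ^ 5 ≤ B) : K ≤ k0 + B / k0 ^ 4 := by
  have hB0 : 0 ≤ B := le_trans (by positivity) hB
  rcases le_or_gt K k0 with h | h
  · have : 0 ≤ B / k0 ^ 4 := by positivity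
    linarith
  · have h1 : k0 ^ 4 ≤ K ^ 4 := pow_le_pow_left₀ hk.le h.le 4
    have h2 : K ≤ B / k0 ^ 4 := by
      rw [le_div_iff₀ (by positivity)]
      calc K * k0 ^ 4 ≤ K * K ^ 4 := mul_le_mul_of_nonneg_left h1 hK
        _ = K ^ 5 := by ring
        _ ≤ B := hB
    linarith

theorem one_le_prod {D L : ℝ} (hD : 0 ≤ D) (hL : 0 ≤ L) : 1 ≤ (D + 1) * (L + 1) := by
  have := mul_nonneg hD hL
  linarith [show (D + 1) * (L + 1) = D * L + D + L + 1 by ring]

theorem prod_bd {c L : ℝ} (hc : 0 ≤ c) (hL : 0 ≤ L) : c + L ≤ (c + 1) * (L + 1) := by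
  have := mul_nonneg hc hL
  linarith [show (c + 1) * (L + 1) = c * L + c + L + 1 by ring]

/-- height bound in the quasi-monotone case -/
theorem height_C (hn : 3 ≤ n) {R M Cq : ℝ} (hR : 0 < R) (hM1 : 1 ≤ M) (hCq : 1 ≤ Cq) :
    ∃ C2 : ℝ, 0 ≤ C2 ∧ ∀ (δ T : ℝ) (s : ℝ → ℝ) (h : ℝ → ℝ → ℝ) (d : ℕ → ℝ → ℝ → ℝ)
      (ht : ℝ → ℝ → ℝ) (_C : Classical n δ T s h d ht) (t ω δ1 : ℝ), 0 < t → t < T → 0 < δ →
      ω + R < δ1 → δ1 ≤ δ → (∀ x, s t < x → x ≤ s t + (ω + R) → h x t ≤ M) →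
      (∀ x y, s t < x → x ≤ y → y < s t + δ1 → h x t ≤ Cq * h y t) →
      IntegrableOn (fun x => dss n h d x t) (Ioo (s t) (s t + δ)) →
      ∀ a k0 : ℝ, 0 < a → a < 1 → 1 ≤ k0 → ∀ x, s t < x → x ≤ s t + ω →
      h x t ^ (n - 1) ≤ (k0 + C2 * (Dt n δ s h d t + 1) * (Real.log (1 / a) + 1) / k0 ^ 4) *
        ((∫ y in (s t)..x, Hx s h y t) + a) := by
  obtain ⟨C1, hC1⟩ : ∃ C1, C1 = 8 * (24 * Cq) ^ 3 := ⟨_, rfl⟩
  obtain ⟨Q, hQ⟩ : ∃ Q, Q = M ^ (n - 3) := ⟨_, rfl⟩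
  obtain ⟨Q2, hQ2⟩ : ∃ Q2, Q2 = (2 * Cq) ^ (n - 3) := ⟨_, rfl⟩
  obtain ⟨cm, hcm⟩ : ∃ cm, cm = Real.log (1 + 2 * Cq * M) + Real.log M := ⟨_, rfl⟩
  have hCq0 : 0 < Cq := by linarith
  have hM0 : 0 < M := by linarith
  have hC10 : 0 < C1 := by rw [hC1]; positivity
  have hQ0 : 0 < Q := by rw [hQ]; positivity
  have hQ20 : 0 < Q2 := by rw [hQ2]; positivity
  have hcm0 : 0 ≤ cm := by
    rw [hcm]
    apply add_nonneg
    · apply Real.log_nonneg
      have : 0 < 2 * Cq * M := by positivity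
      linarith
    · exact Real.log_nonneg hM1
  refine ⟨1024 * (Q ^ 5 * (24 * Cq * M / R) ^ 5 + C1 * Q ^ 4 * Q2 * (cm + 1)), by positivity, ?_⟩
  intro δ T s h d ht C t ω δ1 h0 h1 hδ hωR hδ1 hM hq hDi a k0 ha ha1 hk0 x hx0 hx1
  have hxδ : x < s t + δ := by linarith
  have hp : 0 < h x t := C.pos x t ⟨h0, h1, hx0, hxδ⟩
  obtain ⟨H, hH⟩ : ∃ H, H = h x t := ⟨_, rfl⟩
  obtain ⟨m, hm⟩ : ∃ m, m = ∫ y in (s t)..x, Hx s h y t := ⟨_, rfl⟩
  obtain ⟨L, hL⟩ : ∃ L, L = Real.log (1 / a) := ⟨_, rfl⟩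
  obtain ⟨D, hD⟩ : ∃ D, D = Dt n δ s h d t := ⟨_, rfl⟩
  have hLa : L = - Real.log a := by rw [hL, one_div, Real.log_inv]
  have hL0 : 0 ≤ L := by
    rw [hLa]
    have := Real.log_neg ha ha1
    linarith
  have hD0 : 0 ≤ D := by
    rw [hD]
    unfold Dt
    apply setIntegral_nonneg measurableSet_Ioo
    intro x hx
    unfold dss
    have := C.pos x t ⟨h0, h1, hx.1, hx.2⟩
    positivity
  have hm0 : 0 ≤ m := by
    rw [hm]
    apply intervalIntegral.integral_nonneg hx0.le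
    intro y hy
    exact Hx_nonneg C ⟨h0, h1, by linarith [hy.2]⟩
  rw [← hH, ← hm, ← hL, ← hD]
  rw [← hH] at hp
  have hfac : 1 ≤ k0 + 1024 * (Q ^ 5 * (24 * Cq * M / R) ^ 5 + C1 * Q ^ 4 * Q2 * (cm + 1)) *
      (D + 1) * (L + 1) / k0 ^ 4 := by
    have : 0 ≤ 1024 * (Q ^ 5 * (24 * Cq * M / R) ^ 5 + C1 * Q ^ 4 * Q2 * (cm + 1)) *
      (D + 1) * (L + 1) / k0 ^ 4 := by positivity
    linarith
  rcases le_or_gt (H ^ (n - 1)) a with hsm | hbig
  · calc H ^ (n - 1) ≤ 1 * (m + a) := by linarith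
      _ ≤ _ := mul_le_mul_of_nonneg_right hfac (by positivity)
  · -- the logarithm of the height
    have hlogH : - Real.log H ≤ L := by
      rcases le_or_gt 1 H with h1H | h1H
      · have := Real.log_nonneg h1H
        linarith
      · have e1 : H ^ (n - 1) ≤ H := by
          have := Real.rpow_le_rpow_of_exponent_ge hp h1H.le (by linarith : (1 : ℝ) ≤ n - 1)
          rwa [Real.rpow_one] at this
        have e2 := Real.log_le_log ha (hbig.le.trans e1)
        linarith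
    obtain ⟨c, hc0, hc1, hc2, hc3, hc4⟩ := half_slope C hδ h0 h1 hx0 hxδ
    rw [← hH, ← hm] at hc4
    rw [← hH] at hc2
    obtain ⟨S, hS⟩ : ∃ S, S = d 1 c t := ⟨_, rfl⟩
    rw [← hS] at hc3 hc4
    have hsl := slope_C hn C h0 h1 hR hωR hδ1 hM hCq hq hDi hc0 (by linarith)
    rw [← hS, abs_of_pos hc3, ← hD, ← hC1] at hsl
    obtain ⟨P, hP⟩ : ∃ P, P = H ^ (n - 3) := ⟨_, rfl⟩
    have hP0 : 0 < P := by rw [hP]; positivity
    have hHM : H ≤ M := by rw [hH]; exact hM x hx0 (by linarith)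
    have hPQ : P ≤ Q := by
      rw [hP, hQ]
      exact Real.rpow_le_rpow hp.le hHM (by linarith)
    have hhc : 0 < h c t := by linarith
    have w1 : (h c t / Cq) ^ (3 - n) ≤ P⁻¹ * Q2 := by
      have e1 : (h c t / Cq) ^ (3 - n) ≤ (H / (2 * Cq)) ^ (3 - n) := by
        apply Real.rpow_le_rpow_of_nonpos (by positivity) _ (by linarith)
        rw [div_le_div_iff₀ (by positivity) hCq0]
        have := mul_le_mul_of_nonneg_right hc2.le hCq0.le
        linarith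
      have e2 : (H / (2 * Cq)) ^ (3 - n) = P⁻¹ * Q2 := by
        rw [hP, hQ2, Real.div_rpow hp.le (by positivity), ← Real.rpow_neg hp.le]
        have e3 : (2 * Cq) ^ (3 - n) = ((2 * Cq) ^ (n - 3))⁻¹ := by
          rw [← Real.rpow_neg (by positivity)]
          congr 1
          ring
        rw [e3, div_inv_eq_mul]
        congr 2
        ring
      rw [← e2]
      exact e1
    have w2 : Real.log (1 + Cq * M / h c t) ≤ cm + L := by
      have e1 : 1 + Cq * M / h c t ≤ (1 + 2 * Cq * M) * M / H := by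
        have e2 : Cq * M / h c t ≤ 2 * Cq * M / H := by
          rw [div_le_div_iff₀ hhc hp]
          have : Cq * M * H ≤ Cq * M * (2 * h c t) := by
            apply mul_le_mul_of_nonneg_left (by linarith) (by positivity)
          linarith
        have e3 : 1 ≤ M / H := by rw [le_div_iff₀ hp]; linarith
        have e4 : 2 * Cq * M / H ≤ 2 * Cq * M * M / H := by
          apply div_le_div_of_nonneg_right _ hp.le
          have : 0 < 2 * Cq * M := by positivity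
          exact le_mul_of_one_le_right this.le hM1
        have e5 : (1 + 2 * Cq * M) * M / H = M / H + 2 * Cq * M * M / H := by ring
        rw [e5]
        linarith
      have e6 : 0 < 1 + Cq * M / h c t := by positivity
      refine (Real.log_le_log e6 e1).trans ?_
      rw [Real.log_div (by positivity) hp.ne', Real.log_mul (by positivity) (by positivity), hcm]
      linarith
    have w3 : 0 ≤ Real.log (1 + Cq * M / h c t) := by
      apply Real.log_nonneg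
      have : 0 ≤ Cq * M / h c t := by positivity
      linarith
    have w4 : S ^ 5 ≤ (24 * Cq * M / R) ^ 5 + C1 * (D + 1) * (P⁻¹ * Q2) * (cm + L) := by
      refine hsl.trans ?_
      have e1 : C1 * (D + 1) * (h c t / Cq) ^ (3 - n) * Real.log (1 + Cq * M / h c t) ≤
          C1 * (D + 1) * (P⁻¹ * Q2) * (cm + L) := by
        apply mul_le_mul _ w2 w3 (by positivity)
        exact mul_le_mul_of_nonneg_left w1 (by positivity)
      linarith
    have w5 : (4 * S * P) ^ 5 ≤ 1024 * (Q ^ 5 * (24 * Cq * M / R) ^ 5 +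
        C1 * Q ^ 4 * Q2 * (cm + 1)) * (D + 1) * (L + 1) := by
      have e1 : (4 * S * P) ^ 5 = 1024 * (P ^ 5 * S ^ 5) := by ring
      have e2 : P ^ 5 * S ^ 5 ≤ P ^ 5 * (24 * Cq * M / R) ^ 5 +
          C1 * (D + 1) * P ^ 4 * Q2 * (cm + L) := by
        have := mul_le_mul_of_nonneg_left w4 (by positivity : 0 ≤ P ^ 5)
        refine this.trans (le_of_eq ?_)
        have e3 : P * P⁻¹ = 1 := mul_inv_cancel₀ hP0.ne'
        calc P ^ 5 * ((24 * Cq * M / R) ^ 5 + C1 * (D + 1) * (P⁻¹ * Q2) * (cm + L))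
            = P ^ 5 * (24 * Cq * M / R) ^ 5 + C1 * (D + 1) * P ^ 4 * Q2 * (cm + L) * (P * P⁻¹) := by
              ring
          _ = _ := by rw [e3, mul_one]
      have e4 : P ^ 5 * (24 * Cq * M / R) ^ 5 ≤ Q ^ 5 * (24 * Cq * M / R) ^ 5 := by
        apply mul_le_mul_of_nonneg_right (pow_le_pow_left₀ hP0.le hPQ 5) (by positivity)
      have e5 : C1 * (D + 1) * P ^ 4 * Q2 * (cm + L) ≤ C1 * (D + 1) * Q ^ 4 * Q2 * (cm + L) := by
        apply mul_le_mul_of_nonneg_right _ (by positivity)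
        apply mul_le_mul_of_nonneg_right _ hQ20.le
        exact mul_le_mul_of_nonneg_left (pow_le_pow_left₀ hP0.le hPQ 4) (by positivity)
      have e6 : Q ^ 5 * (24 * Cq * M / R) ^ 5 ≤ Q ^ 5 * (24 * Cq * M / R) ^ 5 * ((D + 1) * (L + 1)) := by
        exact le_mul_of_one_le_right (by positivity) (one_le_prod hD0 hL0)
      have e7 : C1 * (D + 1) * Q ^ 4 * Q2 * (cm + L) ≤
          C1 * (D + 1) * Q ^ 4 * Q2 * ((cm + 1) * (L + 1)) := by
        exact mul_le_mul_of_nonneg_left (prod_bd hcm0 hL0) (by positivity)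
      rw [e1]
      calc 1024 * (P ^ 5 * S ^ 5) ≤ 1024 * (Q ^ 5 * (24 * Cq * M / R) ^ 5 * ((D + 1) * (L + 1)) +
          C1 * (D + 1) * Q ^ 4 * Q2 * ((cm + 1) * (L + 1))) := by linarith
        _ = _ := by ring
    have w6 := fifth (by positivity : 0 ≤ 4 * S * P) (by linarith : 0 < k0) w5
    have w7 : H ^ (n - 1) ≤ 4 * S * P * m := by
      have e1 : H ^ (n - 1) = P * H ^ 2 := by
        rw [hP, ← Real.rpow_natCast H 2, ← Real.rpow_add hp]
        congr 1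
        push_cast
        ring
      rw [e1]
      calc P * H ^ 2 ≤ P * (4 * S * m) := mul_le_mul_of_nonneg_left hc4 hP0.le
        _ = _ := by ring
    calc H ^ (n - 1) ≤ 4 * S * P * m := w7
      _ ≤ 4 * S * P * (m + a) := by
          apply mul_le_mul_of_nonneg_left (by linarith) (by positivity)
      _ ≤ _ := mul_le_mul_of_nonneg_right w6 (by positivity)

/-- `ε log(1 + c/ε)` is small -/
theorem eps_log {c η : ℝ} (hc : 0 ≤ c) (hη : 0 < η) : ∃ ε0 : ℝ, 0 < ε0 ∧ ∀ ε : ℝ, 0 < ε → ε < ε0 →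
    ε * Real.log (1 + c / ε) ≤ η := by
  refine ⟨min 1 (η ^ 2 / (4 * (1 + c))), by positivity, fun ε hε hε0 => ?_⟩
  have h1 : ε < 1 := lt_of_lt_of_le hε0 (min_le_left _ _)
  have h2 : ε < η ^ 2 / (4 * (1 + c)) := lt_of_lt_of_le hε0 (min_le_right _ _)
  have hu : 0 < 1 + c / ε := by positivity
  have e1 : Real.log (1 + c / ε) ≤ 2 * √(1 + c / ε) := by
    have e2 : Real.log (1 + c / ε) = 2 * Real.log (√(1 + c / ε)) := by
      rw [Real.log_sqrt hu.le]
      ring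
    have e3 := Real.log_le_sub_one_of_pos (Real.sqrt_pos.2 hu)
    linarith
  have e4 : ε * √(1 + c / ε) = √(ε ^ 2 * (1 + c / ε)) := by
    rw [Real.sqrt_mul (by positivity), Real.sqrt_sq hε.le]
  have e5 : √(ε ^ 2 * (1 + c / ε)) ≤ η / 2 := by
    rw [Real.sqrt_le_left (by positivity)]
    have e6 : ε ^ 2 * (1 + c / ε) = ε ^ 2 + c * ε := by field_simp
    rw [e6]
    rw [lt_div_iff₀ (by positivity)] at h2
    nlinarith
  calc ε * Real.log (1 + c / ε) ≤ ε * (2 * √(1 + c / ε)) := mul_le_mul_of_nonneg_left e1 hε.le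
    _ = 2 * (ε * √(1 + c / ε)) := by ring
    _ ≤ η := by rw [e4]; linarith

theorem sq_le_fifth {x : ℝ} (hx : 0 ≤ x) : x ^ 2 ≤ 1 + x ^ 5 := by
  rcases le_or_gt x 1 with h | h
  · have : x ^ 2 ≤ 1 := pow_le_one₀ hx h
    have : 0 ≤ x ^ 5 := by positivity
    linarith
  · have : x ^ 2 ≤ x ^ 5 := pow_le_pow_right₀ h.le (by norm_num)
    linarith

/-- measure of the level set -/
theorem lev_meas (s : ℝ → ℝ) (h : ℝ → ℝ → ℝ) {S1 ε t : ℝ} (hs : s t ≤ S1) :
    volume (lev s h S1 ε t) < ⊤ ∧ volume.real (lev s h S1 ε t) ≤ S1 - s t := by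
  have hsub : lev s h S1 ε t ⊆ Icc (s t) S1 := fun x hx => hx.1
  have h1 : volume (Icc (s t) S1) < ⊤ := measure_Icc_lt_top
  constructor
  · exact lt_of_le_of_lt (measure_mono hsub) h1
  · have := measureReal_mono (μ := volume) hsub h1.ne
    rw [Real.volume_real_Icc_of_le hs] at this
    exact this

end Pool.Agent.R217.TF
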