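import Pool.Agent.R217.TF.Core
import Pool.Agent.R217.TF.HeightC

set_option autoImplicit false

namespace Pool.Agent.R217.TF

open MeasureTheory Set Filter Topology Function

variable {n δ T : ℝ} {s : ℝ → ℝ} {h : ℝ → ℝ → ℝ} {d : ℕ → ℝ → ℝ → ℝ} {ht : ℝ → ℝ → ℝ}

/-- the part of `D` within distance `δ₁` of the contact line, for times in `[t₁, t₂]` -/
def Near (s : ℝ → ℝ) (δ1 t1 t2 : ℝ) : Set (ℝ × ℝ) :=
  {q | t1 ≤ q.2 ∧ q.2 ≤ t2 ∧ s q.2 < q.1 ∧ q.1 < s q.2 + δ1}

/-- sections of integrable functions -/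
theorem sec (hs : ContinuousOn s (Ioo 0 T)) {δ' t1 t2 : ℝ} (h1 : 0 < t1) (h12 : t1 ≤ t2)
    (h2 : t2 < T) {f : ℝ → ℝ → ℝ}
    (hf : IntegrableOn (fun q : ℝ × ℝ => f q.1 q.2) (Near s δ' t1 t2)) :
    (∀ᵐ t, t ∈ Icc t1 t2 → IntegrableOn (fun x => f x t) (Ioo (s t) (s t + δ'))) ∧
    IntervalIntegrable (fun t => ∫ x in Ioo (s t) (s t + δ'), f x t) volume t1 t2 ∧
    ∫ t in t1..t2, ∫ x in Ioo (s t) (s t + δ'), f x t =
      ∫ q in Near s δ' t1 t2, f q.1 q.2 := by
  have hNe : Near s δ' t1 t2 = Dom s δ' T ∩ (fun q : ℝ × ℝ => q.2) ⁻¹' Icc t1 t2 := by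
    ext q
    constructor
    · rintro ⟨a1, a2, a3, a4⟩
      exact ⟨⟨by linarith, by linarith, a3, a4⟩, a1, a2⟩
    · rintro ⟨⟨_, _, a3, a4⟩, a1, a2⟩
      exact ⟨a1, a2, a3, a4⟩
  have hNm : MeasurableSet (Near s δ' t1 t2) := by
    rw [hNe]
    exact (isOpen_Dom hs).measurableSet.inter (measurable_snd measurableSet_Icc)
  obtain ⟨F, hF⟩ : ∃ F : ℝ × ℝ → ℝ, F = (Near s δ' t1 t2).indicator (fun q => f q.1 q.2) := ⟨_, rfl⟩
  have hFi : Integrable F := by
    rw [hF]
    exact hf.integrable_indicator hNm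
  rw [Measure.volume_eq_prod] at hFi
  have hFe : ∀ t ∈ Icc t1 t2, (fun x => F (x, t)) =
      (Ioo (s t) (s t + δ')).indicator (fun x => f x t) := by
    intro t hti
    funext x
    rw [hF]
    by_cases hx : x ∈ Ioo (s t) (s t + δ')
    · rw [indicator_of_mem hx, indicator_of_mem]
      exact ⟨hti.1, hti.2, hx.1, hx.2⟩
    · rw [indicator_of_notMem hx, indicator_of_notMem]
      rintro ⟨_, _, a3, a4⟩
      exact hx ⟨a3, a4⟩
  refine ⟨?_, ?_, ?_⟩
  · filter_upwards [hFi.prod_left_ae] with t h3 hti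
    rw [hFe t hti] at h3
    rwa [integrable_indicator_iff measurableSet_Ioo] at h3
  · rw [intervalIntegrable_iff_integrableOn_Ioc_of_le h12]
    have h3 : IntegrableOn (fun t => ∫ x, F (x, t)) (Ioc t1 t2) := hFi.integral_prod_right.integrableOn
    apply h3.congr_fun _ measurableSet_Ioc
    intro t hti
    simp only
    rw [hFe t ⟨hti.1.le, hti.2⟩, integral_indicator measurableSet_Ioo]
  · have e1 : ∫ q in Near s δ' t1 t2, f q.1 q.2 = ∫ q, F q := by
      rw [hF, integral_indicator hNm]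
    have e2 : ∫ q, F q = ∫ t, ∫ x, F (x, t) := by
      rw [Measure.volume_eq_prod]
      exact integral_prod_symm F hFi
    have e3 : ∫ t, ∫ x, F (x, t) = ∫ t in Icc t1 t2, ∫ x, F (x, t) := by
      symm
      apply setIntegral_eq_integral_of_forall_compl_eq_zero
      intro t hti
      have : ∀ x, F (x, t) = 0 := by
        intro x
        rw [hF, indicator_of_notMem]
        rintro ⟨a1, a2, _, _⟩
        exact hti ⟨a1, a2⟩
      simp [this]
    rw [e1, e2, e3, integral_Icc_eq_integral_Ioc, intervalIntegral.integral_of_le h12]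
    apply setIntegral_congr_fun measurableSet_Ioc
    intro t hti
    simp only
    rw [hFe t ⟨hti.1.le, hti.2⟩, integral_indicator measurableSet_Ioo]

/-- slopes on small level sets, from a weighted integral bound -/
theorem small_lev (hn : 3 ≤ n) (C : Classical n δ T s h d ht) {δ' t1 t2 : ℝ} (h1 : 0 < t1)
    (h12 : t1 ≤ t2) (h2 : t2 < T) (hδ' : δ' ≤ δ)
    (hf : IntegrableOn (fun q : ℝ × ℝ => h q.1 q.2 ^ (n - 2) * d 1 q.1 q.2 ^ 2)
      (Near s δ' t1 t2)) {η : ℝ} (hη : 0 < η) :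
    ∃ ε0 : ℝ, 0 < ε0 ∧ ∃ v : ℝ → ℝ, IntervalIntegrable v volume t1 t2 ∧ ∫ t in t1..t2, v t ≤ η ∧
      ∀ S1 : ℝ, (∀ t ∈ Icc t1 t2, S1 < s t + δ') → ∀ ε : ℝ, 0 < ε → ε < ε0 →
        ∀ᵐ t, t ∈ Icc t1 t2 → ε ^ (n - 2) * ∫ x in lev s h S1 ε t, d 1 x t ^ 2 ≤ v t := by
  have hNe : Near s δ' t1 t2 = Dom s δ' T ∩ (fun q : ℝ × ℝ => q.2) ⁻¹' Icc t1 t2 := by
    ext q
    constructor
    · rintro ⟨a1, a2, a3, a4⟩
      exact ⟨⟨by linarith, by linarith, a3, a4⟩, a1, a2⟩
    · rintro ⟨⟨_, _, a3, a4⟩, a1, a2⟩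
      exact ⟨a1, a2, a3, a4⟩
  have hNm : MeasurableSet (Near s δ' t1 t2) := by
    rw [hNe]
    exact (isOpen_Dom C.s_cont).measurableSet.inter (measurable_snd measurableSet_Icc)
  have hND : Near s δ' t1 t2 ⊆ Dom s δ T := by
    rintro q ⟨a1, a2, a3, a4⟩
    exact ⟨by linarith, by linarith, a3, by linarith⟩
  obtain ⟨A, hA⟩ : ∃ A : ℝ → Set (ℝ × ℝ), A = fun c => Near s δ' t1 t2 \
    (Dom s δ T ∩ (fun q : ℝ × ℝ => h q.1 q.2) ⁻¹' Ioi c) := ⟨_, rfl⟩
  have hAm : ∀ c, MeasurableSet (A c) := by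
    intro c
    rw [hA]
    exact hNm.diff ((h_contOn C).isOpen_inter_preimage (isOpen_Dom C.s_cont)
      isOpen_Ioi).measurableSet
  have hAe : ∀ c q, q ∈ A c ↔ q ∈ Near s δ' t1 t2 ∧ h q.1 q.2 ≤ c := by
    intro c q
    rw [hA]
    constructor
    · rintro ⟨a1, a2⟩
      refine ⟨a1, ?_⟩
      by_contra hcon
      exact a2 ⟨hND a1, not_le.1 hcon⟩
    · rintro ⟨a1, a2⟩
      exact ⟨a1, fun a3 => absurd a3.2 (not_lt.2 a2)⟩
  have hlim : Tendsto (fun k : ℕ => ∫ q in A (1 / ((k : ℝ) + 1)), h q.1 q.2 ^ (n - 2) *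
      d 1 q.1 q.2 ^ 2) atTop (𝓝 0) := by
    have h3 := tendsto_setIntegral_of_antitone (μ := (volume : Measure (ℝ × ℝ)))
      (f := fun q : ℝ × ℝ => h q.1 q.2 ^ (n - 2) * d 1 q.1 q.2 ^ 2)
      (s := fun k : ℕ => A (1 / ((k : ℝ) + 1))) (fun k => hAm _) ?_ ⟨0, hf.mono_set ?_⟩
    · have h4 : ⋂ k : ℕ, A (1 / ((k : ℝ) + 1)) = ∅ := by
        ext q
        simp only [mem_iInter, mem_empty_iff_false, iff_false, not_forall]
        by_cases hq : q ∈ Near s δ' t1 t2
        · have hp := C.pos q.1 q.2 (hND hq)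
          obtain ⟨k, hk⟩ := exists_nat_one_div_lt hp
          refine ⟨k, fun h5 => ?_⟩
          have := ((hAe _ q).1 h5).2
          linarith
        · exact ⟨0, fun h5 => hq ((hAe _ q).1 h5).1⟩
      rw [h4] at h3
      simpa using h3
    · intro k l hkl q hq
      rw [hAe] at hq ⊢
      refine ⟨hq.1, hq.2.trans ?_⟩
      apply one_div_le_one_div_of_le (by positivity)
      have : (k : ℝ) ≤ l := by exact_mod_cast hkl
      linarith
    · intro q hq
      exact ((hAe _ q).1 hq).1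
  have hw : (0 : ℝ) < 2 ^ (n - 2) := by positivity
  have hev := hlim.eventually (gt_mem_nhds (by positivity : (0 : ℝ) < η / 2 ^ (n - 2)))
  obtain ⟨k, hk⟩ := hev.exists
  obtain ⟨ε0, hε0⟩ : ∃ ε0 : ℝ, ε0 = 1 / ((k : ℝ) + 1) := ⟨_, rfl⟩
  have hε00 : 0 < ε0 := by rw [hε0]; positivity
  rw [← hε0] at hk
  obtain ⟨f, hfd⟩ : ∃ f : ℝ → ℝ → ℝ, f = fun x t => (A ε0).indicator
    (fun q : ℝ × ℝ => h q.1 q.2 ^ (n - 2) * d 1 q.1 q.2 ^ 2) (x, t) := ⟨_, rfl⟩
  have hfi : IntegrableOn (fun q : ℝ × ℝ => f q.1 q.2) (Near s δ' t1 t2) := by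
    rw [hfd]
    exact hf.indicator (hAm ε0)
  obtain ⟨s1, s2, s3⟩ := sec C.s_cont h1 h12 h2 hfi
  refine ⟨ε0, hε00, fun t => 2 ^ (n - 2) * ∫ x in Ioo (s t) (s t + δ'), f x t, s2.const_mul _,
    ?_, ?_⟩
  · rw [intervalIntegral.integral_const_mul, s3]
    have e1 : ∫ q in Near s δ' t1 t2, f q.1 q.2 = ∫ q in A ε0, h q.1 q.2 ^ (n - 2) *
        d 1 q.1 q.2 ^ 2 := by
      rw [hfd]
      simp only [Prod.mk.eta]
      rw [setIntegral_indicator (hAm ε0)]
      congr 2
      ext q
      constructor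
      · exact fun h5 => h5.2
      · exact fun h5 => ⟨((hAe _ q).1 h5).1, h5⟩
    rw [e1]
    rw [lt_div_iff₀ hw] at hk
    linarith
  · intro S1 hS1 ε hε hεε0
    filter_upwards [s1] with t hti' hti
    have hfi' := hti' hti
    have hlev : ∀ x ∈ lev s h S1 ε t, s t < x ∧ x ≤ S1 ∧ ε / 2 ≤ h x t ∧ h x t ≤ ε := by
      intro x hx
      obtain ⟨a1, a2, a3⟩ := hx
      have a4 : s t < x := by
        by_contra hcon
        rw [Hx_of_le C (by linarith [hti.1]) (by linarith [hti.2]) (not_lt.1 hcon)] at a2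
        linarith
      rw [Hx_of_lt a4] at a2 a3
      exact ⟨a4, a1.2, a2, a3⟩
    have hcl : IsCompact (lev s h S1 ε t) := by
      have e1 : lev s h S1 ε t = Icc (s t) S1 ∩ (fun x => Hx s h x t) ⁻¹' Icc (ε / 2) ε := by
        ext x
        simp only [lev, mem_ofPred_eq, mem_inter_iff, mem_preimage, mem_Icc]
      rw [e1]
      refine isCompact_Icc.of_isClosed_subset (ContinuousOn.preimage_isClosed_of_isClosed ?_
        isClosed_Icc isClosed_Icc) inter_subset_left
      intro x hx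
      have hδδ : 0 < δ := by
        have := hS1 t hti
        by_contra hcon
        rcases le_or_gt S1 (s t) with h5 | h5
        · have h6 := C.zero t (by linarith [hti.1]) (by linarith [hti.2])
          have h7 : x = s t := le_antisymm (hx.2.trans h5) hx.1
          linarith [hx.1, hx.2, h7, not_lt.1 hcon]
        · linarith [not_lt.1 hcon]
      exact (h_cont_x C hδδ ⟨by linarith [hti.1], by linarith [hti.2],
        by linarith [hx.2, hS1 t hti]⟩).continuousWithinAt
    have hsub : lev s h S1 ε t ⊆ Ioo (s t) (s t + δ') := by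
      intro x hx
      obtain ⟨a1, a2, _, _⟩ := hlev x hx
      exact ⟨a1, lt_of_le_of_lt a2 (hS1 t hti)⟩
    have e2 : ∀ x ∈ lev s h S1 ε t, ε ^ (n - 2) * d 1 x t ^ 2 ≤ 2 ^ (n - 2) * f x t := by
      intro x hx
      obtain ⟨a1, a2, a3, a4⟩ := hlev x hx
      have hin : (x, t) ∈ A ε0 := by
        rw [hAe]
        exact ⟨⟨hti.1, hti.2, a1, lt_of_le_of_lt a2 (hS1 t hti)⟩, by simp only; linarith⟩
      rw [hfd]
      simp only
      rw [indicator_of_mem hin]
      simp only
      have hp : 0 < h x t := by linarith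
      have e3 : ε ^ (n - 2) ≤ 2 ^ (n - 2) * h x t ^ (n - 2) := by
        rw [← Real.mul_rpow (by norm_num) hp.le]
        exact Real.rpow_le_rpow hε.le (by linarith) (by linarith)
      have := mul_le_mul_of_nonneg_right e3 (sq_nonneg (d 1 x t))
      linarith
    have e4 : ε ^ (n - 2) * ∫ x in lev s h S1 ε t, d 1 x t ^ 2 ≤
        ∫ x in lev s h S1 ε t, 2 ^ (n - 2) * f x t := by
      rw [← integral_const_mul]
      apply setIntegral_mono_on _ _ hcl.measurableSet e2
      · apply Integrable.const_mul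
        refine ContinuousOn.integrableOn_compact hcl ?_
        apply ContinuousOn.pow
        intro x hx
        obtain ⟨a1, a2, _, _⟩ := hlev x hx
        exact (C.d_succ 1 (by norm_num) x t ⟨by linarith [hti.1], by linarith [hti.2], a1,
          by linarith [hS1 t hti]⟩).continuousAt.continuousWithinAt
      · exact (hfi'.mono_set hsub).const_mul _
    refine e4.trans ?_
    rw [integral_const_mul]
    apply mul_le_mul_of_nonneg_left _ hw.le
    apply setIntegral_mono_set hfi'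
    · refine Eventually.of_forall fun x => ?_
      show 0 ≤ f x t
      rw [hfd]
      apply indicator_nonneg
      intro q hq
      have := C.pos q.1 q.2 (hND ((hAe _ q).1 hq).1)
      positivity
    · exact LE.le.eventuallyLE hsub

/-- tameness near the contact line for times in `[t₁, t₂]` -/
def TameOn (n : ℝ) (s : ℝ → ℝ) (h : ℝ → ℝ → ℝ) (d : ℕ → ℝ → ℝ → ℝ) (δ1 t1 t2 : ℝ) : Prop :=
  (∃ c : ℝ, ∀ x y t, (x, t) ∈ Near s δ1 t1 t2 → (y, t) ∈ Near s δ1 t1 t2 → x ≤ y →
    h x t ≤ c * h y t) ∨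
  (∃ k : ℝ → ℝ, IntegrableOn (fun t => k t ^ 2) (Icc t1 t2) ∧
    ∀ x t, (x, t) ∈ Near s δ1 t1 t2 → |d 1 x t| ≤ k t) ∨
  IntegrableOn (fun q : ℝ × ℝ => h q.1 q.2 ^ (n - 4) * d 1 q.1 q.2 ^ 2) (Near s δ1 t1 t2) ∨
  ((∃ k : ℝ → ℝ, IntegrableOn k (Icc t1 t2) ∧
    ∀ x t, (x, t) ∈ Near s δ1 t1 t2 → h x t ^ (n - 1) ≤ k t * ∫ y in (s t)..x, h y t) ∧
    IntegrableOn (fun q : ℝ × ℝ => h q.1 q.2 ^ (n - 2) * d 1 q.1 q.2 ^ 2) (Near s δ1 t1 t2))

theorem TameOn.mono {δ1 t1 t2 t1' t2' : ℝ} (H : TameOn n s h d δ1 t1 t2) (h1 : t1 ≤ t1')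
    (h2 : t2' ≤ t2) : TameOn n s h d δ1 t1' t2' := by
  have hsub : Near s δ1 t1' t2' ⊆ Near s δ1 t1 t2 := by
    rintro q ⟨a1, a2, a3, a4⟩
    exact ⟨h1.trans a1, a2.trans h2, a3, a4⟩
  rcases H with ⟨c, H⟩ | ⟨k, H1, H2⟩ | H | ⟨⟨k, H1, H2⟩, H3⟩
  · exact Or.inl ⟨c, fun x y t hx hy hxy => H x y t (hsub hx) (hsub hy) hxy⟩
  · exact Or.inr (Or.inl ⟨k, H1.mono_set (Icc_subset_Icc h1 h2), fun x t hx => H2 x t (hsub hx)⟩)
  · exact Or.inr (Or.inr (Or.inl (H.mono_set hsub)))
  · exact Or.inr (Or.inr (Or.inr ⟨⟨k, H1.mono_set (Icc_subset_Icc h1 h2),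
      fun x t hx => H2 x t (hsub hx)⟩, H3.mono_set hsub⟩))

theorem conv_v {t1 t2 : ℝ} {φ : ℝ → ℝ → ℝ} (H : ∃ v : ℝ → ℝ, IntervalIntegrable v volume t1 t2 ∧
    ∀ η : ℝ, 0 < η → ∃ ε0 : ℝ, 0 < ε0 ∧ ∀ ε : ℝ, 0 < ε → ε < ε0 → ∀ᵐ t, t ∈ Icc t1 t2 →
      φ ε t ≤ η * v t) :
    ∀ η : ℝ, 0 < η → ∃ ε0 : ℝ, 0 < ε0 ∧ ∀ ε : ℝ, 0 < ε → ε < ε0 → ∃ v : ℝ → ℝ,
      IntervalIntegrable v volume t1 t2 ∧ ∫ t in t1..t2, v t ≤ η ∧ ∀ᵐ t, t ∈ Icc t1 t2 →
      φ ε t ≤ v t := by
  obtain ⟨v, hv, H⟩ := H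
  intro η hη
  obtain ⟨V, hV⟩ : ∃ V, V = |∫ t in t1..t2, v t| := ⟨_, rfl⟩
  have hV0 : 0 ≤ V := by rw [hV]; positivity
  obtain ⟨ε0, h1, h2⟩ := H (η / (V + 1)) (by positivity)
  refine ⟨ε0, h1, fun ε hε hε0 => ⟨fun t => η / (V + 1) * v t, hv.const_mul _, ?_, h2 ε hε hε0⟩⟩
  rw [intervalIntegral.integral_const_mul]
  have e1 : η / (V + 1) * ∫ t in t1..t2, v t ≤ η / (V + 1) * V := by
    apply mul_le_mul_of_nonneg_left _ (by positivity)
    rw [hV]
    exact le_abs_self _
  refine e1.trans ?_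
  rw [div_mul_eq_mul_div, div_le_iff₀ (by positivity)]
  nlinarith

theorem rpow_le_self' {ε n : ℝ} (hn : 3 ≤ n) (h0 : 0 < ε) (h1 : ε < 1) : ε ^ (n - 2) ≤ ε := by
  have := Real.rpow_le_rpow_of_exponent_ge h0 h1.le (by linarith : (1 : ℝ) ≤ n - 2)
  rwa [Real.rpow_one] at this

theorem local_const (hn : 3 ≤ n) (C : Classical n δ T s h d ht) {t1 t2 δ1 x0 : ℝ} (h1 : 0 < t1)
    (h12 : t1 ≤ t2) (h2 : t2 < T) (hδ1 : 0 < δ1) (hδ : δ1 ≤ δ)
    (hdiss : IntegrableOn (fun q : ℝ × ℝ => dss n h d q.1 q.2) (Near s δ t1 t2))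
    (H : TameOn n s h d δ1 t1 t2) (hx0 : ∀ t ∈ Icc t1 t2, |s t - x0| < δ1 / 8) : s t1 = s t2 := by
  have hδ0 : 0 < δ := by linarith
  obtain ⟨S0, hS0⟩ : ∃ S0, S0 = x0 - δ1 / 4 := ⟨_, rfl⟩
  obtain ⟨S1, hS1⟩ : ∃ S1, S1 = x0 + δ1 / 4 := ⟨_, rfl⟩
  obtain ⟨S2, hS2⟩ : ∃ S2, S2 = x0 + 3 * δ1 / 4 := ⟨_, rfl⟩
  have hst : ∀ t ∈ Icc t1 t2, x0 - δ1 / 8 < s t ∧ s t < x0 + δ1 / 8 := by
    intro t hti
    have := abs_lt.1 (hx0 t hti)
    constructor <;> linarith [this.1, this.2]
  have hpos : ∀ t ∈ Icc t1 t2, 0 < t := fun t hti => lt_of_lt_of_le h1 hti.1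
  have hlt : ∀ t ∈ Icc t1 t2, t < T := fun t hti => lt_of_le_of_lt hti.2 h2
  have R : Rect s δ T S0 S1 t1 t2 := ⟨by linarith, h12, hpos, hlt,
    fun t hti => by linarith [(hst t hti).1], fun t hti => by linarith [(hst t hti).1]⟩
  have R2 : Rect s δ T S0 S2 t1 t2 := ⟨by linarith, h12, hpos, hlt,
    fun t hti => by linarith [(hst t hti).1], fun t hti => by linarith [(hst t hti).1]⟩
  have hsS : ∀ t ∈ Icc t1 t2, s t < S1 := fun t hti => by linarith [(hst t hti).2]
  obtain ⟨M, hM1, hM⟩ : ∃ M, 1 ≤ M ∧ ∀ t ∈ Icc t1 t2, ∀ x ∈ Icc S0 S2, Hx s h x t ≤ M := by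
    have hk := (isCompact_Icc (a := S0) (b := S2)).prod (isCompact_Icc (a := t1) (b := t2))
    obtain ⟨M, hM⟩ := hk.exists_bound_of_continuousOn
      (f := fun p : ℝ × ℝ => Hx s h p.1 p.2)
      (fun p hp => (Hx_cont C hδ0 (R2.mem hp.1 hp.2)).continuousWithinAt)
    exact ⟨max 1 M, le_max_left _ _, fun t hti x hx =>
      ((le_abs_self _).trans (hM (x, t) ⟨hx, hti⟩)).trans (le_max_right _ _)⟩
  have hM0 : 0 < M := by linarith
  have hMh : ∀ t ∈ Icc t1 t2, ∀ x, s t < x → x ≤ S2 → h x t ≤ M := by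
    intro t hti x hx1 hx2
    rw [← Hx_of_lt (h := h) hx1]
    exact hM t hti x ⟨by linarith [(hst t hti).1], hx2⟩
  have hDom : ∀ t ∈ Icc t1 t2, ∀ x, s t < x → x ≤ S2 → (x, t) ∈ Dom s δ T := fun t hti x hx1 hx2 =>
    ⟨hpos t hti, hlt t hti, hx1, by linarith [(hst t hti).1]⟩
  obtain ⟨hDa, hDt, -⟩ := sec C.s_cont h1 h12 h2 (f := fun x t => dss n h d x t) hdiss
  have hD0 : ∀ t ∈ Icc t1 t2, 0 ≤ Dt n δ s h d t := by
    intro t hti
    unfold Dt
    apply setIntegral_nonneg measurableSet_Ioo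
    intro x hx
    unfold dss
    have := C.pos x t ⟨hpos t hti, hlt t hti, hx.1, hx.2⟩
    positivity
  have hm0 : ∀ t ∈ Icc t1 t2, ∀ x ∈ Ioc (s t) S1, 0 ≤ ∫ y in (s t)..x, Hx s h y t := by
    intro t hti x hx
    apply intervalIntegral.integral_nonneg hx.1.le
    intro y hy
    exact Hx_nonneg C ⟨hpos t hti, hlt t hti, by linarith [hy.2, hx.2, (hst t hti).1]⟩
  have hpre : ∀ ρ : ℝ, 0 < ρ → ∀ a : ℝ, 0 < a → a < 1 → ∀ t ∈ Icc t1 t2,
      0 ≤ ρ * (Dt n δ s h d t + 1) * (Real.log (1 / a) + 1) := by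
    intro ρ hρ a ha ha1 t hti
    have := hD0 t hti
    have h3 : 0 ≤ Real.log (1 / a) := by
      apply Real.log_nonneg
      rw [le_div_iff₀ ha]
      linarith
    positivity
  apply core hn C hδ0 R hsS hM0.le (fun t hti x hx => hM t hti x ⟨hx.1, by linarith [hx.2]⟩)
    hDa hDt hD0
  · -- height bounds
    intro ρ hρ
    rcases H with ⟨c, H⟩ | ⟨k, H1, H2⟩ | H | ⟨⟨k, H1, H2⟩, H3⟩
    · -- quasi-monotone
      obtain ⟨Cq, hCq⟩ : ∃ Cq, Cq = max 1 c := ⟨_, rfl⟩
      have hCq1 : 1 ≤ Cq := by rw [hCq]; exact le_max_left _ _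
      have hRR : 0 < δ1 / 4 := by positivity
      obtain ⟨C2, hC20, hC2⟩ := height_C hn hRR hM1 hCq1
      obtain ⟨k0, hk0⟩ : ∃ k0, k0 = max 1 (C2 / ρ) := ⟨_, rfl⟩
      have hk01 : 1 ≤ k0 := by rw [hk0]; exact le_max_left _ _
      have hk02 : C2 / ρ ≤ k0 := by rw [hk0]; exact le_max_right _ _
      refine ⟨fun _ => k0, intervalIntegrable_const, fun _ _ => by linarith, ?_⟩
      intro a ha ha1
      filter_upwards [hDa] with t hDi hti x hx
      have hq : ∀ x y, s t < x → x ≤ y → y < s t + δ1 → h x t ≤ Cq * h y t := by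
        intro x y hx1 hxy hy
        have e1 := H x y t ⟨hti.1, hti.2, hx1, by linarith⟩ ⟨hti.1, hti.2, by linarith, hy⟩ hxy
        have e2 : 0 < h y t := C.pos y t ⟨hpos t hti, hlt t hti, by linarith, by linarith⟩
        have e3 : c * h y t ≤ Cq * h y t :=
          mul_le_mul_of_nonneg_right (by rw [hCq]; exact le_max_right _ _) e2.le
        linarith
      have key := hC2 δ T s h d ht C t (3 * δ1 / 8) δ1 (hpos t hti) (hlt t hti) hδ0 (by linarith)
        hδ (fun x hx1 hx2 => hMh t hti x hx1 (by linarith [(hst t hti).2])) hq (hDi hti) a k0 ha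
        ha1 hk01 x hx.1 (by linarith [hx.2, (hst t hti).1])
      refine key.trans ?_
      apply mul_le_mul_of_nonneg_right _ (by have := hm0 t hti x hx; positivity)
      have e1 : C2 / k0 ^ 4 ≤ ρ := by
        rw [div_le_iff₀ hρ] at hk02
        rw [div_le_iff₀ (by positivity)]
        have e2 : k0 ≤ k0 ^ 4 := by
          calc k0 = k0 ^ 1 := (pow_one _).symm
            _ ≤ k0 ^ 4 := pow_le_pow_right₀ hk01 (by norm_num)
        have e3 := mul_le_mul_of_nonneg_left e2 hρ.le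
        linarith
      have h3 : 0 ≤ Real.log (1 / a) := by
        apply Real.log_nonneg
        rw [le_div_iff₀ ha]
        linarith
      have e4 : 0 ≤ (Dt n δ s h d t + 1) * (Real.log (1 / a) + 1) := by
        have := hD0 t hti
        positivity
      have e5 := mul_le_mul_of_nonneg_right e1 e4
      have e6 : C2 * (Dt n δ s h d t + 1) * (Real.log (1 / a) + 1) / k0 ^ 4 =
          C2 / k0 ^ 4 * ((Dt n δ s h d t + 1) * (Real.log (1 / a) + 1)) := by ring
      rw [e6]
      linarith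
    · -- Lipschitz
      refine ⟨fun t => M ^ (n - 3) * (2 * (1 + k t ^ 2)), ?_, ?_, ?_⟩
      · have e1 : IntervalIntegrable (fun t => k t ^ 2) volume t1 t2 :=
          (intervalIntegrable_iff_integrableOn_Ioc_of_le h12).2 (H1.mono_set Ioc_subset_Icc_self)
        exact ((intervalIntegrable_const.add e1).const_mul 2).const_mul _
      · intro t _
        positivity
      · intro a ha ha1
        refine Eventually.of_forall fun t hti x hx => ?_
        have hxδ : x < s t + δ := by linarith [hx.2, (hst t hti).1]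
        obtain ⟨c, hc0, hc1, _, hc3, hc4⟩ := half_slope C hδ0 (hpos t hti) (hlt t hti) hx.1 hxδ
        have hk : d 1 c t ≤ k t := (le_abs_self _).trans (H2 c t ⟨hti.1, hti.2, hc0, by
          linarith [hx.2, (hst t hti).1]⟩)
        have hp : 0 < h x t := C.pos x t ⟨hpos t hti, hlt t hti, hx.1, hxδ⟩
        have hm := hm0 t hti x hx
        have e1 : h x t ^ 2 ≤ 2 * (1 + k t ^ 2) * ∫ y in (s t)..x, Hx s h y t := by
          refine hc4.trans (mul_le_mul_of_nonneg_right ?_ hm)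
          nlinarith [sq_nonneg (k t - 1)]
        have e2 : h x t ^ (n - 1) = h x t ^ (n - 3) * h x t ^ 2 := by
          rw [← Real.rpow_natCast (h x t) 2, ← Real.rpow_add hp]
          congr 1
          push_cast
          ring
        have e3 : h x t ^ (n - 3) ≤ M ^ (n - 3) := Real.rpow_le_rpow hp.le
          (hMh t hti x hx.1 (by linarith [hx.2])) (by linarith)
        have e4 := hpre ρ hρ a ha ha1 t hti
        rw [e2]
        calc h x t ^ (n - 3) * h x t ^ 2
            ≤ M ^ (n - 3) * (2 * (1 + k t ^ 2) * ∫ y in (s t)..x, Hx s h y t) :=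
              mul_le_mul e3 e1 (by positivity) (by positivity)
          _ = (M ^ (n - 3) * (2 * (1 + k t ^ 2))) * ∫ y in (s t)..x, Hx s h y t := by ring
          _ ≤ (ρ * (Dt n δ s h d t + 1) * (Real.log (1 / a) + 1) +
              M ^ (n - 3) * (2 * (1 + k t ^ 2))) * ((∫ y in (s t)..x, Hx s h y t) + a) := by
              apply mul_le_mul (by linarith) (by linarith) hm
              have : 0 ≤ M ^ (n - 3) * (2 * (1 + k t ^ 2)) := by positivity
              linarith
    · -- energy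
      obtain ⟨hEa, hEt, -⟩ := sec C.s_cont h1 h12 h2
        (f := fun x t => h x t ^ (n - 4) * d 1 x t ^ 2) H
      have hE0 : ∀ t ∈ Icc t1 t2, 0 ≤ ∫ x in Ioo (s t) (s t + δ1), h x t ^ (n - 4) * d 1 x t ^ 2 := by
        intro t hti
        apply setIntegral_nonneg measurableSet_Ioo
        intro x hx
        have := C.pos x t ⟨hpos t hti, hlt t hti, hx.1, by linarith [hx.2]⟩
        positivity
      refine ⟨fun t => 8 * 2 ^ |n - 4| * ∫ x in Ioo (s t) (s t + δ1), h x t ^ (n - 4) *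
        d 1 x t ^ 2, hEt.const_mul _, ?_, ?_⟩
      · intro t hti
        have := hE0 t hti
        positivity
      · intro a ha ha1
        filter_upwards [hEa] with t hEi hti x hx
        have hxδ : x < s t + δ1 := by linarith [hx.2, (hst t hti).1]
        have key := half_energy C hδ0 (hpos t hti) (hlt t hti) hx.1 hxδ hδ (hEi hti)
        have hm := hm0 t hti x hx
        have hE := hE0 t hti
        have e4 := hpre ρ hρ a ha ha1 t hti
        refine key.trans ?_
        apply mul_le_mul (by linarith) (by linarith) hm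
        have : 0 ≤ 8 * 2 ^ |n - 4| * ∫ x in Ioo (s t) (s t + δ1), h x t ^ (n - 4) *
          d 1 x t ^ 2 := by positivity
        linarith
    · -- mass criterion
      have e1 : IntervalIntegrable (fun t => |k t|) volume t1 t2 :=
        (intervalIntegrable_iff_integrableOn_Ioc_of_le h12).2
          ((H1.mono_set Ioc_subset_Icc_self).abs)
      refine ⟨fun t => |k t|, e1, fun t _ => abs_nonneg _, ?_⟩
      intro a ha ha1
      refine Eventually.of_forall fun t hti x hx => ?_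
      have hxδ : x < s t + δ1 := by linarith [hx.2, (hst t hti).1]
      have key := H2 x t ⟨hti.1, hti.2, hx.1, hxδ⟩
      have e2 : ∫ y in (s t)..x, h y t = ∫ y in (s t)..x, Hx s h y t := by
        apply intervalIntegral.integral_congr
        intro y hy
        rw [uIcc_of_le hx.1.le] at hy
        simp only [Hx, max_eq_left hy.1]
      rw [e2] at key
      have hm := hm0 t hti x hx
      have e4 := hpre ρ hρ a ha ha1 t hti
      refine key.trans ?_
      have e5 := le_abs_self (k t)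
      calc k t * ∫ y in (s t)..x, Hx s h y t ≤ |k t| * ∫ y in (s t)..x, Hx s h y t :=
            mul_le_mul_of_nonneg_right e5 hm
        _ ≤ _ := by
            apply mul_le_mul (by linarith) (by linarith) hm
            have := abs_nonneg (k t)
            linarith
  · -- slopes on the level sets
    have hlev : ∀ ε : ℝ, 0 < ε → ∀ t ∈ Icc t1 t2, ∀ x ∈ lev s h S1 ε t,
        s t < x ∧ x ≤ S1 ∧ ε / 2 ≤ h x t ∧ h x t ≤ ε := by
      intro ε hε t hti x hx
      obtain ⟨a1, a2, a3⟩ := hx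
      have a4 : s t < x := by
        by_contra hcon
        rw [Hx_of_le C (hpos t hti) (hlt t hti) (not_lt.1 hcon)] at a2
        linarith
      rw [Hx_of_lt a4] at a2 a3
      exact ⟨a4, a1.2, a2, a3⟩
    obtain ⟨len, hlen⟩ : ∃ len, len = S1 - S0 := ⟨_, rfl⟩
    have hlen0 : 0 < len := by linarith
    have hint : ∀ ε : ℝ, 0 < ε → ∀ t ∈ Icc t1 t2, ∀ B : ℝ, 0 ≤ B →
        (∀ x ∈ lev s h S1 ε t, d 1 x t ^ 2 ≤ B) →
        ∫ x in lev s h S1 ε t, d 1 x t ^ 2 ≤ B * len := by
      intro ε hε t hti B hB hb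
      obtain ⟨m1, m2⟩ := lev_meas s h (ε := ε) (hsS t hti).le
      have e1 := norm_setIntegral_le_of_norm_le_const (μ := volume) m1
        (f := fun x => d 1 x t ^ 2) (C := B) (fun x hx => by
          rw [Real.norm_eq_abs, abs_of_nonneg (sq_nonneg _)]
          exact hb x hx)
      have e2 : B * volume.real (lev s h S1 ε t) ≤ B * len := by
        apply mul_le_mul_of_nonneg_left _ hB
        refine m2.trans ?_
        rw [hlen]
        linarith [(hst t hti).1]
      exact ((le_abs_self _).trans e1).trans e2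
    rcases H with ⟨c, H⟩ | ⟨k, H1, H2⟩ | H | ⟨⟨k, H1, H2⟩, H3⟩
    · -- quasi-monotone
      obtain ⟨Cq, hCq⟩ : ∃ Cq, Cq = max 1 c := ⟨_, rfl⟩
      have hCq1 : 1 ≤ Cq := by rw [hCq]; exact le_max_left _ _
      have hCq0 : 0 < Cq := by linarith
      have hRR : 0 < δ1 / 4 := by positivity
      obtain ⟨C1, hC1⟩ : ∃ C1, C1 = 8 * (24 * Cq) ^ 3 := ⟨_, rfl⟩
      have hC10 : 0 < C1 := by rw [hC1]; positivity
      obtain ⟨Q2, hQ2⟩ : ∃ Q2, Q2 = (2 * Cq) ^ (n - 3) := ⟨_, rfl⟩
      have hQ20 : 0 < Q2 := by rw [hQ2]; positivity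
      obtain ⟨A, hA⟩ : ∃ A, A = 1 + (24 * Cq * M / (δ1 / 4)) ^ 5 := ⟨_, rfl⟩
      have hA0 : 0 < A := by rw [hA]; positivity
      apply conv_v
      refine ⟨fun t => Dt n δ s h d t + 1, hDt.add intervalIntegrable_const, ?_⟩
      intro η hη
      obtain ⟨ε1, hε1, hlogs⟩ := eps_log (c := 2 * Cq * M) (η := η / (2 * len * C1 * Q2))
        (by positivity) (by positivity)
      refine ⟨min (min 1 (η / (2 * len * A))) ε1, by positivity, ?_⟩
      intro ε hε hε0
      have hεa : ε < 1 := lt_of_lt_of_le hε0 ((min_le_left _ _).trans (min_le_left _ _))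
      have hεb : ε < η / (2 * len * A) :=
        lt_of_lt_of_le hε0 ((min_le_left _ _).trans (min_le_right _ _))
      have hεc : ε < ε1 := lt_of_lt_of_le hε0 (min_le_right _ _)
      have hlg := hlogs ε hε hεc
      filter_upwards [hDa] with t hDi hti
      have hD := hD0 t hti
      have hq : ∀ x y, s t < x → x ≤ y → y < s t + δ1 → h x t ≤ Cq * h y t := by
        intro x y hx1 hxy hy
        have e1 := H x y t ⟨hti.1, hti.2, hx1, by linarith⟩ ⟨hti.1, hti.2, by linarith, hy⟩ hxy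
        have e2 : 0 < h y t := C.pos y t ⟨hpos t hti, hlt t hti, by linarith, by linarith⟩
        have e3 : c * h y t ≤ Cq * h y t :=
          mul_le_mul_of_nonneg_right (by rw [hCq]; exact le_max_right _ _) e2.le
        linarith
      have hlogp : 0 ≤ Real.log (1 + 2 * Cq * M / ε) := by
        apply Real.log_nonneg
        have : 0 ≤ 2 * Cq * M / ε := by positivity
        linarith
      have hbd : ∀ x ∈ lev s h S1 ε t, d 1 x t ^ 2 ≤ A + C1 * (Dt n δ s h d t + 1) *
          (ε / (2 * Cq)) ^ (3 - n) * Real.log (1 + 2 * Cq * M / ε) := by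
        intro x hx
        obtain ⟨a1, a2, a3, a4⟩ := hlev ε hε t hti x hx
        have hp : 0 < h x t := by linarith
        have key := slope_C hn C (hpos t hti) (hlt t hti) (ω := 3 * δ1 / 8) hRR (by linarith) hδ
          (fun x hx1 hx2 => hMh t hti x hx1 (by linarith [(hst t hti).2])) hCq1 hq (hDi hti) a1
          (by linarith [(hst t hti).1])
        rw [← hC1] at key
        have e1 : (h x t / Cq) ^ (3 - n) ≤ (ε / (2 * Cq)) ^ (3 - n) := by
          apply Real.rpow_le_rpow_of_nonpos (by positivity) _ (by linarith)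
          rw [div_le_div_iff₀ (by positivity) hCq0]
          have := mul_le_mul_of_nonneg_right a3 hCq0.le
          linarith
        have e2 : Real.log (1 + Cq * M / h x t) ≤ Real.log (1 + 2 * Cq * M / ε) := by
          apply Real.log_le_log (by positivity)
          have : Cq * M / h x t ≤ 2 * Cq * M / ε := by
            rw [div_le_div_iff₀ hp hε]
            have : Cq * M * ε ≤ Cq * M * (2 * h x t) :=
              mul_le_mul_of_nonneg_left (by linarith) (by positivity)
            linarith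
          linarith
        have e3 : 0 ≤ Real.log (1 + Cq * M / h x t) := by
          apply Real.log_nonneg
          have : 0 ≤ Cq * M / h x t := by positivity
          linarith
        have e4 : C1 * (Dt n δ s h d t + 1) * (h x t / Cq) ^ (3 - n) *
            Real.log (1 + Cq * M / h x t) ≤ C1 * (Dt n δ s h d t + 1) *
            (ε / (2 * Cq)) ^ (3 - n) * Real.log (1 + 2 * Cq * M / ε) := by
          apply mul_le_mul _ e2 e3 (by positivity)
          exact mul_le_mul_of_nonneg_left e1 (by positivity)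
        have e5 := sq_le_fifth (abs_nonneg (d 1 x t))
        rw [sq_abs] at e5
        rw [hA]
        linarith
      have hB0 : 0 ≤ A + C1 * (Dt n δ s h d t + 1) *
          (ε / (2 * Cq)) ^ (3 - n) * Real.log (1 + 2 * Cq * M / ε) := by positivity
      have e6 := hint ε hε t hti _ hB0 hbd
      have hεn : 0 < ε ^ (n - 2) := Real.rpow_pos_of_pos hε _
      have e7 := mul_le_mul_of_nonneg_left e6 hεn.le
      refine e7.trans ?_
      have e8 : ε ^ (n - 2) * (ε / (2 * Cq)) ^ (3 - n) = ε * Q2 := by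
        rw [Real.div_rpow hε.le (by positivity), hQ2]
        have e9 : (2 * Cq) ^ (3 - n) = ((2 * Cq) ^ (n - 3))⁻¹ := by
          rw [← Real.rpow_neg (by positivity)]
          congr 1
          ring
        rw [e9, div_inv_eq_mul, ← mul_assoc, ← Real.rpow_add hε]
        congr 1
        have : n - 2 + (3 - n) = 1 := by ring
        rw [this, Real.rpow_one]
      have e10 : ε ^ (n - 2) * ((A + C1 * (Dt n δ s h d t + 1) * (ε / (2 * Cq)) ^ (3 - n) *
          Real.log (1 + 2 * Cq * M / ε)) * len) = len * A * ε ^ (n - 2) +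
          len * C1 * Q2 * (Dt n δ s h d t + 1) * (ε * Real.log (1 + 2 * Cq * M / ε)) := by
        calc _ = len * A * ε ^ (n - 2) + len * C1 * (Dt n δ s h d t + 1) *
            (ε ^ (n - 2) * (ε / (2 * Cq)) ^ (3 - n)) * Real.log (1 + 2 * Cq * M / ε) := by ring
          _ = _ := by rw [e8]; ring
      rw [e10]
      have e11 : len * A * ε ^ (n - 2) ≤ η / 2 := by
        have := rpow_le_self' hn hε hεa
        rw [lt_div_iff₀ (by positivity)] at hεb
        have h9 : len * A * ε ^ (n - 2) ≤ len * A * ε :=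
          mul_le_mul_of_nonneg_left this (by positivity)
        linarith
      have e12 : len * C1 * Q2 * (Dt n δ s h d t + 1) * (ε * Real.log (1 + 2 * Cq * M / ε)) ≤
          η / 2 * (Dt n δ s h d t + 1) := by
        have := mul_le_mul_of_nonneg_left hlg
          (by positivity : 0 ≤ len * C1 * Q2 * (Dt n δ s h d t + 1))
        refine this.trans (le_of_eq ?_)
        field_simp
      have e13 : η / 2 ≤ η / 2 * (Dt n δ s h d t + 1) :=
        le_mul_of_one_le_right (by positivity) (by linarith)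
      linarith
    · -- Lipschitz
      have e1 : IntervalIntegrable (fun t => k t ^ 2) volume t1 t2 :=
        (intervalIntegrable_iff_integrableOn_Ioc_of_le h12).2 (H1.mono_set Ioc_subset_Icc_self)
      apply conv_v
      refine ⟨fun t => k t ^ 2, e1, ?_⟩
      intro η hη
      refine ⟨min 1 (η / len), by positivity, ?_⟩
      intro ε hε hε0
      have hεa : ε < 1 := lt_of_lt_of_le hε0 (min_le_left _ _)
      have hεb : ε < η / len := lt_of_lt_of_le hε0 (min_le_right _ _)
      refine Eventually.of_forall fun t hti => ?_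
      have e6 := hint ε hε t hti (k t ^ 2) (sq_nonneg _) (fun x hx => by
        obtain ⟨a1, a2, a3, a4⟩ := hlev ε hε t hti x hx
        have := H2 x t ⟨hti.1, hti.2, a1, by linarith [(hst t hti).1]⟩
        rw [← sq_abs (d 1 x t)]
        exact pow_le_pow_left₀ (abs_nonneg _) this 2)
      have hεn : 0 < ε ^ (n - 2) := Real.rpow_pos_of_pos hε _
      have e7 := rpow_le_self' hn hε hεa
      rw [lt_div_iff₀ hlen0] at hεb
      calc ε ^ (n - 2) * ∫ x in lev s h S1 ε t, d 1 x t ^ 2 ≤ ε ^ (n - 2) * (k t ^ 2 * len) :=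
            mul_le_mul_of_nonneg_left e6 hεn.le
        _ ≤ ε * (k t ^ 2 * len) := mul_le_mul_of_nonneg_right e7 (by positivity)
        _ = (ε * len) * k t ^ 2 := by ring
        _ ≤ η * k t ^ 2 := mul_le_mul_of_nonneg_right hεb.le (sq_nonneg _)
    · -- energy
      obtain ⟨hEa, hEt, -⟩ := sec C.s_cont h1 h12 h2
        (f := fun x t => h x t ^ (n - 4) * d 1 x t ^ 2) H
      obtain ⟨w, hw⟩ : ∃ w : ℝ, w = 2 ^ |n - 4| := ⟨_, rfl⟩
      have hw0 : 0 < w := by rw [hw]; positivity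
      apply conv_v
      refine ⟨fun t => ∫ x in Ioo (s t) (s t + δ1), h x t ^ (n - 4) * d 1 x t ^ 2, hEt, ?_⟩
      intro η hη
      refine ⟨min 1 (η / w), by positivity, ?_⟩
      intro ε hε hε0
      have hεa : ε < 1 := lt_of_lt_of_le hε0 (min_le_left _ _)
      have hεb : ε < η / w := lt_of_lt_of_le hε0 (min_le_right _ _)
      rw [lt_div_iff₀ hw0] at hεb
      filter_upwards [hEa] with t hEi hti
      have hE0 : 0 ≤ ∫ x in Ioo (s t) (s t + δ1), h x t ^ (n - 4) * d 1 x t ^ 2 := by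
        apply setIntegral_nonneg measurableSet_Ioo
        intro x hx
        have := C.pos x t ⟨hpos t hti, hlt t hti, hx.1, by linarith [hx.2]⟩
        positivity
      have hcl : IsCompact (lev s h S1 ε t) := by
        have e1 : lev s h S1 ε t = Icc (s t) S1 ∩ (fun x => Hx s h x t) ⁻¹' Icc (ε / 2) ε := by
          ext x
          simp only [lev, mem_ofPred_eq, mem_inter_iff, mem_preimage, mem_Icc]
        rw [e1]
        exact isCompact_Icc.of_isClosed_subset
          (((Hx_contOn C hδ0 R hti).mono (Icc_subset_Icc_left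
            (R.left t hti).le)).preimage_isClosed_of_isClosed isClosed_Icc isClosed_Icc)
          inter_subset_left
      have hsub : lev s h S1 ε t ⊆ Ioo (s t) (s t + δ1) := by
        intro x hx
        obtain ⟨a1, a2, a3, a4⟩ := hlev ε hε t hti x hx
        exact ⟨a1, by linarith [(hst t hti).1]⟩
      have hεn : ε ^ (n - 2) = ε ^ 2 * ε ^ (n - 4) := by
        rw [← Real.rpow_natCast ε 2, ← Real.rpow_add hε]
        congr 1
        push_cast
        ring
      have e2 : ∀ x ∈ lev s h S1 ε t, ε ^ (n - 2) * d 1 x t ^ 2 ≤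
          ε * w * (h x t ^ (n - 4) * d 1 x t ^ 2) := by
        intro x hx
        obtain ⟨a1, a2, a3, a4⟩ := hlev ε hε t hti x hx
        have hp : 0 < h x t := by linarith
        have e3 : ε ^ (n - 4) ≤ w * h x t ^ (n - 4) := by
          rw [hw]
          rcases le_total 4 n with h4 | h4
          · rw [abs_of_nonneg (by linarith), ← Real.mul_rpow (by norm_num) hp.le]
            exact Real.rpow_le_rpow hε.le (by linarith) (by linarith)
          · have e1 : ε ^ (n - 4) ≤ h x t ^ (n - 4) :=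
              Real.rpow_le_rpow_of_nonpos hp a4 (by linarith)
            have e2 : (1 : ℝ) ≤ 2 ^ |n - 4| := Real.one_le_rpow (by norm_num) (abs_nonneg _)
            have e3 : 0 < h x t ^ (n - 4) := by positivity
            exact e1.trans (le_mul_of_one_le_left e3.le e2)
        have e4 : ε ^ 2 ≤ ε := by nlinarith
        have e5 : 0 < h x t ^ (n - 4) := by positivity
        rw [hεn]
        calc ε ^ 2 * ε ^ (n - 4) * d 1 x t ^ 2 ≤ ε * (w * h x t ^ (n - 4)) * d 1 x t ^ 2 := by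
              apply mul_le_mul_of_nonneg_right _ (sq_nonneg _)
              apply mul_le_mul e4 e3 (by positivity) hε.le
          _ = _ := by ring
      have e4 : ε ^ (n - 2) * ∫ x in lev s h S1 ε t, d 1 x t ^ 2 ≤
          ∫ x in lev s h S1 ε t, ε * w * (h x t ^ (n - 4) * d 1 x t ^ 2) := by
        rw [← integral_const_mul]
        apply setIntegral_mono_on _ _ hcl.measurableSet e2
        · apply Integrable.const_mul
          refine ContinuousOn.integrableOn_compact hcl ?_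
          apply ContinuousOn.pow
          intro x hx
          obtain ⟨a1, a2, _, _⟩ := hlev ε hε t hti x hx
          exact (C.d_succ 1 (by norm_num) x t (hDom t hti x a1
            (by linarith))).continuousAt.continuousWithinAt
        · exact ((hEi hti).mono_set hsub).const_mul _
      refine e4.trans ?_
      rw [integral_const_mul]
      have e6 : ∫ x in lev s h S1 ε t, h x t ^ (n - 4) * d 1 x t ^ 2 ≤
          ∫ x in Ioo (s t) (s t + δ1), h x t ^ (n - 4) * d 1 x t ^ 2 := by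
        apply setIntegral_mono_set (hEi hti)
        · refine (ae_restrict_iff' measurableSet_Ioo).2 (Eventually.of_forall fun x hx => ?_)
          have := C.pos x t ⟨hpos t hti, hlt t hti, hx.1, by linarith [hx.2]⟩
          show 0 ≤ h x t ^ (n - 4) * d 1 x t ^ 2
          positivity
        · exact LE.le.eventuallyLE hsub
      calc ε * w * ∫ x in lev s h S1 ε t, h x t ^ (n - 4) * d 1 x t ^ 2
          ≤ ε * w * ∫ x in Ioo (s t) (s t + δ1), h x t ^ (n - 4) * d 1 x t ^ 2 :=
            mul_le_mul_of_nonneg_left e6 (by positivity)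
        _ ≤ η * ∫ x in Ioo (s t) (s t + δ1), h x t ^ (n - 4) * d 1 x t ^ 2 :=
            mul_le_mul_of_nonneg_right hεb.le hE0
    · -- mass criterion
      intro η hη
      obtain ⟨ε0, e1, v, e2, e3, e4⟩ := small_lev hn C h1 h12 h2 hδ H3 hη
      exact ⟨ε0, e1, fun ε hε hε0 => ⟨v, e2, e3, e4 S1
        (fun t hti => by linarith [(hst t hti).1]) ε hε hε0⟩⟩

/-- the contact line does not move -/
theorem contact_fixed (hn : 3 ≤ n) (C : Classical n δ T s h d ht)
    (hdiss : IntegrableOn (fun q : ℝ × ℝ => h q.1 q.2 ^ n * d 3 q.1 q.2 ^ 2) (Dom s δ T))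
    (H : ∀ t1 t2, 0 < t1 → t1 ≤ t2 → t2 < T → ∃ δ1, 0 < δ1 ∧ δ1 ≤ δ ∧ TameOn n s h d δ1 t1 t2) :
    ∃ s0, ∀ t, 0 < t → t < T → s t = s0 := by
  have hloc : ∀ t0 ∈ Ioo 0 T, ∀ᶠ t in 𝓝 t0, s t = s t0 := by
    intro t0 ht0
    obtain ⟨r, hr⟩ : ∃ r, r = min t0 (T - t0) / 2 := ⟨_, rfl⟩
    have hr0 : 0 < r := by
      have h1 := ht0.1
      have h2 : 0 < T - t0 := by linarith [ht0.2]
      rw [hr]
      positivity
    have hr1 : r < t0 := by
      have : min t0 (T - t0) ≤ t0 := min_le_left _ _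
      linarith [ht0.1]
    have hr2 : t0 + r < T := by
      have : min t0 (T - t0) ≤ T - t0 := min_le_right _ _
      linarith [ht0.2]
    obtain ⟨δ1, hδ1, hδ, HT⟩ := H (t0 - r) (t0 + r) (by linarith) (by linarith) hr2
    have hc := contAt_s C.s_cont ht0.1 ht0.2
    rw [Metric.continuousAt_iff] at hc
    obtain ⟨τ, hτ0, hτ⟩ := hc (δ1 / 8) (by positivity)
    obtain ⟨τ', hτ'⟩ : ∃ τ', τ' = min (τ / 2) r := ⟨_, rfl⟩
    have hτ'0 : 0 < τ' := by rw [hτ']; positivity
    have hτ'1 : τ' < τ := by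
      have : τ' ≤ τ / 2 := by rw [hτ']; exact min_le_left _ _
      linarith
    have hτ'2 : τ' ≤ r := by rw [hτ']; exact min_le_right _ _
    have key : ∀ a b, t0 - τ' ≤ a → a ≤ b → b ≤ t0 + τ' → s a = s b := by
      intro a b ha hab hb
      apply local_const hn C (by linarith) hab (by linarith) hδ1 hδ _
        (HT.mono (by linarith) (by linarith)) (x0 := s t0)
      · intro t hti
        have := @hτ t (by
          rw [Real.dist_eq, abs_lt]
          constructor <;> linarith [hti.1, hti.2])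
        rwa [Real.dist_eq] at this
      · apply hdiss.mono_set
        rintro q ⟨a1, a2, a3, a4⟩
        exact ⟨by linarith, by linarith, a3, a4⟩
    have hnb : Ioo (t0 - τ') (t0 + τ') ∈ 𝓝 t0 := Ioo_mem_nhds (by linarith) (by linarith)
    filter_upwards [hnb] with t hti
    rcases le_total t t0 with h1 | h1
    · exact key t t0 hti.1.le h1 (by linarith)
    · exact (key t0 t (by linarith) h1 hti.2.le).symm
  rcases le_or_gt T 0 with hT | hT
  · exact ⟨0, fun t h1 h2 => by linarith⟩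
  refine ⟨s (T / 2), fun t h1 h2 => ?_⟩
  have hder : ∀ t ∈ Ioo 0 T, HasDerivAt s 0 t := by
    intro t hti
    exact (hasDerivAt_const t (s t)).congr_of_eventuallyEq (hloc t hti)
  have hcon : ∀ a b, 0 < a → a ≤ b → b < T → s b = s a := by
    intro a b ha hab hb
    have hc : ContinuousOn s (Icc a b) := C.s_cont.mono (fun x hx => ⟨by linarith [hx.1], by
      linarith [hx.2]⟩)
    exact constant_of_has_deriv_right_zero hc
      (fun x hx => (hder x ⟨by linarith [hx.1], by linarith [hx.2]⟩).hasDerivWithinAt) b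
      ⟨hab, le_refl _⟩
  rcases le_total t (T / 2) with h3 | h3
  · exact (hcon t (T / 2) h1 h3 (by linarith)).symm
  · exact hcon (T / 2) t (by linarith) h3 h2

end Pool.Agent.R217.TF
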