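import Pool.Agent.R217.TF.Evo

set_option autoImplicit false

namespace Pool.Agent.R217.TF

open MeasureTheory Set Filter Topology Function

variable {n δ T : ℝ} {s : ℝ → ℝ} {h : ℝ → ℝ → ℝ} {d : ℕ → ℝ → ℝ → ℝ} {ht : ℝ → ℝ → ℝ}

/-- dissipation density -/
noncomputable def dss (n : ℝ) (h : ℝ → ℝ → ℝ) (d : ℕ → ℝ → ℝ → ℝ) (x t : ℝ) : ℝ :=
  h x t ^ n * d 3 x t ^ 2

/-- dissipation at time `t` -/
noncomputable def Dt (n δ : ℝ) (s : ℝ → ℝ) (h : ℝ → ℝ → ℝ) (d : ℕ → ℝ → ℝ → ℝ) (t : ℝ) : ℝ :=
  ∫ x in Ioo (s t) (s t + δ), dss n h d x t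

/-- the level set -/
def lev (s : ℝ → ℝ) (h : ℝ → ℝ → ℝ) (S1 ε t : ℝ) : Set ℝ :=
  {x | x ∈ Icc (s t) S1 ∧ ε / 2 ≤ Hx s h x t ∧ Hx s h x t ≤ ε}

section

variable {S0 S1 t1 t2 t : ℝ}

theorem Hx_nonneg (C : Classical n δ T s h d ht) {x : ℝ} (hq : (x, t) ∈ Reg s δ T) :
    0 ≤ Hx s h x t := by
  rcases le_or_gt x (s t) with h1 | h1
  · rw [Hx_of_le C hq.1 hq.2.1 h1]
  · rw [Hx_of_lt h1]
    exact (C.pos x t ⟨hq.1, hq.2.1, h1, hq.2.2⟩).le

theorem Hx_contOn (C : Classical n δ T s h d ht) (hδ : 0 < δ) (R : Rect s δ T S0 S1 t1 t2)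
    (hti : t ∈ Icc t1 t2) : ContinuousOn (fun x => Hx s h x t) (Icc S0 S1) := fun x hx =>
  (h_cont_x C hδ (R.mem hx hti)).continuousWithinAt

/-- fundamental theorem for the logarithm of the mass -/
theorem log_mass (C : Classical n δ T s h d ht) (hδ : 0 < δ) {ε c a : ℝ} (ha : 0 < a)
    {Θ Θ' Λ : ℝ → ℝ} (K : Cut ε c Θ Θ' Λ) (R : Rect s δ T S0 S1 t1 t2) (hti : t ∈ Icc t1 t2) :
    ContinuousOn (fun x => mss s h Λ S0 x t) (Icc S0 S1) ∧
    ∫ x in S0..S1, Λ (Hx s h x t) / (mss s h Λ S0 x t + a) =
      Real.log (mss s h Λ S0 S1 t + a) - Real.log a := by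
  have hcΛ : Continuous Λ := continuous_iff_continuousAt.2 fun r => (K.dΛ r).continuousAt
  obtain ⟨g, hg⟩ : ∃ g : ℝ → ℝ, g = fun y => Λ (Hx s h (clp S0 S1 y) t) := ⟨_, rfl⟩
  have hgc : Continuous g := by
    rw [hg]
    apply hcΛ.comp
    rw [continuous_iff_continuousAt]
    intro y
    exact ContinuousAt.comp (f := clp S0 S1) (g := fun y => Hx s h y t)
      (h_cont_x C hδ (R.mem (clp_mem R.hS y) hti)) (clp_cont S0 S1).continuousAt
  have hge : ∀ x ∈ Icc S0 S1, g x = Λ (Hx s h x t) := fun x hx => by rw [hg]; simp only [clp_of_mem hx]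
  have hme : ∀ x ∈ Icc S0 S1, mss s h Λ S0 x t = ∫ y in S0..x, g y := by
    intro x hx
    unfold mss
    apply intervalIntegral.integral_congr
    intro y hy
    rw [uIcc_of_le hx.1] at hy
    exact (hge y ⟨hy.1, hy.2.trans hx.2⟩).symm
  have hd' : ∀ x, HasDerivAt (fun x => ∫ y in S0..x, g y) (g x) x := fun x =>
    intervalIntegral.integral_hasDerivAt_right (hgc.intervalIntegrable _ _)
      (hgc.stronglyMeasurableAtFilter _ _) hgc.continuousAt
  have hcm : Continuous (fun x => ∫ y in S0..x, g y) :=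
    continuous_iff_continuousAt.2 fun x => (hd' x).continuousAt
  have hp : ∀ x ∈ Icc S0 S1, 0 < (∫ y in S0..x, g y) + a := by
    intro x hx
    rw [← hme x hx]
    have : 0 ≤ mss s h Λ S0 x t := mss_nonneg K hx.1
    linarith
  constructor
  · exact hcm.continuousOn.congr hme
  · have e1 : ∫ x in S0..S1, Λ (Hx s h x t) / (mss s h Λ S0 x t + a) =
        ∫ x in S0..S1, g x / ((∫ y in S0..x, g y) + a) := by
      apply intervalIntegral.integral_congr
      intro x hx
      rw [uIcc_of_le R.hS] at hx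
      simp only [hge x hx, hme x hx]
    rw [e1, hme S1 ⟨R.hS, le_refl _⟩]
    have e2 := intervalIntegral.integral_eq_sub_of_hasDerivAt (a := S0) (b := S1)
      (f := fun x => Real.log ((∫ y in S0..x, g y) + a))
      (f' := fun x => g x / ((∫ y in S0..x, g y) + a)) ?_ ?_
    · rw [e2]
      simp
    · intro x hx
      rw [uIcc_of_le R.hS] at hx
      exact ((hd' x).add_const a).log (hp x hx).ne'
    · apply ContinuousOn.intervalIntegrable
      rw [uIcc_of_le R.hS]
      exact hgc.continuousOn.div (hcm.add continuous_const).continuousOn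
        (fun x hx => (hp x hx).ne')

theorem mass_cmp (C : Classical n δ T s h d ht) (hδ : 0 < δ) {ε c : ℝ} (hε : 0 < ε)
    {Θ Θ' Λ : ℝ → ℝ} (K : Cut ε c Θ Θ' Λ) (R : Rect s δ T S0 S1 t1 t2) (hti : t ∈ Icc t1 t2)
    {x : ℝ} (hx : x ∈ Icc (s t) S1) :
    ∫ y in (s t)..x, Hx s h y t ≤ mss s h Λ S0 x t + ε * (S1 - S0) := by
  have hl := R.left t hti
  have hcΛ : Continuous Λ := continuous_iff_continuousAt.2 fun r => (K.dΛ r).continuousAt
  have cH := Hx_contOn C hδ R hti
  have cL : ContinuousOn (fun x => Λ (Hx s h x t)) (Icc S0 S1) := hcΛ.comp_continuousOn cH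
  have i1 : IntervalIntegrable (fun x => Λ (Hx s h x t)) volume S0 (s t) := by
    apply ContinuousOn.intervalIntegrable
    rw [uIcc_of_le hl.le]
    exact cL.mono (Icc_subset_Icc_right (hx.1.trans hx.2))
  have hsub : Icc (s t) x ⊆ Icc S0 S1 := Icc_subset_Icc hl.le hx.2
  have i2 : IntervalIntegrable (fun x => Λ (Hx s h x t)) volume (s t) x := by
    apply ContinuousOn.intervalIntegrable
    rw [uIcc_of_le hx.1]
    exact cL.mono hsub
  have i3 : IntervalIntegrable (fun x => Hx s h x t) volume (s t) x := by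
    apply ContinuousOn.intervalIntegrable
    rw [uIcc_of_le hx.1]
    exact cH.mono hsub
  have e1 : mss s h Λ S0 x t = (∫ y in S0..(s t), Λ (Hx s h y t)) +
      ∫ y in (s t)..x, Λ (Hx s h y t) :=
    (intervalIntegral.integral_add_adjacent_intervals i1 i2).symm
  have e2 : 0 ≤ ∫ y in S0..(s t), Λ (Hx s h y t) :=
    intervalIntegral.integral_nonneg hl.le (fun _ _ => K.nΛ _)
  have e3 : ∫ y in (s t)..x, (Hx s h y t - ε) ≤ ∫ y in (s t)..x, Λ (Hx s h y t) := by
    apply intervalIntegral.integral_mono_on hx.1 (i3.sub intervalIntegrable_const) i2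
    intro y hy
    exact K.lΛ _ (Hx_nonneg C (R.mem (hsub hy) hti))
  rw [intervalIntegral.integral_sub i3 intervalIntegrable_const, intervalIntegral.integral_const,
    smul_eq_mul] at e3
  have e4 : (x - s t) * ε ≤ ε * (S1 - S0) := by
    have := hx.2
    nlinarith
  linarith

/-- pointwise in time estimate -/
theorem pt_est (hn : 3 ≤ n) (C : Classical n δ T s h d ht) (hδ : 0 < δ) {ε c a : ℝ} (hε : 0 < ε)
    (ha : 0 < a) (hc : 0 < c) {Θ Θ' Λ : ℝ → ℝ} (K : Cut ε c Θ Θ' Λ)
    (R : Rect s δ T S0 S1 t1 t2) (hti : t ∈ Icc t1 t2) (hsS : s t < S1)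
    (hDi : IntegrableOn (fun x => dss n h d x t) (Ioo (s t) (s t + δ)))
    {Kt : ℝ} (hKt0 : 0 ≤ Kt) (hKt : ∀ x ∈ Ioc (s t) S1, h x t ^ (n - 1) ≤
      Kt * ((∫ y in (s t)..x, Hx s h y t) + a))
    {e : ℝ} (he : ε ^ (n - 2) * ∫ x in lev s h S1 ε t, d 1 x t ^ 2 ≤ e)
    (hεa : ε * (S1 - S0) ≤ a) {M : ℝ} (hM : ∀ x ∈ Icc S0 S1, Hx s h x t ≤ M)
    {lam η : ℝ} (hlam : 0 < lam) (hη : 0 < η) :
    ∫ x in S0..S1, (|ext s h Θ (flx n h d) x t| +
      ∫ y in S0..S1, |ext s h Θ' (fun y τ => d 1 y τ * flx n h d y τ) y t|) /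
        (mss s h Λ S0 x t + a) ≤
      lam / 2 * Dt n δ s h d t + Kt / lam * (2 * Real.log ((M * (S1 - S0) + a) / a) + 2) +
      (S1 - S0) / a * (c * (η / 2 * Dt n δ s h d t + 1 / (2 * η) * e)) := by
  have hn0 : 0 < n := by linarith
  have hl := R.left t hti
  have hr := R.right t hti
  have h0t := R.pos t hti
  have htT := R.lt t hti
  have hε2 : 0 < ε / 2 := by positivity
  have hlen : 0 < S1 - S0 := by linarith
  obtain ⟨cm, hlog⟩ := log_mass C hδ ha K R hti
  have hcΘ : Continuous Θ := continuous_iff_continuousAt.2 fun r => (K.dΘ r).continuousAt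
  have hcΛ : Continuous Λ := continuous_iff_continuousAt.2 fun r => (K.dΛ r).continuousAt
  have cH := Hx_contOn C hδ R hti
  have hm0 : ∀ x ∈ Icc S0 S1, 0 ≤ mss s h Λ S0 x t := fun x hx => mss_nonneg K hx.1
  have hDom : ∀ x, s t < x → x ≤ S1 → (x, t) ∈ Dom s δ T := fun x h1 h2 =>
    ⟨h0t, htT, h1, lt_of_le_of_lt h2 hr⟩
  -- the integrable dissipation density
  obtain ⟨φ, hφ⟩ : ∃ φ : ℝ → ℝ, φ = (Ioo (s t) (s t + δ)).indicator (fun x => dss n h d x t) :=
    ⟨_, rfl⟩
  have hφi : Integrable φ := by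
    rw [hφ]
    exact hDi.integrable_indicator measurableSet_Ioo
  have hφ0 : ∀ x, 0 ≤ φ x := by
    intro x
    rw [hφ]
    apply indicator_nonneg
    intro y hy
    unfold dss
    have := C.pos y t ⟨h0t, htT, hy.1, hy.2⟩
    positivity
  have hφe : ∀ x, s t < x → x ≤ S1 → φ x = dss n h d x t := by
    intro x h1 h2
    rw [hφ, indicator_of_mem]
    exact ⟨h1, by linarith⟩
  have hφD : ∫ x, φ x = Dt n δ s h d t := by
    rw [hφ, integral_indicator measurableSet_Ioo]
    rfl
  have hφS : ∫ x in S0..S1, φ x ≤ Dt n δ s h d t := by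
    rw [intervalIntegral.integral_of_le R.hS, ← hφD]
    exact setIntegral_le_integral hφi (Eventually.of_forall hφ0)
  have hφS0 : 0 ≤ Dt n δ s h d t := by rw [← hφD]; exact integral_nonneg hφ0
  -- continuity of extended fields
  have c2 : ContinuousOn (fun y => ext s h Θ (flx n h d) y t) (Icc S0 S1) := by
    intro y hy
    exact ((ext_cont C hδ hε2 hcΘ (fun r hr => K.zΘ r hr.le) (flx_cont hn0 C)
      (R.mem hy hti)).comp (f := fun y : ℝ => (y, t)) (by fun_prop)).continuousWithinAt
  have c3 : ContinuousOn (fun y => ext s h Θ' (fun y τ => d 1 y τ * flx n h d y τ) y t)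
      (Icc S0 S1) := by
    intro y hy
    exact ((ext_cont (w := fun y τ => d 1 y τ * flx n h d y τ) C hδ hε2 K.cΘ' K.zΘ'
      (dfl_cont hn0 C) (R.mem hy hti)).comp (f := fun y : ℝ => (y, t))
        (by fun_prop)).continuousWithinAt
  have hui : uIcc S0 S1 = Icc S0 S1 := uIcc_of_le R.hS
  have hden : ∀ x ∈ Icc S0 S1, 0 < mss s h Λ S0 x t + a := fun x hx => by
    have := hm0 x hx
    linarith
  have hi2 : IntervalIntegrable (fun x => |ext s h Θ (flx n h d) x t| / (mss s h Λ S0 x t + a))
      volume S0 S1 := by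
    apply ContinuousOn.intervalIntegrable
    rw [hui]
    exact c2.abs.div (cm.add continuousOn_const) (fun x hx => (hden x hx).ne')
  obtain ⟨Q, hQ⟩ : ∃ Q, Q = ∫ y in S0..S1, |ext s h Θ' (fun y τ => d 1 y τ * flx n h d y τ) y t| :=
    ⟨_, rfl⟩
  have hQ0 : 0 ≤ Q := by
    rw [hQ]
    exact intervalIntegral.integral_nonneg R.hS (fun _ _ => abs_nonneg _)
  have hi3 : IntervalIntegrable (fun x => Q / (mss s h Λ S0 x t + a)) volume S0 S1 := by
    apply ContinuousOn.intervalIntegrable
    rw [hui]
    exact continuousOn_const.div (cm.add continuousOn_const) (fun x hx => (hden x hx).ne')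
  rw [← hQ]
  have hsplit : ∫ x in S0..S1, (|ext s h Θ (flx n h d) x t| + Q) / (mss s h Λ S0 x t + a) =
      (∫ x in S0..S1, |ext s h Θ (flx n h d) x t| / (mss s h Λ S0 x t + a)) +
      ∫ x in S0..S1, Q / (mss s h Λ S0 x t + a) := by
    rw [← intervalIntegral.integral_add hi2 hi3]
    apply intervalIntegral.integral_congr
    intro x _
    simp only [add_div]
  rw [hsplit]
  -- first part
  have hiφ : IntervalIntegrable φ volume S0 S1 := hφi.intervalIntegrable
  have hiL : IntervalIntegrable (fun x => Λ (Hx s h x t) / (mss s h Λ S0 x t + a))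
      volume S0 S1 := by
    apply ContinuousOn.intervalIntegrable
    rw [hui]
    exact (hcΛ.comp_continuousOn cH).div (cm.add continuousOn_const)
      (fun x hx => (hden x hx).ne')
  have P1 : ∫ x in S0..S1, |ext s h Θ (flx n h d) x t| / (mss s h Λ S0 x t + a) ≤
      lam / 2 * Dt n δ s h d t +
        Kt / lam * (2 * Real.log ((M * (S1 - S0) + a) / a) + 2) := by
    have hpt : ∀ x ∈ Icc S0 S1, |ext s h Θ (flx n h d) x t| / (mss s h Λ S0 x t + a) ≤
        lam / 2 * φ x + Kt / lam * (2 * (Λ (Hx s h x t) / (mss s h Λ S0 x t + a)) +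
          2 * ε / a) := by
      intro x hx
      have hd1 := hden x hx
      have hn1 := hm0 x hx
      rcases le_or_gt x (s t) with h1 | h1
      · have : ext s h Θ (flx n h d) x t = 0 := by unfold ext; rw [if_neg (not_lt.2 h1)]
        rw [this, abs_zero, zero_div]
        have := hφ0 x
        have := K.nΛ (Hx s h x t)
        positivity
      · have hD := hDom x h1 hx.2
        have hp := C.pos x t hD
        have hHx : Hx s h x t = h x t := Hx_of_lt h1
        rw [hφe x h1 hx.2, hHx]
        have hext : ext s h Θ (flx n h d) x t = Θ (h x t) * (h x t ^ n * d 3 x t) := by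
          unfold ext flx
          rw [if_pos h1]
        rw [hext]
        obtain ⟨m, hm⟩ : ∃ m, m = mss s h Λ S0 x t := ⟨_, rfl⟩
        rw [← hm] at hd1 hn1 ⊢
        have hmc := mass_cmp C hδ hε K R hti (x := x) ⟨h1.le, hx.2⟩
        rw [← hm] at hmc
        have hk := hKt x ⟨h1, hx.2⟩
        have hΘ0 := K.nΘ (h x t)
        have hΘ1 := K.lΘ (h x t)
        have hpn : 0 < h x t ^ n := Real.rpow_pos_of_pos hp n
        -- Θ² h^n ≤ 2 K Θ h (m + a)
        have hpow : h x t ^ n = h x t ^ (n - 1) * h x t := by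
          rw [← Real.rpow_add_one hp.ne']
          congr 1
          ring
        have k1 : h x t ^ (n - 1) ≤ 2 * Kt * (m + a) := by
          refine hk.trans ?_
          have : (∫ y in (s t)..x, Hx s h y t) + a ≤ 2 * (m + a) := by linarith
          calc _ ≤ Kt * (2 * (m + a)) := mul_le_mul_of_nonneg_left this hKt0
            _ = _ := by ring
        have k2 : Θ (h x t) * h x t ≤ 2 * Λ (h x t) + 2 * ε := by
          have l1 := K.lΛ (h x t) hp.le
          have l2 := K.nΛ (h x t)
          rcases le_total (2 * ε) (h x t) with hh | hh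
          · nlinarith
          · nlinarith
        have k3 : Θ (h x t) ^ 2 * h x t ^ n ≤ 2 * Kt * (m + a) * (2 * Λ (h x t) + 2 * ε) := by
          rw [hpow]
          calc Θ (h x t) ^ 2 * (h x t ^ (n - 1) * h x t)
              = h x t ^ (n - 1) * (Θ (h x t) * (Θ (h x t) * h x t)) := by ring
            _ ≤ (2 * Kt * (m + a)) * (1 * (2 * Λ (h x t) + 2 * ε)) := by
                apply mul_le_mul k1 _ (by positivity) (by positivity)
                apply mul_le_mul hΘ1 k2 (by positivity) (by norm_num)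
            _ = _ := by ring
        have k4 : |Θ (h x t) * (h x t ^ n * d 3 x t)| / (m + a) ≤
            lam / 2 * dss n h d x t + 1 / (2 * lam) * (Θ (h x t) ^ 2 * h x t ^ n / (m + a) ^ 2) := by
          have e1 : |Θ (h x t) * (h x t ^ n * d 3 x t)| = Θ (h x t) * h x t ^ n * |d 3 x t| := by
            rw [abs_mul, abs_mul, abs_of_nonneg hΘ0, abs_of_pos hpn]
            ring
          have e2 : lam / 2 * dss n h d x t +
              1 / (2 * lam) * (Θ (h x t) ^ 2 * h x t ^ n / (m + a) ^ 2) -
              Θ (h x t) * h x t ^ n * |d 3 x t| / (m + a) =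
              h x t ^ n * (lam * |d 3 x t| - Θ (h x t) / (m + a)) ^ 2 / (2 * lam) := by
            unfold dss
            rw [← sq_abs (d 3 x t)]
            field_simp
            ring
          rw [e1]
          have : 0 ≤ h x t ^ n * (lam * |d 3 x t| - Θ (h x t) / (m + a)) ^ 2 / (2 * lam) := by
            positivity
          linarith
        refine k4.trans ?_
        have k5 : 1 / (2 * lam) * (Θ (h x t) ^ 2 * h x t ^ n / (m + a) ^ 2) ≤
            Kt / lam * (2 * (Λ (h x t) / (m + a)) + 2 * ε / (m + a)) := by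
          calc 1 / (2 * lam) * (Θ (h x t) ^ 2 * h x t ^ n / (m + a) ^ 2)
              ≤ 1 / (2 * lam) * (2 * Kt * (m + a) * (2 * Λ (h x t) + 2 * ε) / (m + a) ^ 2) := by
                apply mul_le_mul_of_nonneg_left _ (by positivity)
                exact div_le_div_of_nonneg_right k3 (by positivity)
            _ = _ := by
                field_simp
        have k6 : 2 * ε / (m + a) ≤ 2 * ε / a := by
          apply div_le_div_of_nonneg_left (by positivity) ha (by linarith)
        have k7 : Kt / lam * (2 * (Λ (h x t) / (m + a)) + 2 * ε / (m + a)) ≤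
            Kt / lam * (2 * (Λ (h x t) / (m + a)) + 2 * ε / a) := by
          apply mul_le_mul_of_nonneg_left _ (by positivity)
          linarith
        linarith
    have hmono := intervalIntegral.integral_mono_on R.hS hi2
      ((hiφ.const_mul (lam / 2)).add (((hiL.const_mul 2).add
        (intervalIntegrable_const (c := 2 * ε / a))).const_mul (Kt / lam))) hpt
    rw [intervalIntegral.integral_add (hiφ.const_mul (lam / 2)) (((hiL.const_mul 2).add
        (intervalIntegrable_const (c := 2 * ε / a))).const_mul (Kt / lam)),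
      intervalIntegral.integral_const_mul, intervalIntegral.integral_const_mul,
      intervalIntegral.integral_add (hiL.const_mul 2) intervalIntegrable_const,
      intervalIntegral.integral_const_mul, intervalIntegral.integral_const, hlog,
      smul_eq_mul] at hmono
    refine hmono.trans ?_
    have q1 : (S1 - S0) * (2 * ε / a) ≤ 2 := by
      rw [mul_div_assoc', div_le_iff₀ ha]
      linarith
    have q2 : mss s h Λ S0 S1 t ≤ M * (S1 - S0) := by
      have : mss s h Λ S0 S1 t ≤ ∫ _ in S0..S1, M := by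
        unfold mss
        apply intervalIntegral.integral_mono_on R.hS
        · apply ContinuousOn.intervalIntegrable
          rw [hui]
          exact hcΛ.comp_continuousOn cH
        · exact intervalIntegrable_const
        · intro y hy
          exact (K.uΛ _ (Hx_nonneg C (R.mem hy hti))).trans (hM y hy)
      rw [intervalIntegral.integral_const, smul_eq_mul] at this
      linarith
    have q3 : Real.log (mss s h Λ S0 S1 t + a) - Real.log a ≤
        Real.log ((M * (S1 - S0) + a) / a) := by
      have q4 := hden S1 ⟨R.hS, le_refl _⟩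
      rw [Real.log_div (by linarith) ha.ne']
      have := Real.log_le_log q4 (by linarith : mss s h Λ S0 S1 t + a ≤ M * (S1 - S0) + a)
      linarith
    have q5 := mul_le_mul_of_nonneg_left hφS (by positivity : 0 ≤ lam / 2)
    have q6 : Kt / lam * (2 * (Real.log (mss s h Λ S0 S1 t + a) - Real.log a) +
        (S1 - S0) * (2 * ε / a)) ≤ Kt / lam * (2 * Real.log ((M * (S1 - S0) + a) / a) + 2) := by
      apply mul_le_mul_of_nonneg_left _ (by positivity)
      linarith
    linarith
  -- the level set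
  have hJc : IsCompact (lev s h S1 ε t) := by
    have e1 : lev s h S1 ε t = Icc (s t) S1 ∩ (fun x => Hx s h x t) ⁻¹' Icc (ε / 2) ε := by
      ext x
      simp only [lev, mem_ofPred_eq, mem_inter_iff, mem_preimage, mem_Icc]
    rw [e1]
    exact isCompact_Icc.of_isClosed_subset
      ((cH.mono (Icc_subset_Icc_left hl.le)).preimage_isClosed_of_isClosed isClosed_Icc
        isClosed_Icc) inter_subset_left
  have hJs : ∀ x ∈ lev s h S1 ε t, s t < x ∧ x ≤ S1 ∧ ε / 2 ≤ h x t ∧ h x t ≤ ε := by
    intro x hx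
    obtain ⟨h1, h2, h3⟩ := hx
    have h4 : s t < x := by
      by_contra hcon
      rw [Hx_of_le C h0t htT (not_lt.1 hcon)] at h2
      linarith
    rw [Hx_of_lt h4] at h2 h3
    exact ⟨h4, h1.2, h2, h3⟩
  have hJd : IntegrableOn (fun x => d 1 x t ^ 2) (lev s h S1 ε t) := by
    refine ContinuousOn.integrableOn_compact hJc ?_
    apply ContinuousOn.pow
    intro x hx
    obtain ⟨h1, h2, _, _⟩ := hJs x hx
    have hD := hDom x h1 h2
    exact (((C.d_cont 1 (by norm_num)).continuousAt ((isOpen_Dom C.s_cont).mem_nhds hD)).comp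
      (f := fun y : ℝ => (y, t)) (by fun_prop)).continuousWithinAt
  have hJm : MeasurableSet (lev s h S1 ε t) := hJc.measurableSet
  -- second part
  have P2 : Q ≤ c * (η / 2 * Dt n δ s h d t + 1 / (2 * η) * e) := by
    obtain ⟨ψ, hψ⟩ : ∃ ψ : ℝ → ℝ, ψ = (lev s h S1 ε t).indicator (fun x => d 1 x t ^ 2) :=
      ⟨_, rfl⟩
    have hψi : Integrable ψ := by
      rw [hψ]
      exact hJd.integrable_indicator hJm
    have hψ0 : ∀ x, 0 ≤ ψ x := by
      intro x
      rw [hψ]
      exact indicator_nonneg (fun _ _ => sq_nonneg _) x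
    have hψI : ∫ x, ψ x = ∫ x in lev s h S1 ε t, d 1 x t ^ 2 := by
      rw [hψ, integral_indicator hJm]
    have hpt : ∀ x ∈ Icc S0 S1, |ext s h Θ' (fun y τ => d 1 y τ * flx n h d y τ) x t| ≤
        c * (η / 2 * φ x + 1 / (2 * η) * (ε ^ (n - 2) * ψ x)) := by
      intro x hx
      have hεn : 0 < ε ^ (n - 2) := Real.rpow_pos_of_pos hε _
      have hrhs : 0 ≤ c * (η / 2 * φ x + 1 / (2 * η) * (ε ^ (n - 2) * ψ x)) := by
        have := hφ0 x
        have := hψ0 x
        positivity
      by_cases hJ : x ∈ lev s h S1 ε t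
      · obtain ⟨h1, h2, h3, h4⟩ := hJs x hJ
        have hp := C.pos x t (hDom x h1 h2)
        have hext : ext s h Θ' (fun y τ => d 1 y τ * flx n h d y τ) x t =
            Θ' (h x t) * (d 1 x t * (h x t ^ n * d 3 x t)) := by
          unfold ext flx
          rw [if_pos h1]
        have hψx : ψ x = d 1 x t ^ 2 := by rw [hψ, indicator_of_mem hJ]
        rw [hext, hφe x h1 h2, hψx]
        have hpn : 0 < h x t ^ n := Real.rpow_pos_of_pos hp n
        have hb := K.bΘ' (h x t)
        have hhn : h x t ^ n ≤ ε ^ (n - 2) * ε ^ 2 := by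
          have : ε ^ (n - 2) * ε ^ 2 = ε ^ n := by
            rw [← Real.rpow_natCast ε 2, ← Real.rpow_add hε]
            congr 1
            push_cast
            ring
          rw [this]
          exact Real.rpow_le_rpow hp.le h4 hn0.le
        have e1 : |Θ' (h x t) * (d 1 x t * (h x t ^ n * d 3 x t))| =
            |Θ' (h x t)| * (h x t ^ n * (|d 1 x t| * |d 3 x t|)) := by
          rw [abs_mul, abs_mul, abs_mul, abs_of_pos hpn]
          ring
        rw [e1]
        calc |Θ' (h x t)| * (h x t ^ n * (|d 1 x t| * |d 3 x t|))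
            ≤ c / ε * (h x t ^ n * (|d 1 x t| * |d 3 x t|)) :=
              mul_le_mul_of_nonneg_right hb (by positivity)
          _ = c * (h x t ^ n * (|d 1 x t| / ε * |d 3 x t|)) := by
              field_simp
          _ ≤ c * (η / 2 * dss n h d x t + 1 / (2 * η) * (h x t ^ n * (d 1 x t ^ 2 / ε ^ 2))) := by
              apply mul_le_mul_of_nonneg_left _ hc.le
              have e2 : η / 2 * dss n h d x t + 1 / (2 * η) * (h x t ^ n * (d 1 x t ^ 2 / ε ^ 2)) -
                  h x t ^ n * (|d 1 x t| / ε * |d 3 x t|) =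
                  h x t ^ n * (η * |d 3 x t| - |d 1 x t| / ε) ^ 2 / (2 * η) := by
                unfold dss
                rw [← sq_abs (d 3 x t), ← sq_abs (d 1 x t)]
                field_simp
                ring
              have : 0 ≤ h x t ^ n * (η * |d 3 x t| - |d 1 x t| / ε) ^ 2 / (2 * η) := by
                positivity
              linarith
          _ ≤ c * (η / 2 * dss n h d x t + 1 / (2 * η) * (ε ^ (n - 2) * d 1 x t ^ 2)) := by
              apply mul_le_mul_of_nonneg_left _ hc.le
              have e3 : h x t ^ n * (d 1 x t ^ 2 / ε ^ 2) ≤ ε ^ (n - 2) * d 1 x t ^ 2 := by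
                calc h x t ^ n * (d 1 x t ^ 2 / ε ^ 2)
                    ≤ (ε ^ (n - 2) * ε ^ 2) * (d 1 x t ^ 2 / ε ^ 2) :=
                      mul_le_mul_of_nonneg_right hhn (by positivity)
                  _ = ε ^ (n - 2) * d 1 x t ^ 2 := by field_simp
              have := mul_le_mul_of_nonneg_left e3 (by positivity : 0 ≤ 1 / (2 * η))
              linarith
      · have : ext s h Θ' (fun y τ => d 1 y τ * flx n h d y τ) x t = 0 := by
          unfold ext
          split_ifs with h1
          · have h2 : ¬ (ε / 2 ≤ h x t ∧ h x t ≤ ε) := by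
              intro h3
              apply hJ
              refine ⟨⟨h1.le, hx.2⟩, ?_⟩
              rw [Hx_of_lt h1]
              exact h3
            rw [not_and_or, not_le, not_le] at h2
            rcases h2 with h2 | h2
            · rw [K.zΘ' _ h2, zero_mul]
            · rw [K.oΘ' _ h2, zero_mul]
          · rfl
        rw [this, abs_zero]
        exact hrhs
    have hmono := intervalIntegral.integral_mono_on R.hS
      (by
        apply ContinuousOn.intervalIntegrable
        rw [hui]
        exact c3.abs : IntervalIntegrable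
          (fun x => |ext s h Θ' (fun y τ => d 1 y τ * flx n h d y τ) x t|) volume S0 S1)
      (((hiφ.const_mul (η / 2)).add ((hψi.intervalIntegrable.const_mul (ε ^ (n - 2))).const_mul
        (1 / (2 * η)))).const_mul c) hpt
    rw [intervalIntegral.integral_const_mul, intervalIntegral.integral_add
      (hiφ.const_mul (η / 2)) ((hψi.intervalIntegrable.const_mul (ε ^ (n - 2))).const_mul
        (1 / (2 * η))), intervalIntegral.integral_const_mul,
      intervalIntegral.integral_const_mul, intervalIntegral.integral_const_mul, ← hQ] at hmono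
    refine hmono.trans ?_
    apply mul_le_mul_of_nonneg_left _ hc.le
    have hψS : ∫ x in S0..S1, ψ x ≤ ∫ x in lev s h S1 ε t, d 1 x t ^ 2 := by
      rw [intervalIntegral.integral_of_le R.hS, ← hψI]
      exact setIntegral_le_integral hψi (Eventually.of_forall hψ0)
    have hεn : 0 < ε ^ (n - 2) := Real.rpow_pos_of_pos hε _
    have r1 := mul_le_mul_of_nonneg_left hφS (by positivity : 0 ≤ η / 2)
    have r2 := (mul_le_mul_of_nonneg_left hψS hεn.le).trans he
    have r3 := mul_le_mul_of_nonneg_left r2 (by positivity : 0 ≤ 1 / (2 * η))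
    linarith
  have P3 : ∫ x in S0..S1, Q / (mss s h Λ S0 x t + a) ≤ (S1 - S0) / a * Q := by
    have := intervalIntegral.integral_mono_on R.hS hi3 (intervalIntegrable_const (c := Q / a))
      (fun x hx => div_le_div_of_nonneg_left hQ0 ha (by linarith [hm0 x hx]))
    rw [intervalIntegral.integral_const, smul_eq_mul] at this
    calc _ ≤ (S1 - S0) * (Q / a) := this
      _ = (S1 - S0) / a * Q := by ring
  have P4 := mul_le_mul_of_nonneg_left P2 (by positivity : 0 ≤ (S1 - S0) / a)
  linarith

end

end Pool.Agent.R217.TF
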